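import Pool.Agent.MP_a15589_al.WStep

/-!
# Subgroups of least order in trace expressions (Rosenberg, Green)
-/

set_option autoImplicit false

namespace Pool.Agent.MP_a15589_al

open MonoidAlgebra

variable {k X : Type*} [Field k] [Group X] [Fintype X]

theorem fx_smul {L : Subgroup X} {c : MonoidAlgebra k X} (hcL : ∀ l ∈ L, cj l c = c)
    (g : X) (x : X ⧸ L) : cj (Quotient.out (g • x)) c = cj g (cj (Quotient.out x) c) := by
  rw [cj_cj]
  have h1 : ((Quotient.out (g • x) : X) : X ⧸ L) = ((g * Quotient.out x : X) : X ⧸ L) := by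
    rw [QuotientGroup.out_eq']
    conv_lhs => rw [← QuotientGroup.out_eq' x]
    rfl
  rw [QuotientGroup.eq] at h1
  have h2 := hcL _ h1
  calc cj (Quotient.out (g • x)) c = cj (Quotient.out (g • x))
        (cj ((Quotient.out (g • x))⁻¹ * (g * Quotient.out x)) c) := by rw [h2]
    _ = cj (g * Quotient.out x) c := by
        rw [cj_cj]; congr 1; group

open Classical in
theorem tr_invariant {L : Subgroup X} [Fintype (X ⧸ L)] {c : MonoidAlgebra k X}
    (hcL : ∀ l ∈ L, cj l c = c) (g : X) :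
    cj g (∑ x : X ⧸ L, cj (Quotient.out x) c) = ∑ x : X ⧸ L, cj (Quotient.out x) c := by
  rw [cj_sum]
  simp only [← fx_smul hcL]
  exact Equiv.sum_comp (MulAction.toPerm g) (fun x : X ⧸ L => cj (Quotient.out x) c)

theorem defect_embeds [IsAlgClosed k] {b : MonoidAlgebra k X} (hb : IsBlock b)
    {Q D : Subgroup X} (hQ : IsTraceFrom b Q) (hD : IsDefect b D) :
    ∃ f : D →* Q, Function.Injective f := by
  classical
  obtain ⟨a, ha, hba⟩ := hQ
  obtain ⟨⟨c, hc, hbc⟩, hmin⟩ := hD
  have haQ : ∀ q ∈ Q, cj q a = a := fun q hq => (cj_eq_iff q a).2 (ha q hq)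
  have hcD : ∀ d ∈ D, cj d c = c := fun d hd => (cj_eq_iff d c).2 (hc d hd)
  have : Fintype (X ⧸ Q) := Fintype.ofFinite _
  have : Fintype (X ⧸ D) := Fintype.ofFinite _
  have : Fintype (MulAction.orbitRel.Quotient Q (X ⧸ D)) := Fintype.ofFinite _
  have hba' : b = ∑ x : X ⧸ Q, cj (Quotient.out x) a := by
    rw [hba, finsum_eq_sum_of_fintype]; rfl
  have hbc' : b = ∑ x : X ⧸ D, cj (Quotient.out x) c := by
    rw [hbc, finsum_eq_sum_of_fintype]; rfl
  have hbcj : ∀ g : X, cj g b = b := fun g => (cj_eq_iff g b).2 (hb.central (dl k g))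
  let f : X ⧸ D → MonoidAlgebra k X := fun x => cj (Quotient.out x) c
  have hf : ∀ (g : X) (x : X ⧸ D), f (g • x) = cj g (f x) := fun g x => fx_smul hcD g x
  let Z : MulAction.orbitRel.Quotient Q (X ⧸ D) → MonoidAlgebra k X := fun ω =>
    ∑ x ∈ Finset.univ.filter (fun x : X ⧸ D => Quotient.mk _ x = ω), f x
  have hZ : ∀ ω, ∀ m ∈ Q, cj m (Z ω) = Z ω := by
    intro ω m hm
    simp only [Z]
    rw [cj_sum]
    refine Finset.sum_bij (fun x _ => m • x) ?_ ?_ ?_ ?_
    · intro x hx
      rw [Finset.mem_filter] at hx ⊢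
      refine ⟨Finset.mem_univ _, ?_⟩
      rw [← hx.2]
      apply Quotient.sound
      exact ⟨⟨m, hm⟩, rfl⟩
    · intro x _ y _ hxy
      exact MulAction.injective m hxy
    · intro y hy
      rw [Finset.mem_filter] at hy
      refine ⟨m⁻¹ • y, ?_, by simp⟩
      rw [Finset.mem_filter]
      refine ⟨Finset.mem_univ _, ?_⟩
      rw [← hy.2]
      apply Quotient.sound
      exact ⟨⟨m⁻¹, Q.inv_mem hm⟩, rfl⟩
    · intro x _
      exact (hf m x).symm
  have hbZ : b = ∑ ω, Z ω := by
    rw [hbc']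
    simp only [Z]
    rw [Finset.sum_fiberwise]
  let tr : MonoidAlgebra k X → MonoidAlgebra k X := fun z => ∑ x : X ⧸ Q, cj (Quotient.out x) z
  have htr_sum : ∀ {ι : Type _} (s : Finset ι) (g : ι → MonoidAlgebra k X),
      tr (∑ i ∈ s, g i) = ∑ i ∈ s, tr (g i) := by
    intro ι s g
    simp only [tr, cj_sum]
    exact Finset.sum_comm
  have htr_mul : ∀ z y, (∀ g, cj g y = y) → tr (z * y) = tr z * y := by
    intro z y hy
    simp only [tr]
    rw [Finset.sum_mul]
    exact Finset.sum_congr rfl (fun x _ => by rw [cj_mul, hy])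
  have hcomm := CZ_comm (k := k) (le_refl (⊤ : Subgroup X))
  have hcen : ∀ z, (∀ g, cj g z = z) → z ∈ CZ k (⊤ : Subgroup X) ⊤ := by
    intro z hz
    rw [mem_CZ']
    exact ⟨fun g hg => absurd (Subgroup.mem_top g) hg, fun m _ => hz m⟩
  have htrZ : ∀ ω, tr (a * Z ω) ∈ CZ k (⊤ : Subgroup X) ⊤ := by
    intro ω
    apply hcen
    intro g
    refine tr_invariant (fun q hq => ?_) g
    rw [cj_mul, haQ q hq, hZ ω q hq]
  have hprimG : IsPrim (CZ k (⊤ : Subgroup X) ⊤) b := by
    refine ⟨hcen b hbcj, hb.idem, hb.ne_zero, ?_⟩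
    intro f hf hff
    exact hb.prim f hff (fun x => central_comm hf x)
  have hbsum : b = ∑ ω, tr (a * Z ω) * b := by
    rw [← Finset.sum_mul, ← htr_sum, ← Finset.mul_sum, ← hbZ, htr_mul a b hbcj]
    have : tr a = b := hba'.symm
    rw [this, hb.idem.eq, hb.idem.eq]
  obtain ⟨ω, -, hω⟩ := not_nilpotent_of_sum hcomm Finset.univ (fun ω => tr (a * Z ω) * b)
    (fun ω _ => mul_mem (htrZ ω) hprimG.mem)
    (by rw [← hbsum]; exact idem_pow hb.idem hb.ne_zero)
  obtain ⟨w, hw, hwb⟩ := hprimG.unit hcomm (htrZ ω) hω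
  have hwcj : ∀ g, cj g w = w := fun g => (mem_CZ'.1 hw).2 g (Subgroup.mem_top g)
  obtain ⟨y, hy⟩ := Quotient.exists_rep ω
  let St : Subgroup Q := MulAction.stabilizer Q y
  have : Fintype (Q ⧸ St) := Fintype.ofFinite _
  have hZorb : Z ω = ∑ x : Q ⧸ St, cj ((Quotient.out x : Q) : X) (f y) := by
    simp only [Z]
    symm
    refine Finset.sum_bij (fun x _ => ((Quotient.out x : Q) : X) • y) ?_ ?_ ?_ ?_
    · intro x _
      rw [Finset.mem_filter]
      refine ⟨Finset.mem_univ _, ?_⟩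
      rw [← hy]
      apply Quotient.sound
      exact ⟨Quotient.out x, rfl⟩
    · intro x1 _ x2 _ h12
      have h3 : ((Quotient.out x1 : Q)) • y = ((Quotient.out x2 : Q)) • y := h12
      have h4 : (Quotient.out x1)⁻¹ * (Quotient.out x2) ∈ St := by
        rw [MulAction.mem_stabilizer_iff, mul_smul, ← h3, inv_smul_smul]
      rw [← QuotientGroup.eq, QuotientGroup.out_eq', QuotientGroup.out_eq'] at h4
      exact h4
    · intro x hx
      rw [Finset.mem_filter] at hx
      have h5 := hx.2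
      rw [← hy] at h5
      obtain ⟨m, hm⟩ := Quotient.exact h5
      refine ⟨(m : Q ⧸ St), Finset.mem_univ _, ?_⟩
      have h6 : (Quotient.out (m : Q ⧸ St))⁻¹ * m ∈ St := by
        rw [← QuotientGroup.eq, QuotientGroup.out_eq']
      have h7 : ((Quotient.out (m : Q ⧸ St))⁻¹ * m) • y = y := h6
      have h8 : m • y = (Quotient.out (m : Q ⧸ St)) • y := by
        conv_rhs => rw [← h7]
        rw [← mul_smul, mul_inv_cancel_left]
      have h9 : m • y = x := hm
      change (Quotient.out (m : Q ⧸ St)) • y = x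
      rw [← h8, h9]
    · intro x _
      exact (hf _ y).symm
  set d := a * f y * (w * b) with hd
  have hwbcj : ∀ g, cj g (w * b) = w * b := fun g => by rw [cj_mul, hwcj, hbcj]
  have hbd : b = ∑ x : X ⧸ Q, ∑ u : Q ⧸ St,
      cj (Quotient.out x * ((Quotient.out u : Q) : X)) d := by
    have h1 : b = tr (a * Z ω * (w * b)) := by
      rw [htr_mul _ _ hwbcj, ← mul_assoc]; exact hwb.symm
    have h2 : a * Z ω * (w * b) = ∑ u : Q ⧸ St, cj ((Quotient.out u : Q) : X) d := by
      rw [hZorb, Finset.mul_sum, Finset.sum_mul]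
      refine Finset.sum_congr rfl (fun u _ => ?_)
      rw [hd, cj_mul, cj_mul, hwbcj, haQ _ (Quotient.out u : Q).2]
    rw [h2] at h1
    refine h1.trans ?_
    simp only [tr, cj_sum, cj_cj]
  let St' : Subgroup X := St.map Q.subtype
  have hdSt : ∀ s ∈ St', cj s d = d := by
    rintro _ ⟨s, hs, rfl⟩
    rw [hd, cj_mul, cj_mul, hwbcj]
    have h1 : cj (Q.subtype s) a = a := haQ _ s.2
    have h2 : cj (Q.subtype s) (f y) = f y := by
      rw [← hf]
      have : (Q.subtype s) • y = y := hs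
      rw [this]
    rw [h1, h2]
  let σ : (X ⧸ Q) × (Q ⧸ St) → X := fun xu => Quotient.out xu.1 * ((Quotient.out xu.2 : Q) : X)
  have hσ : Function.Bijective (fun xu => (σ xu : X ⧸ St')) := by
    constructor
    · rintro ⟨x, u⟩ ⟨x', u'⟩ h
      have h1 := QuotientGroup.eq.1 h
      have h1Q : (σ (x, u))⁻¹ * σ (x', u') ∈ Q := by
        obtain ⟨s, -, hs⟩ := h1
        rw [← hs]; exact s.2
      have h2 : (Quotient.out x)⁻¹ * Quotient.out x' ∈ Q := by
        have h3 : (Quotient.out x)⁻¹ * Quotient.out x' =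
            ((Quotient.out u : Q) : X) * ((σ (x, u))⁻¹ * σ (x', u')) *
              ((Quotient.out u' : Q) : X)⁻¹ := by
          simp only [σ]; group
        rw [h3]
        exact Q.mul_mem (Q.mul_mem (Quotient.out u : Q).2 h1Q) (Q.inv_mem (Quotient.out u' : Q).2)
      rw [← QuotientGroup.eq, QuotientGroup.out_eq', QuotientGroup.out_eq'] at h2
      subst h2
      obtain ⟨s, hs, hs2⟩ := h1
      have h4 : s = (Quotient.out u)⁻¹ * Quotient.out u' := by
        apply Subtype.ext
        change Q.subtype s = _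
        rw [hs2]
        simp only [σ]
        change _ = ((Quotient.out u : Q) : X)⁻¹ * ((Quotient.out u' : Q) : X)
        group
      rw [h4] at hs
      have hs' : (Quotient.out u)⁻¹ * Quotient.out u' ∈ St := hs
      rw [← QuotientGroup.eq, QuotientGroup.out_eq', QuotientGroup.out_eq'] at hs'
      rw [hs']
    · intro q
      obtain ⟨g, rfl⟩ := QuotientGroup.mk_surjective q
      have h1 : (Quotient.out (g : X ⧸ Q))⁻¹ * g ∈ Q := by
        rw [← QuotientGroup.eq, QuotientGroup.out_eq']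
      let v : Q := ⟨_, h1⟩
      refine ⟨((g : X ⧸ Q), (v : Q ⧸ St)), ?_⟩
      apply QuotientGroup.eq.2
      have h2 : (Quotient.out (v : Q ⧸ St))⁻¹ * v ∈ St := by
        rw [← QuotientGroup.eq, QuotientGroup.out_eq']
      refine ⟨_, h2, ?_⟩
      change ((Quotient.out (v : Q ⧸ St) : Q) : X)⁻¹ * ((Quotient.out (g : X ⧸ Q))⁻¹ * g) = _
      simp only [σ]
      group
  have htrace : IsTraceFrom b St' := by
    refine ⟨d, fun q hq => (cj_eq_iff q d).1 (hdSt q hq), ?_⟩
    have h1 : (∑ᶠ x : X ⧸ St', MonoidAlgebra.of k X (Quotient.out x) * d *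
        MonoidAlgebra.of k X (Quotient.out x)⁻¹) = ∑ᶠ x : X ⧸ St', cj (Quotient.out x) d := rfl
    rw [h1, finsum_transversal hdSt σ hσ, Fintype.sum_prod_type]
    exact hbd
  have hle := hmin St' htrace
  -- embed `St'` in `D`
  have hinj : ∀ s : St', (Quotient.out y)⁻¹ * (s : X) * Quotient.out y ∈ D := by
    rintro ⟨_, s, hs, rfl⟩
    have h1 : (s : X) • y = y := hs
    have h3 : ((Quotient.out y : X) : X ⧸ D) = (((s : X) * Quotient.out y : X) : X ⧸ D) := by
      rw [QuotientGroup.out_eq']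
      conv_lhs => rw [← h1, ← QuotientGroup.out_eq' y]
      rfl
    rw [QuotientGroup.eq] at h3
    rw [mul_assoc]
    exact h3
  let φ : St' →* D :=
    { toFun := fun s => ⟨(Quotient.out y)⁻¹ * (s : X) * Quotient.out y, hinj s⟩
      map_one' := by simp
      map_mul' := fun s1 s2 => by simp [mul_assoc] }
  have hφ : Function.Injective φ := by
    intro s1 s2 h
    have := congrArg Subtype.val h
    change (Quotient.out y)⁻¹ * (s1 : X) * Quotient.out y =
      (Quotient.out y)⁻¹ * (s2 : X) * Quotient.out y at this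
    simp only [mul_left_inj, mul_right_inj] at this
    exact Subtype.ext this
  have hbij : Function.Bijective φ := by
    rw [Nat.bijective_iff_injective_and_card]
    exact ⟨hφ, le_antisymm (Nat.card_le_card_of_injective φ hφ) hle⟩
  let ψ : D ≃* St' := (MulEquiv.ofBijective φ hbij).symm
  have hSt'Q : St' ≤ Q := by
    rintro _ ⟨s, -, rfl⟩
    exact s.2
  exact ⟨(Subgroup.inclusion hSt'Q).comp ψ.toMonoidHom,
    (Subgroup.inclusion_injective hSt'Q).comp ψ.injective⟩

theorem exists_defect {b : MonoidAlgebra k X} {Q : Subgroup X} (hQ : IsTraceFrom b Q) :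
    ∃ D : Subgroup X, IsDefect b D := by
  classical
  have hne : ∃ n, ∃ D : Subgroup X, IsTraceFrom b D ∧ Nat.card D = n := ⟨_, Q, hQ, rfl⟩
  obtain ⟨D, hD, hn⟩ := Nat.find_spec hne
  refine ⟨D, hD, fun R hR => ?_⟩
  rw [hn]
  exact Nat.find_min' hne ⟨R, hR, rfl⟩

end Pool.Agent.MP_a15589_al
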