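import Mathlib

/-!
# Primitive idempotents of finite-dimensional commutative algebras
-/

set_option autoImplicit false

namespace Pool.Agent.MP_a15589_al

open Polynomial

section Comm

variable {k B : Type*} [Field k] [CommRing B] [Algebra k B]

theorem loc_aux [IsAlgClosed k] {u : B} (hu : u * u = u) (hne : u ≠ 0)
    (hprim : ∀ f : B, f * f = f → f * u = 0 ∨ f * u = u) (z : B) :
    ∀ n : ℕ, ∀ q : k[X], q.natDegree = n → q ≠ 0 → aeval z q * u = 0 →
      ∃ c : k, IsNilpotent ((z - algebraMap k B c) * u) := by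
  intro n
  induction n using Nat.strong_induction_on with
  | _ n ih =>
    intro q hqn hq hqz
    by_cases hd : q.degree = 0
    · exfalso
      rw [eq_C_of_degree_eq_zero hd, aeval_C] at hqz
      have hc : q.coeff 0 ≠ 0 := by
        intro h
        have := eq_C_of_degree_eq_zero hd
        rw [h, map_zero] at this
        exact hq this
      apply hne
      have : algebraMap k B (q.coeff 0)⁻¹ * (algebraMap k B (q.coeff 0) * u) = 0 := by
        rw [hqz, mul_zero]
      rwa [← mul_assoc, ← map_mul, inv_mul_cancel₀ hc, map_one, one_mul] at this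
    · obtain ⟨μ, hμ⟩ := IsAlgClosed.exists_root q hd
      obtain ⟨r, hr1, hr2⟩ := exists_eq_pow_rootMultiplicity_mul_and_not_dvd q hq μ
      set m := rootMultiplicity μ q with hm
      have hm0 : 0 < m := (rootMultiplicity_pos hq).2 hμ
      have hcop : IsCoprime ((X - C μ) ^ m) r :=
        IsCoprime.pow_left (((irreducible_X_sub_C μ).coprime_iff_not_dvd).2 hr2)
      obtain ⟨a, b, hab⟩ := hcop
      set P := aeval z ((X - C μ) ^ m) with hP
      set R := aeval z r with hR
      set a' := aeval z a with ha'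
      set b' := aeval z b with hb'
      have h1 : a' * P + b' * R = 1 := by
        rw [ha', hP, hb', hR, ← map_mul, ← map_mul, ← map_add, hab, map_one]
      have hq' : P * R * u = 0 := by
        rw [hP, hR, ← map_mul, ← hr1]; exact hqz
      have hPz : P = (z - algebraMap k B μ) ^ m := by
        rw [hP]; simp
      rcases hprim (b' * R * u) (by
        have : b' * R * u * (b' * R * u) = (b' * R) * (b' * R) * (u * u) := by ring
        rw [this, hu]
        have : (b' * R) * (b' * R) * u = (b' * R) * (1 - a' * P) * u := by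
          rw [← h1]; ring
        rw [this]
        have : b' * R * (1 - a' * P) * u = b' * R * u - b' * a' * (P * R * u) := by ring
        rw [this, hq']; ring) with h0 | h0
      · have h0' : b' * R * u = 0 := by
          have : b' * R * u = b' * R * u * u := by
            rw [mul_assoc (b' * R) u u, hu]
          rw [this]; exact h0
        have hRu : R * u = 0 := by
          have : R * u = (a' * P + b' * R) * (R * u) := by rw [h1, one_mul]
          rw [this]
          have : (a' * P + b' * R) * (R * u) = a' * (P * R * u) + R * (b' * R * u) := by ring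
          rw [this, hq', h0']; ring
        have hr0 : r ≠ 0 := by
          rintro rfl
          exact hr2 (dvd_zero _)
        refine ih r.natDegree ?_ r rfl hr0 hRu
        rw [← hqn, hr1, natDegree_mul (pow_ne_zero _ (X_sub_C_ne_zero μ)) hr0, natDegree_pow,
          natDegree_X_sub_C]
        omega
      · have h0' : b' * R * u = u := by
          have : b' * R * u = b' * R * u * u := by
            rw [mul_assoc (b' * R) u u, hu]
          rw [this]; exact h0
        refine ⟨μ, m, ?_⟩
        rw [mul_pow, ← hPz]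
        obtain ⟨j, hj⟩ : ∃ j, m = j + 1 := ⟨m - 1, by omega⟩
        rw [hj]
        have : P * u = 0 := by
          rw [← h0']
          have : P * (b' * R * u) = b' * (P * R * u) := by ring
          rw [this, hq', mul_zero]
        rw [pow_succ' u, ← mul_assoc, this, zero_mul]

theorem loc [IsAlgClosed k] [Module.Finite k B] {u : B} (hu : u * u = u) (hne : u ≠ 0)
    (hprim : ∀ f : B, f * f = f → f * u = 0 ∨ f * u = u) (z : B) :
    ∃ c : k, IsNilpotent ((z - algebraMap k B c) * u) := by
  have hz : IsIntegral k z := IsIntegral.of_finite k z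
  exact loc_aux hu hne hprim z _ (minpoly k z) rfl (minpoly.ne_zero hz) (by
    rw [minpoly.aeval, zero_mul])

theorem unit_of_not_nilpotent [IsAlgClosed k] [Module.Finite k B] {u : B} (hu : u * u = u)
    (hne : u ≠ 0) (hprim : ∀ f : B, f * f = f → f * u = 0 ∨ f * u = u) (z : B)
    (hz : ¬ IsNilpotent (z * u)) : ∃ w : B, z * w * u = u := by
  obtain ⟨c, N, hN⟩ := loc (k := k) hu hne hprim z
  have hc : c ≠ 0 := by
    rintro rfl
    rw [map_zero, sub_zero] at hN
    exact hz ⟨N, hN⟩
  set x : B := -(algebraMap k B c⁻¹ * ((z - algebraMap k B c) * u)) with hx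
  have hxN : x ^ N = 0 := by
    rw [hx, neg_pow, mul_pow, hN]; simp
  have hgeom : (1 - x) * ∑ i ∈ Finset.range N, x ^ i = 1 := by
    have := mul_neg_geom_sum x N
    rw [this, hxN, sub_zero]
  have hcc : algebraMap k B c * algebraMap k B c⁻¹ = 1 := by
    rw [← map_mul, mul_inv_cancel₀ hc, map_one]
  refine ⟨algebraMap k B c⁻¹ * ∑ i ∈ Finset.range N, x ^ i, ?_⟩
  set W := ∑ i ∈ Finset.range N, x ^ i with hW
  have key : z * (algebraMap k B c⁻¹) * u = (1 - x) * u := by
    rw [hx]
    have : (1 - -(algebraMap k B c⁻¹ * ((z - algebraMap k B c) * u))) * u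
        = u + algebraMap k B c⁻¹ * z * (u * u)
          - (algebraMap k B c * algebraMap k B c⁻¹) * (u * u) := by ring
    rw [this, hu, hcc]; ring
  calc z * (algebraMap k B c⁻¹ * W) * u = W * (z * algebraMap k B c⁻¹ * u) := by ring
    _ = W * ((1 - x) * u) := by rw [key]
    _ = ((1 - x) * W) * u := by ring
    _ = u := by rw [hgeom, one_mul]

theorem exists_prim [Module.Finite k B] (good : B → Prop)
    (hsplit : ∀ v w : B, v * v = v → w * w = w → v * w = 0 → good (v + w) → good v ∨ good w)
    {u : B} (hu : u * u = u) (hgu : good u) :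
    ∃ v : B, v * v = v ∧ v * u = v ∧ good v ∧
      ∀ f : B, f * f = f → f * v = 0 ∨ f * v = v := by
  classical
  let P : B → Prop := fun v => v * v = v ∧ v * u = v ∧ good v
  let μ : B → ℕ := fun v => Module.finrank k (LinearMap.range (LinearMap.mulLeft k v))
  obtain ⟨v, hv, hmin⟩ : ∃ v, P v ∧ ∀ w, P w → μ v ≤ μ w := by
    have hne : ∃ n, ∃ v, P v ∧ μ v = n := ⟨_, u, ⟨hu, hu, hgu⟩, rfl⟩
    obtain ⟨v, hv, hvn⟩ := Nat.find_spec hne
    refine ⟨v, hv, fun w hw => ?_⟩
    rw [hvn]
    exact Nat.find_min' hne ⟨w, hw, rfl⟩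
  obtain ⟨hvv, hvu, hvg⟩ := hv
  refine ⟨v, hvv, hvu, hvg, fun f hf => ?_⟩
  have key : ∀ w : B, w * w = w → w * v = w → good w → w = v := by
    intro w hww hwv hwg
    have hwu : w * u = w := by
      calc w * u = (w * v) * u := by rw [hwv]
        _ = w * (v * u) := by ring
        _ = w := by rw [hvu, hwv]
    have h1 := hmin w ⟨hww, hwu, hwg⟩
    have hle : LinearMap.range (LinearMap.mulLeft k w) ≤ LinearMap.range (LinearMap.mulLeft k v) := by
      rintro _ ⟨x, rfl⟩
      refine ⟨w * x, ?_⟩
      simp only [LinearMap.mulLeft_apply]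
      calc v * (w * x) = (w * v) * x := by ring
        _ = w * x := by rw [hwv]
    have heq := Submodule.eq_of_le_of_finrank_le hle h1
    have hvmem : v ∈ LinearMap.range (LinearMap.mulLeft k w) := by
      rw [heq]
      exact ⟨v, by simp [hvv]⟩
    obtain ⟨y, hy⟩ := hvmem
    simp only [LinearMap.mulLeft_apply] at hy
    calc w = w * v := hwv.symm
      _ = w * (w * y) := by rw [hy]
      _ = (w * w) * y := by ring
      _ = v := by rw [hww, hy]
  have hsum : f * v + (1 - f) * v = v := by ring
  have hd := hsplit (f * v) ((1 - f) * v)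
    (by
      calc f * v * (f * v) = (f * f) * (v * v) := by ring
        _ = f * v := by rw [hf, hvv])
    (by
      calc (1 - f) * v * ((1 - f) * v) = (1 - 2 * f + f * f) * (v * v) := by ring
        _ = (1 - f) * v := by rw [hf, hvv]; ring)
    (by
      calc f * v * ((1 - f) * v) = (f - f * f) * (v * v) := by ring
        _ = 0 := by rw [hf]; ring)
    (by rw [hsum]; exact hvg)
  rcases hd with h | h
  · right
    exact key _ (by
      calc f * v * (f * v) = (f * f) * (v * v) := by ring
        _ = f * v := by rw [hf, hvv]) (by rw [mul_assoc, hvv]) h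
  · left
    have h2 := key _ (by
      calc (1 - f) * v * ((1 - f) * v) = (1 - 2 * f + f * f) * (v * v) := by ring
        _ = (1 - f) * v := by rw [hf, hvv]; ring) (by rw [mul_assoc, hvv]) h
    have : f * v = v - (1 - f) * v := by ring
    rw [this, h2, sub_self]

/-- If `Es` is a primitive invariant idempotent and `r ≤ Es`, then only `0` is killed by all
conjugates of `r`. -/
theorem zero_of_conj {C Y : Type*} [CommRing C] [Group Y] [Fintype Y] (φ : Y → C → C)
    (hmul : ∀ y s t, φ y (s * t) = φ y s * φ y t) (h1 : ∀ y, φ y 1 = 1)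
    (hsub : ∀ y s t, φ y (s - t) = φ y s - φ y t) (hφφ : ∀ x y s, φ x (φ y s) = φ (x * y) s)
    (hφ1 : ∀ s, φ 1 s = s) {E r z : C} (hE : E * E = E) (hr : r * r = r) (hr0 : r ≠ 0)
    (hrE : r * E = r) (hφE : ∀ y, φ y E = E)
    (hprim : ∀ q : C, q * q = q → (∀ y, φ y q = q) → q * E = 0 ∨ q * E = E)
    (hzE : z * E = z) (hzr : ∀ y, z * φ y r = 0) : z = 0 := by
  classical
  set q : C := E * ∏ x : Y, (1 - φ x r) with hq
  have hφid : ∀ x, φ x r * φ x r = φ x r := fun x => by rw [← hmul, hr]
  have hqq : q * q = q := by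
    have h2 : (∏ x : Y, (1 - φ x r)) * (∏ x : Y, (1 - φ x r)) = ∏ x : Y, (1 - φ x r) := by
      rw [← Finset.prod_mul_distrib]
      refine Finset.prod_congr rfl (fun x _ => ?_)
      have : (1 - φ x r) * (1 - φ x r) = 1 - 2 * φ x r + φ x r * φ x r := by ring
      rw [this, hφid]; ring
    calc q * q = (E * E) * ((∏ x : Y, (1 - φ x r)) * (∏ x : Y, (1 - φ x r))) := by
          rw [hq]; ring
      _ = q := by rw [hE, h2]
  have hprod : ∀ (y : Y) (s : Finset Y), φ y (∏ x ∈ s, (1 - φ x r))
      = ∏ x ∈ s, (1 - φ (y * x) r) := by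
    intro y s
    induction s using Finset.induction_on with
    | empty => simp [h1]
    | insert a s ha ih => rw [Finset.prod_insert ha, Finset.prod_insert ha, hmul, ih, hsub, h1, hφφ]
  have hqcj : ∀ y : Y, φ y q = q := by
    intro y
    rw [hq, hmul, hφE, hprod]
    congr 1
    exact Equiv.prod_comp (Equiv.mulLeft y) (fun x => 1 - φ x r)
  have hqE : q * E = q := by
    have : q * E = (E * E) * ∏ x : Y, (1 - φ x r) := by rw [hq]; ring
    rw [this, hE]
  have hq0 : q = 0 := by
    rcases hprim q hqq hqcj with h | h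
    · rwa [hqE] at h
    · exfalso
      rw [hqE] at h
      have h3 : r * q = 0 := by
        have h4 : r * (1 - φ 1 r) = 0 := by
          rw [hφ1, mul_sub, hr, mul_one, sub_self]
        rw [hq, ← Finset.mul_prod_erase Finset.univ (fun x => 1 - φ x r) (Finset.mem_univ (1 : Y))]
        calc r * (E * ((1 - φ 1 r) * ∏ x ∈ Finset.univ.erase 1, (1 - φ x r)))
            = (r * (1 - φ 1 r)) * (E * ∏ x ∈ Finset.univ.erase 1, (1 - φ x r)) := by ring
          _ = 0 := by rw [h4, zero_mul]
      rw [h, hrE] at h3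
      exact hr0 h3
  have hzprod : ∀ s : Finset Y, z * ∏ x ∈ s, (1 - φ x r) = z := by
    intro s
    induction s using Finset.induction_on with
    | empty => simp
    | insert a s ha ih =>
      rw [Finset.prod_insert ha]
      calc z * ((1 - φ a r) * ∏ x ∈ s, (1 - φ x r))
          = z * ∏ x ∈ s, (1 - φ x r) - (z * φ a r) * ∏ x ∈ s, (1 - φ x r) := by ring
        _ = z := by rw [ih, hzr, zero_mul, sub_zero]
  calc z = z * E := hzE.symm
    _ = (z * ∏ x : Y, (1 - φ x r)) * E := by rw [hzprod]
    _ = z * q := by rw [hq]; ring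
    _ = 0 := by rw [hq0, mul_zero]

end Comm

section Sub

variable {k A : Type*} [Field k] [Ring A] [Algebra k A]

/-- `u` is a primitive idempotent of the subalgebra `S`. -/
structure IsPrim (S : Subalgebra k A) (u : A) : Prop where
  mem : u ∈ S
  idem : u * u = u
  ne : u ≠ 0
  prim : ∀ f ∈ S, f * f = f → f * u = 0 ∨ f * u = u

/-- The ring structure of a commutative subalgebra. -/
@[reducible] def subComm (S : Subalgebra k A) (hS : ∀ x ∈ S, ∀ y ∈ S, x * y = y * x) :
    CommRing S :=
  { S.toRing with mul_comm := fun x y => Subtype.ext (hS x x.2 y y.2) }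

theorem IsPrim.loc [IsAlgClosed k] [Module.Finite k A] {S : Subalgebra k A}
    (hS : ∀ x ∈ S, ∀ y ∈ S, x * y = y * x) {u : A} (hu : IsPrim S u) {z : A} (hz : z ∈ S) :
    ∃ c : k, IsNilpotent ((z - algebraMap k A c) * u) := by
  let _ := subComm S hS
  have : Module.Finite k S := inferInstance
  obtain ⟨c, n, hn⟩ := Pool.Agent.MP_a15589_al.loc (k := k) (B := S) (u := ⟨u, hu.mem⟩)
    (Subtype.ext hu.idem) (fun h => hu.ne (congrArg Subtype.val h))
    (fun f hf => by
      rcases hu.prim f f.2 (congrArg Subtype.val hf) with h | h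
      · left; exact Subtype.ext h
      · right; exact Subtype.ext h) ⟨z, hz⟩
  refine ⟨c, n, ?_⟩
  have := congrArg Subtype.val hn
  simpa using this

theorem IsPrim.unit [IsAlgClosed k] [Module.Finite k A] {S : Subalgebra k A}
    (hS : ∀ x ∈ S, ∀ y ∈ S, x * y = y * x) {u : A} (hu : IsPrim S u) {z : A} (hz : z ∈ S)
    (hnil : ¬ IsNilpotent (z * u)) : ∃ w ∈ S, z * w * u = u := by
  let _ := subComm S hS
  have : Module.Finite k S := inferInstance
  obtain ⟨w, hw⟩ := Pool.Agent.MP_a15589_al.unit_of_not_nilpotent (k := k) (B := S)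
    (u := ⟨u, hu.mem⟩)
    (Subtype.ext hu.idem) (fun h => hu.ne (congrArg Subtype.val h))
    (fun f hf => by
      rcases hu.prim f f.2 (congrArg Subtype.val hf) with h | h
      · left; exact Subtype.ext h
      · right; exact Subtype.ext h) ⟨z, hz⟩
    (by
      rintro ⟨n, hn⟩
      refine hnil ⟨n, ?_⟩
      have := congrArg Subtype.val hn
      simpa using this)
  exact ⟨w, w.2, congrArg Subtype.val hw⟩

theorem exists_isPrim [Module.Finite k A] {S : Subalgebra k A}
    (hS : ∀ x ∈ S, ∀ y ∈ S, x * y = y * x) (good : A → Prop) (hgood : ∀ v ∈ S, good v → v ≠ 0)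
    (hsplit : ∀ v ∈ S, ∀ w ∈ S, v * v = v → w * w = w → v * w = 0 → good (v + w) →
      good v ∨ good w)
    {u : A} (hmem : u ∈ S) (hu : u * u = u) (hgu : good u) :
    ∃ v : A, IsPrim S v ∧ v * u = v ∧ good v := by
  let _ := subComm S hS
  have : Module.Finite k S := inferInstance
  obtain ⟨v, h1, h2, h3, h4⟩ := Pool.Agent.MP_a15589_al.exists_prim (k := k) (B := S)
    (fun v => good (v : A))
    (fun v w hv hw hvw hg => hsplit v v.2 w w.2 (congrArg Subtype.val hv)
      (congrArg Subtype.val hw) (congrArg Subtype.val hvw) hg) (u := ⟨u, hmem⟩)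
    (Subtype.ext hu) hgu
  refine ⟨v, ⟨v.2, congrArg Subtype.val h1, hgood v v.2 h3, ?_⟩, congrArg Subtype.val h2, h3⟩
  intro f hf hff
  rcases h4 ⟨f, hf⟩ (Subtype.ext hff) with h | h
  · left; exact congrArg Subtype.val h
  · right; exact congrArg Subtype.val h

theorem sub_zero_of_conj {Y : Type*} [Group Y] [Fintype Y] {S : Subalgebra k A}
    (hS : ∀ x ∈ S, ∀ y ∈ S, x * y = y * x) (φ : Y → A → A) (hφS : ∀ y, ∀ s ∈ S, φ y s ∈ S)
    (hmul : ∀ y s t, φ y (s * t) = φ y s * φ y t) (h1 : ∀ y, φ y 1 = 1)
    (hsub : ∀ y s t, φ y (s - t) = φ y s - φ y t) (hφφ : ∀ x y s, φ x (φ y s) = φ (x * y) s)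
    (hφ1 : ∀ s, φ 1 s = s) {E r z : A} (hES : E ∈ S) (hrS : r ∈ S) (hzS : z ∈ S)
    (hE : E * E = E) (hr : r * r = r) (hr0 : r ≠ 0)
    (hrE : r * E = r) (hφE : ∀ y, φ y E = E)
    (hprim : ∀ q ∈ S, q * q = q → (∀ y, φ y q = q) → q * E = 0 ∨ q * E = E)
    (hzE : z * E = z) (hzr : ∀ y, z * φ y r = 0) : z = 0 := by
  let _ := subComm S hS
  have key := zero_of_conj (C := S) (Y := Y)
    (fun y s => ⟨φ y s, hφS y s s.2⟩)
    (fun y s t => Subtype.ext (hmul y s t))
    (fun y => Subtype.ext (h1 y))
    (fun y s t => Subtype.ext (hsub y s t))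
    (fun x y s => Subtype.ext (hφφ x y s))
    (fun s => Subtype.ext (hφ1 s))
    (E := ⟨E, hES⟩) (r := ⟨r, hrS⟩) (z := ⟨z, hzS⟩)
    (Subtype.ext hE) (Subtype.ext hr) (fun h => hr0 (congrArg Subtype.val h))
    (Subtype.ext hrE) (fun y => Subtype.ext (hφE y))
    (fun q hqq hqcj => by
      rcases hprim q q.2 (congrArg Subtype.val hqq) (fun y => congrArg Subtype.val (hqcj y))
        with h | h
      · left; exact Subtype.ext h
      · right; exact Subtype.ext h)
    (Subtype.ext hzE) (fun x => Subtype.ext (hzr x))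
  exact congrArg Subtype.val key

/-- A nilpotent sum criterion inside a commutative subalgebra. -/
theorem not_nilpotent_of_sum {S : Subalgebra k A} (hS : ∀ x ∈ S, ∀ y ∈ S, x * y = y * x)
    {ι : Type*} (s : Finset ι) (f : ι → A) (hf : ∀ i ∈ s, f i ∈ S)
    (h : ¬ IsNilpotent (∑ i ∈ s, f i)) : ∃ i ∈ s, ¬ IsNilpotent (f i) := by
  by_contra hcon
  push Not at hcon
  apply h
  exact Commute.isNilpotent_sum hcon (fun i j hi hj => hS _ (hf i hi) _ (hf j hj))

end Sub

end Pool.Agent.MP_a15589_al
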