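import Pool.Agent.MP_a15589_al.Defs
import Pool.Agent.MP_a15589_al.Local

/-!
# Supports, restrictions and centralisers in group algebras
-/

set_option autoImplicit false

namespace Pool.Agent.MP_a15589_al

open MonoidAlgebra

section Basic

variable {k X : Type*} [Field k] [Group X]

/-- The group element `g` in the group algebra. -/
noncomputable def dl (k : Type*) {X : Type*} [Field k] [Group X] (g : X) : MonoidAlgebra k X :=
  single g 1

theorem of_eq_dl (g : X) : MonoidAlgebra.of k X g = dl k g := rfl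

theorem dl_mul (g h : X) : dl k (g * h) = dl k g * dl k h := by
  simp [dl]

theorem dl_one : dl k (1 : X) = 1 := rfl

@[simp] theorem dl_mul_inv (g : X) : dl k g * dl k g⁻¹ = 1 := by
  rw [← dl_mul, mul_inv_cancel, dl_one]

@[simp] theorem dl_inv_mul (g : X) : dl k g⁻¹ * dl k g = 1 := by
  rw [← dl_mul, inv_mul_cancel, dl_one]

@[simp] theorem coeff_dl_mul (g h : X) (z : MonoidAlgebra k X) :
    (dl k g * z).coeff h = z.coeff (g⁻¹ * h) := by
  rw [dl, coeff_single_mul_apply, one_mul]

@[simp] theorem coeff_mul_dl (g h : X) (z : MonoidAlgebra k X) :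
    (z * dl k g).coeff h = z.coeff (h * g⁻¹) := by
  rw [dl, coeff_mul_single_apply, mul_one]

/-- Conjugation by `g`. -/
noncomputable def cj (g : X) (z : MonoidAlgebra k X) : MonoidAlgebra k X :=
  dl k g * z * dl k g⁻¹

@[simp] theorem coeff_cj (g h : X) (z : MonoidAlgebra k X) :
    (cj g z).coeff h = z.coeff (g⁻¹ * h * g) := by
  simp [cj, mul_assoc]

theorem cj_mul (g : X) (y z : MonoidAlgebra k X) : cj g (y * z) = cj g y * cj g z := by
  unfold cj
  calc dl k g * (y * z) * dl k g⁻¹ = dl k g * y * 1 * z * dl k g⁻¹ := by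
        simp only [mul_assoc, mul_one, one_mul]
    _ = _ := by
        rw [← dl_inv_mul g]
        simp only [mul_assoc]

theorem cj_one (g : X) : cj g (1 : MonoidAlgebra k X) = 1 := by
  simp [cj]

theorem cj_add (g : X) (y z : MonoidAlgebra k X) : cj g (y + z) = cj g y + cj g z := by
  simp [cj, mul_add, add_mul]

theorem cj_sub (g : X) (y z : MonoidAlgebra k X) : cj g (y - z) = cj g y - cj g z := by
  simp [cj, mul_sub, sub_mul]

theorem cj_zero (g : X) : cj g (0 : MonoidAlgebra k X) = 0 := by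
  simp [cj]

theorem cj_smul (g : X) (c : k) (z : MonoidAlgebra k X) : cj g (c • z) = c • cj g z := by
  simp [cj]

theorem cj_sum (g : X) {ι : Type*} (s : Finset ι) (f : ι → MonoidAlgebra k X) :
    cj g (∑ i ∈ s, f i) = ∑ i ∈ s, cj g (f i) := by
  simp [cj, Finset.mul_sum, Finset.sum_mul]

theorem cj_cj (g h : X) (z : MonoidAlgebra k X) : cj g (cj h z) = cj (g * h) z := by
  simp only [cj, dl_mul, mul_inv_rev, mul_assoc]

theorem cj_eq_iff (g : X) (z : MonoidAlgebra k X) : cj g z = z ↔ dl k g * z = z * dl k g := by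
  constructor
  · intro h
    have := congrArg (fun t => t * dl k g) h
    simpa [cj, mul_assoc] using this
  · intro h
    rw [cj, h, mul_assoc, dl_mul_inv, mul_one]

/-- `z` is supported in the set `S`. -/
def SuppIn (S : Set X) (z : MonoidAlgebra k X) : Prop := ∀ g, g ∉ S → z.coeff g = 0

theorem SuppIn.mono {S T : Set X} {z : MonoidAlgebra k X} (h : SuppIn S z) (hST : S ⊆ T) :
    SuppIn T z := fun g hg => h g (fun hS => hg (hST hS))

theorem SuppIn.add {S : Set X} {y z : MonoidAlgebra k X} (hy : SuppIn S y) (hz : SuppIn S z) :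
    SuppIn S (y + z) := fun g hg => by simp [hy g hg, hz g hg]

theorem SuppIn.smul {S : Set X} (c : k) {z : MonoidAlgebra k X} (hz : SuppIn S z) :
    SuppIn S (c • z) := fun g hg => by simp [hz g hg]

theorem SuppIn.sum {S : Set X} {ι : Type*} (s : Finset ι) (f : ι → MonoidAlgebra k X)
    (h : ∀ i ∈ s, SuppIn S (f i)) : SuppIn S (∑ i ∈ s, f i) := fun g hg => by
  rw [coeff_sum, Finset.sum_apply']
  exact Finset.sum_eq_zero (fun i hi => h i hi g hg)

theorem SuppIn.cj {S : Set X} {z : MonoidAlgebra k X} (hz : SuppIn S z) (g : X)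
    (hS : ∀ h, g⁻¹ * h * g ∈ S → h ∈ S) : SuppIn S (cj g z) := fun h hh => by
  rw [coeff_cj]
  exact hz _ (fun h' => hh (hS h h'))

theorem suppIn_one {S : Set X} (h1 : (1 : X) ∈ S) : SuppIn S (1 : MonoidAlgebra k X) := by
  classical
  intro g hg
  rw [one_def, coeff_single, Finsupp.single_apply, if_neg]
  rintro rfl
  exact hg h1

variable [Fintype X]

theorem mul_coeff (x y : MonoidAlgebra k X) (g : X) :
    (x * y).coeff g = ∑ h, x.coeff h * y.coeff (h⁻¹ * g) := by
  rw [coeff_mul_apply_left, Finsupp.sum_fintype]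
  intro i
  simp

theorem SuppIn.mul {S T U : Set X} {x y : MonoidAlgebra k X} (hx : SuppIn S x)
    (hy : SuppIn T y) (hU : ∀ s ∈ S, ∀ t ∈ T, s * t ∈ U) : SuppIn U (x * y) := by
  intro g hg
  rw [mul_coeff]
  refine Finset.sum_eq_zero (fun h _ => ?_)
  by_cases hS : h ∈ S
  · by_cases hT : h⁻¹ * g ∈ T
    · exfalso
      apply hg
      have := hU h hS _ hT
      rwa [mul_inv_cancel_left] at this
    · rw [hy _ hT, mul_zero]
  · rw [hx _ hS, zero_mul]

theorem eq_sum_dl (x : MonoidAlgebra k X) : x = ∑ g, x.coeff g • dl k g := by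
  ext h
  rw [coeff_sum, Finset.sum_apply', Finset.sum_eq_single h]
  · simp [dl]
  · intro b _ hb
    simp [dl, Finsupp.single_apply, hb]
  · intro h; exact absurd (Finset.mem_univ _) h

theorem commute_of_supp {N : Set X} {x y : MonoidAlgebra k X} (hx : SuppIn N x)
    (hy : ∀ n ∈ N, dl k n * y = y * dl k n) : x * y = y * x := by
  rw [eq_sum_dl x, Finset.sum_mul, Finset.mul_sum]
  refine Finset.sum_congr rfl (fun g _ => ?_)
  by_cases hg : g ∈ N
  · rw [smul_mul_assoc, mul_smul_comm, hy g hg]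
  · rw [hx g hg]; simp

/-- Elements supported on `N` and commuting with `M`. -/
noncomputable def CZ (k : Type*) {X : Type*} [Field k] [Group X] [Fintype X]
    (N M : Subgroup X) : Subalgebra k (MonoidAlgebra k X) where
  carrier := {z | SuppIn (N : Set X) z ∧ ∀ m ∈ M, dl k m * z = z * dl k m}
  mul_mem' := by
    rintro x y ⟨hx1, hx2⟩ ⟨hy1, hy2⟩
    refine ⟨hx1.mul hy1 (fun s hs t ht => N.mul_mem hs ht), fun m hm => ?_⟩
    rw [← mul_assoc, hx2 m hm, mul_assoc, hy2 m hm, mul_assoc]
  add_mem' := by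
    rintro x y ⟨hx1, hx2⟩ ⟨hy1, hy2⟩
    refine ⟨hx1.add hy1, fun m hm => ?_⟩
    rw [mul_add, add_mul, hx2 m hm, hy2 m hm]
  algebraMap_mem' := by
    intro c
    refine ⟨?_, fun m _ => (Algebra.commutes c (dl k m)).symm⟩
    rw [Algebra.algebraMap_eq_smul_one]
    exact (suppIn_one N.one_mem).smul c

theorem mem_CZ {N M : Subgroup X} {z : MonoidAlgebra k X} :
    z ∈ CZ k N M ↔ SuppIn (N : Set X) z ∧ ∀ m ∈ M, dl k m * z = z * dl k m := Iff.rfl

theorem mem_CZ' {N M : Subgroup X} {z : MonoidAlgebra k X} :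
    z ∈ CZ k N M ↔ SuppIn (N : Set X) z ∧ ∀ m ∈ M, cj m z = z := by
  rw [mem_CZ]
  simp only [cj_eq_iff]

theorem CZ_comm {N M : Subgroup X} (h : N ≤ M) :
    ∀ x ∈ CZ k N M, ∀ y ∈ CZ k N M, x * y = y * x := by
  rintro x ⟨hx1, _⟩ y ⟨_, hy2⟩
  exact commute_of_supp hx1 (fun n hn => hy2 n (h hn))

theorem CZ_mono {N N' M M' : Subgroup X} (hN : N ≤ N') (hM : M' ≤ M) {z : MonoidAlgebra k X}
    (hz : z ∈ CZ k N M) : z ∈ CZ k N' M' :=
  ⟨hz.1.mono hN, fun m hm => hz.2 m (hM hm)⟩

/-- Central elements of `kX` commute with everything. -/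
theorem central_comm {N : Subgroup X} {z : MonoidAlgebra k X} (hz : z ∈ CZ k N (⊤ : Subgroup X))
    (x : MonoidAlgebra k X) : x * z = z * x :=
  commute_of_supp (N := Set.univ) (fun _ h => absurd (Set.mem_univ _) h)
    (fun n _ => hz.2 n (Subgroup.mem_top n))

/-- Conjugation preserves `CZ N M` when `N` and `M` are normalised. -/
theorem cj_mem_CZ {N M : Subgroup X} [N.Normal] [M.Normal] {z : MonoidAlgebra k X}
    (hz : z ∈ CZ k N M) (g : X) : cj g z ∈ CZ k N M := by
  rw [mem_CZ'] at hz ⊢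
  refine ⟨hz.1.cj g (fun h hh => ?_), fun m hm => ?_⟩
  · have := Subgroup.Normal.conj_mem inferInstance _ hh g
    simpa [mul_assoc] using this
  · have h1 := hz.2 (g⁻¹ * m * g) (by
      have := Subgroup.Normal.conj_mem (inferInstance : M.Normal) m hm g⁻¹
      simpa using this)
    calc cj m (cj g z) = cj g (cj (g⁻¹ * m * g) z) := by
          rw [cj_cj, cj_cj]; congr 1; group
      _ = cj g z := by rw [h1]

end Basic

section Res

variable {k X : Type*} [Field k] [Group X]

open Classical in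
/-- Restriction of the support to `S`. -/
noncomputable def res (S : Set X) (z : MonoidAlgebra k X) : MonoidAlgebra k X :=
  ofCoeff (z.coeff.filter (· ∈ S))

open Classical in
theorem coeff_res (S : Set X) (z : MonoidAlgebra k X) (g : X) :
    (res S z).coeff g = if g ∈ S then z.coeff g else 0 := by
  rw [res, coeff_ofCoeff, Finsupp.filter_apply]

theorem coeff_res_of_mem {S : Set X} (z : MonoidAlgebra k X) {g : X} (h : g ∈ S) :
    (res S z).coeff g = z.coeff g := by
  classical
  rw [coeff_res, if_pos h]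

theorem coeff_res_of_not_mem {S : Set X} (z : MonoidAlgebra k X) {g : X} (h : g ∉ S) :
    (res S z).coeff g = 0 := by
  classical
  rw [coeff_res, if_neg h]

theorem suppIn_res (S : Set X) (z : MonoidAlgebra k X) : SuppIn S (res S z) :=
  fun _ hg => coeff_res_of_not_mem z hg

theorem res_suppIn {S T : Set X} {z : MonoidAlgebra k X} (hz : SuppIn T z) :
    SuppIn T (res S z) := fun g hg => by
  classical
  rw [coeff_res, hz g hg, ite_self]

theorem res_eq_self {S : Set X} {z : MonoidAlgebra k X} (hz : SuppIn S z) : res S z = z := by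
  ext g
  by_cases hg : g ∈ S
  · rw [coeff_res_of_mem z hg]
  · rw [coeff_res_of_not_mem z hg, hz g hg]

theorem res_add (S : Set X) (y z : MonoidAlgebra k X) : res S (y + z) = res S y + res S z := by
  ext g
  by_cases hg : g ∈ S
  · simp [coeff_res_of_mem _ hg]
  · simp [coeff_res_of_not_mem _ hg]

theorem res_zero (S : Set X) : res S (0 : MonoidAlgebra k X) = 0 := by
  ext g
  by_cases hg : g ∈ S
  · simp [coeff_res_of_mem _ hg]
  · simp [coeff_res_of_not_mem _ hg]

theorem res_sum (S : Set X) {ι : Type*} (s : Finset ι) (f : ι → MonoidAlgebra k X) :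
    res S (∑ i ∈ s, f i) = ∑ i ∈ s, res S (f i) := by
  classical
  induction s using Finset.induction_on with
  | empty => simp [res_zero]
  | insert a s ha ih => rw [Finset.sum_insert ha, Finset.sum_insert ha, res_add, ih]

theorem res_cj {S : Set X} (g : X) (hS : ∀ h, g⁻¹ * h * g ∈ S ↔ h ∈ S)
    (z : MonoidAlgebra k X) : res S (cj g z) = cj g (res S z) := by
  ext h
  by_cases hh : h ∈ S
  · rw [coeff_res_of_mem _ hh, coeff_cj, coeff_cj, coeff_res_of_mem _ ((hS h).2 hh)]
  · rw [coeff_res_of_not_mem _ hh, coeff_cj, coeff_res_of_not_mem]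
    rwa [hS h]

variable [Fintype X]

theorem res_mul_left {N S : Set X} {x : MonoidAlgebra k X} (hx : SuppIn N x)
    (hNS : ∀ n ∈ N, ∀ g, n⁻¹ * g ∈ S ↔ g ∈ S) (y : MonoidAlgebra k X) :
    res S (x * y) = x * res S y := by
  ext g
  by_cases hg : g ∈ S
  · rw [coeff_res_of_mem _ hg, mul_coeff, mul_coeff]
    refine Finset.sum_congr rfl (fun h _ => ?_)
    by_cases hh : h ∈ N
    · rw [coeff_res_of_mem _ ((hNS h hh g).2 hg)]
    · rw [hx h hh, zero_mul, zero_mul]
  · rw [coeff_res_of_not_mem _ hg, mul_coeff]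
    symm
    refine Finset.sum_eq_zero (fun h _ => ?_)
    by_cases hh : h ∈ N
    · rw [coeff_res_of_not_mem, mul_zero]
      rwa [hNS h hh g]
    · rw [hx h hh, zero_mul]

theorem res_mul_right {N S : Set X} {y : MonoidAlgebra k X} (hy : SuppIn N y)
    (hNS : ∀ g h, h⁻¹ * g ∈ N → (g ∈ S ↔ h ∈ S)) (x : MonoidAlgebra k X) :
    res S (x * y) = res S x * y := by
  ext g
  by_cases hg : g ∈ S
  · rw [coeff_res_of_mem _ hg, mul_coeff, mul_coeff]
    refine Finset.sum_congr rfl (fun h _ => ?_)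
    by_cases hh : h⁻¹ * g ∈ N
    · rw [coeff_res_of_mem _ ((hNS g h hh).1 hg)]
    · rw [hy _ hh, mul_zero, mul_zero]
  · rw [coeff_res_of_not_mem _ hg, mul_coeff]
    symm
    refine Finset.sum_eq_zero (fun h _ => ?_)
    by_cases hh : h⁻¹ * g ∈ N
    · rw [coeff_res_of_not_mem, zero_mul]
      rwa [← hNS g h hh]
    · rw [hy _ hh, mul_zero]

end Res

end Pool.Agent.MP_a15589_al
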