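import Pool.Agent.MP_a15589_al.TopGp

/-!
# Centres
-/

set_option autoImplicit false

namespace Pool.Agent.MP_a15589_al

open RegularWreathProduct
open scoped commutatorElement

section Abstract

variable {S X : Type*} [Group S] [Group X]

theorem topIs_perfect (hX : TopIs S X) [IsSimpleGroup S] (hnc : ∃ a b : S, a * b ≠ b * a) :
    commutator X = ⊤ := by
  obtain ⟨N, hN, hNtop, hmax, ⟨φ⟩⟩ := hX
  by_contra hne
  have hle := hmax (commutator X) inferInstance hne
  obtain ⟨a, b, hab⟩ := hnc
  apply hab
  obtain ⟨x, hx⟩ := QuotientGroup.mk_surjective (φ.symm a)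
  obtain ⟨y, hy⟩ := QuotientGroup.mk_surjective (φ.symm b)
  have h1 : ⁅x, y⁆ ∈ N := hle (Subgroup.commutator_mem_commutator (Subgroup.mem_top x)
    (Subgroup.mem_top y))
  have h2 : ⁅(x : X ⧸ N), (y : X ⧸ N)⁆ = 1 := by
    rw [← QuotientGroup.eq_one_iff] at h1
    exact h1
  rw [hx, hy, commutatorElement_eq_one_iff_mul_comm] at h2
  have h3 := congrArg φ h2
  simpa using h3

/-- Grün's lemma. -/
theorem grun (hX : commutator X = ⊤) : Subgroup.center (X ⧸ Subgroup.center X) = ⊥ := by
  rw [Subgroup.eq_bot_iff_forall]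
  intro q hq
  obtain ⟨g, rfl⟩ := QuotientGroup.mk_surjective q
  rw [QuotientGroup.eq_one_iff]
  have hmem : ∀ x : X, g * x * g⁻¹ * x⁻¹ ∈ Subgroup.center X := by
    intro x
    have h1 := Subgroup.mem_center_iff.1 hq (x : X ⧸ Subgroup.center X)
    rw [← QuotientGroup.eq_one_iff]
    have h2 : ((g * x * g⁻¹ * x⁻¹ : X) : X ⧸ Subgroup.center X) =
        ((g : X ⧸ Subgroup.center X) * x) * ((x : X ⧸ Subgroup.center X) * g)⁻¹ := by
      simp only [QuotientGroup.mk_mul, QuotientGroup.mk_inv]
      group
    rw [h2, h1, mul_inv_cancel]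
  let φ : X →* Subgroup.center X :=
    { toFun := fun x => ⟨g * x * g⁻¹ * x⁻¹, hmem x⟩
      map_one' := by apply Subtype.ext; simp
      map_mul' := by
        intro x y
        apply Subtype.ext
        change g * (x * y) * g⁻¹ * (x * y)⁻¹ = (g * x * g⁻¹ * x⁻¹) * (g * y * g⁻¹ * y⁻¹)
        have h3 := Subgroup.mem_center_iff.1 (hmem y) x⁻¹
        calc g * (x * y) * g⁻¹ * (x * y)⁻¹ = (g * x * g⁻¹) * ((g * y * g⁻¹ * y⁻¹) * x⁻¹) := by group
          _ = (g * x * g⁻¹) * (x⁻¹ * (g * y * g⁻¹ * y⁻¹)) := by rw [h3]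
          _ = _ := by group }
  rw [Subgroup.mem_center_iff]
  intro x
  have h4 : x ∈ commutator X := by rw [hX]; trivial
  have h5 : φ x = 1 := by
    have hcomm : commutator X ≤ φ.ker := by
      rw [commutator_def, Subgroup.commutator_le]
      intro a _ b _
      rw [MonoidHom.mem_ker, map_commutatorElement]
      rw [commutatorElement_eq_one_iff_mul_comm]
      exact Subtype.ext (Subgroup.mem_center_iff.1 (φ b).2 (φ a : X))
    exact hcomm h4
  have h6 : g * x * g⁻¹ * x⁻¹ = 1 := congrArg Subtype.val h5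
  rw [mul_inv_eq_one, mul_inv_eq_iff_eq_mul] at h6
  exact h6.symm

theorem topIs_quot (hX : TopIs S X) (hnc : ∃ a b : S, a * b ≠ b * a) (Z : Subgroup X)
    [hZn : Z.Normal] (hZ : Z ≤ Subgroup.center X) : TopIs S (X ⧸ Z) := by
  obtain ⟨N, hN, hNtop, hmax, ⟨φ⟩⟩ := hX
  have hZtop : Z ≠ ⊤ := by
    intro htop
    obtain ⟨a, b, hab⟩ := hnc
    apply hab
    obtain ⟨x, hx⟩ := QuotientGroup.mk_surjective (φ.symm a)
    obtain ⟨y, hy⟩ := QuotientGroup.mk_surjective (φ.symm b)
    have h1 : x * y = y * x := by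
      have : y ∈ Subgroup.center X := hZ (by rw [htop]; trivial)
      exact Subgroup.mem_center_iff.1 this x
    have h2 : (x : X ⧸ N) * (y : X ⧸ N) = (y : X ⧸ N) * (x : X ⧸ N) := by
      rw [← QuotientGroup.mk_mul, h1, QuotientGroup.mk_mul]
    rw [hx, hy] at h2
    have h3 := congrArg φ h2
    simpa using h3
  have hZN : Z ≤ N := hmax Z hZn hZtop
  have hsurj : Function.Surjective (QuotientGroup.mk' Z) := QuotientGroup.mk'_surjective Z
  have hcomap : (N.map (QuotientGroup.mk' Z)).comap (QuotientGroup.mk' Z) = N := by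
    rw [Subgroup.comap_map_eq, QuotientGroup.ker_mk', sup_eq_left.2 hZN]
  refine ⟨N.map (QuotientGroup.mk' Z), hN.map _ hsurj, ?_, ?_,
    ⟨(QuotientGroup.quotientQuotientEquivQuotient Z N hZN).trans φ⟩⟩
  · intro htop
    rw [htop, Subgroup.comap_top] at hcomap
    exact hNtop hcomap.symm
  · intro M hM hMtop
    have h1 : M.comap (QuotientGroup.mk' Z) ≠ ⊤ := by
      intro h
      apply hMtop
      rw [← Subgroup.map_comap_eq_self_of_surjective hsurj M, h,
        Subgroup.map_top_of_surjective _ hsurj]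
    have h2 := hmax _ (hM.comap _) h1
    rw [← Subgroup.map_comap_eq_self_of_surjective hsurj M]
    exact Subgroup.map_mono h2

end Abstract

section Wreath

variable {G P : Type*} [Group G] [Fintype G] [Group P] [Fintype P]

theorem center_kerW_of_right (hcard : 1 < Fintype.card P)
    {z : kerW G P} (hz : z ∈ Subgroup.center (kerW G P))
    (hright : (z : RegularWreathProduct G P).right = 1) :
    ∃ z0 ∈ Subgroup.center G, (z : RegularWreathProduct G P) = ⟨fun _ => z0, 1⟩ := by
  classical
  have hzc : ∀ w : kerW G P, (w : RegularWreathProduct G P) * z = z * w := fun w =>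
    congrArg Subtype.val (Subgroup.mem_center_iff.1 hz w)
  set g := (z : RegularWreathProduct G P).left with hg
  have hconst : ∀ i : P, g i = g 1 := by
    intro i
    have h1 := congrArg RegularWreathProduct.left (hzc ⟨inl i, inl_mem i⟩)
    have h2 := congrFun h1 i
    simp only [mul_left, Pi.mul_apply, left_inl, right_inl, Pi.one_apply, one_mul, mul_one,
      inv_mul_cancel, ← hg] at h2
    exact h2.symm
  refine ⟨g 1, ?_, ?_⟩
  · rw [Subgroup.mem_center_iff]
    intro u
    obtain ⟨j, hj⟩ : ∃ j : P, j ≠ 1 := by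
      have : Nontrivial P := Fintype.one_lt_card_iff_nontrivial.1 hcard
      exact exists_ne 1
    have h1 := congrArg RegularWreathProduct.left (hzc ⟨rho 1 j u, rho_mem _ _ _⟩)
    have h2 := congrFun h1 1
    simp only [mul_left, Pi.mul_apply, rho_right, inv_one, one_mul, ← hg, hright] at h2
    rw [rho_left_fst hj.symm] at h2
    exact h2
  · ext i
    · exact hconst i
    · exact hright

theorem center_kerW [IsSimpleGroup P] (hnc : ∃ a b : P, a * b ≠ b * a)
    {z : kerW G P} (hz : z ∈ Subgroup.center (kerW G P)) :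
    ∃ z0 ∈ Subgroup.center G, (z : RegularWreathProduct G P) = ⟨fun _ => z0, 1⟩ := by
  classical
  have hcenP : Subgroup.center P = ⊥ := by
    rcases IsSimpleGroup.eq_bot_or_eq_top_of_normal (Subgroup.center P) inferInstance with h | h
    · exact h
    · exfalso
      obtain ⟨a, b, hab⟩ := hnc
      have : b ∈ Subgroup.center P := by rw [h]; trivial
      exact hab (Subgroup.mem_center_iff.1 this a)
  refine center_kerW_of_right (Fintype.one_lt_card_iff_nontrivial.2 inferInstance) hz ?_
  have : (z : RegularWreathProduct G P).right ∈ Subgroup.center P := by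
    rw [Subgroup.mem_center_iff]
    intro y
    have := congrArg RegularWreathProduct.right
      (congrArg Subtype.val (Subgroup.mem_center_iff.1 hz ⟨inl y, inl_mem y⟩))
    simpa using this
  rw [hcenP, Subgroup.mem_bot] at this
  exact this

/-- Central elements of order `p` in `kerW G P`. -/
theorem center_kerW_p [IsSimpleGroup P] {p : ℕ}
    (hP : (∃ a b : P, a * b ≠ b * a) ∨ (Fintype.card P).Coprime p)
    {z : kerW G P} (hz : z ∈ Subgroup.center (kerW G P)) (hzp : z ^ p = 1) :
    ∃ z0 ∈ Subgroup.center G, (z : RegularWreathProduct G P) = ⟨fun _ => z0, 1⟩ := by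
  rcases hP with hnc | hcop
  · exact center_kerW hnc hz
  · refine center_kerW_of_right (Fintype.one_lt_card_iff_nontrivial.2 inferInstance) hz ?_
    have h1 : ((z : RegularWreathProduct G P).right) ^ p = 1 := by
      have h2 := map_pow ((rightHom : RegularWreathProduct G P →* P).comp
        (kerW G P).subtype) z p
      rw [hzp, map_one] at h2
      exact h2.symm
    have h3 : orderOf (z : RegularWreathProduct G P).right ∣ 1 := by
      rw [← hcop]
      exact Nat.dvd_gcd (orderOf_dvd_card) (orderOf_dvd_of_pow_eq_one h1)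
    exact orderOf_eq_one_iff.1 (Nat.dvd_one.1 h3)

end Wreath

end Pool.Agent.MP_a15589_al
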