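import Pool.Agent.MP_a15589_al.Quot2

/-!
# Quotients by a central subgroup of order `p`
-/

set_option autoImplicit false

namespace Pool.Agent.MP_a15589_al

open MonoidAlgebra Module

section LinAlg

theorem finrank_map_split {k V W U : Type*} [Field k] [AddCommGroup V] [Module k V]
    [AddCommGroup W] [Module k W] [AddCommGroup U] [Module k U] [Module.Finite k V]
    (f : V →ₗ[k] W) (θ : V →ₗ[k] U) (S : Submodule k V) :
    finrank k (S.map f) ≤ finrank k ((S ⊓ LinearMap.ker θ).map f) + finrank k (S.map θ) := by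
  let fS : S →ₗ[k] W := f.comp S.subtype
  let θS : S →ₗ[k] U := θ.comp S.subtype
  let K : Submodule k S := LinearMap.ker θS
  have h1 : finrank k (LinearMap.range fS) + finrank k (LinearMap.ker fS) = finrank k S :=
    LinearMap.finrank_range_add_finrank_ker fS
  have h2 : finrank k (LinearMap.range θS) + finrank k K = finrank k S :=
    LinearMap.finrank_range_add_finrank_ker θS
  let fK : K →ₗ[k] W := fS.comp K.subtype
  have h3 : finrank k (LinearMap.range fK) + finrank k (LinearMap.ker fK) = finrank k K :=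
    LinearMap.finrank_range_add_finrank_ker fK
  have h4 : finrank k (LinearMap.ker fK) ≤ finrank k (LinearMap.ker fS) := by
    let g : LinearMap.ker fK →ₗ[k] LinearMap.ker fS :=
      LinearMap.codRestrict _ (K.subtype.comp (LinearMap.ker fK).subtype) (fun x => x.2)
    refine LinearMap.finrank_le_finrank_of_injective (f := g) ?_
    intro x y hxy
    have := congrArg Subtype.val hxy
    exact Subtype.ext (Subtype.ext this)
  have e1 : LinearMap.range fS = S.map f := by
    rw [LinearMap.range_comp, Submodule.range_subtype]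
  have e2 : LinearMap.range θS = S.map θ := by
    rw [LinearMap.range_comp, Submodule.range_subtype]
  have e3 : LinearMap.range fK = (S ⊓ LinearMap.ker θ).map f := by
    ext w
    constructor
    · rintro ⟨x, rfl⟩
      exact ⟨((x : S) : V), ⟨(x : S).2, x.2⟩, rfl⟩
    · rintro ⟨v, ⟨hv1, hv2⟩, rfl⟩
      exact ⟨⟨⟨v, hv1⟩, hv2⟩, rfl⟩
  rw [← e1, ← e2, ← e3]
  omega

end LinAlg

variable {k X : Type*} [Field k] [Group X] [Fintype X]

section PStep

variable (p : ℕ) [Fact p.Prime] [CharP k p] {z0 : X} (hz0 : z0 ∈ Subgroup.center X)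
  (hord : orderOf z0 = p)

include hz0

theorem dl_center_comm (x : MonoidAlgebra k X) : dl k z0 * x = x * dl k z0 := by
  refine (commute_of_supp (N := Set.univ) (fun _ h => absurd (Set.mem_univ _) h)
    (fun n _ => ?_)).symm
  rw [← dl_mul, ← dl_mul]
  congr 1
  exact Subgroup.mem_center_iff.1 hz0 n

theorem tt_comm (x : MonoidAlgebra k X) : (dl k z0 - 1) * x = x * (dl k z0 - 1) := by
  rw [sub_mul, mul_sub, dl_center_comm hz0, one_mul, mul_one]

theorem ttpow_comm (i : ℕ) (x : MonoidAlgebra k X) :
    (dl k z0 - 1) ^ i * x = x * (dl k z0 - 1) ^ i :=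
  (Commute.pow_left (tt_comm hz0 x : Commute _ _) i)

theorem ttpow_cj (i : ℕ) (g : X) (x : MonoidAlgebra k X) :
    cj g ((dl k z0 - 1) ^ i * x) = (dl k z0 - 1) ^ i * cj g x := by
  rw [cj, cj, ← mul_assoc, ← ttpow_comm hz0 i (dl k g)]
  simp only [mul_assoc]

include hord

omit hz0 in
theorem tt_pow_p : (dl k z0 - 1) ^ p = 0 := by
  have : CharP (MonoidAlgebra k X) p := charP_of_injective_algebraMap
    (FaithfulSMul.algebraMap_injective k (MonoidAlgebra k X)) p
  rw [sub_pow_char_of_commute (p := p) (Commute.one_right _)]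
  have h1 : dl k z0 ^ p = 1 := by
    have : ∀ n : ℕ, dl k z0 ^ n = dl k (z0 ^ n) := by
      intro n
      induction n with
      | zero => simp [dl_one]
      | succ n ih => rw [pow_succ, ih, ← dl_mul, pow_succ]
    rw [this, ← hord, pow_orderOf_eq_one, dl_one]
  rw [h1, one_pow, sub_self]

omit hz0 in
theorem tt_pow_pred : (dl k z0 - 1) ^ (p - 1) = ∑ j ∈ Finset.range p, dl k (z0 ^ j) := by
  have hp : p.Prime := Fact.out
  have h1 : ((Polynomial.X : Polynomial k) - 1) ^ (p - 1) = ∑ j ∈ Finset.range p,
      (Polynomial.X : Polynomial k) ^ j := by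
    have h2 : ((Polynomial.X : Polynomial k) - 1) * (Polynomial.X - 1) ^ (p - 1) =
        (Polynomial.X - 1) * ∑ j ∈ Finset.range p, (Polynomial.X : Polynomial k) ^ j := by
      rw [mul_geom_sum, ← pow_succ', Nat.sub_add_cancel hp.one_lt.le,
        sub_pow_char_of_commute (p := p) (Commute.one_right _), one_pow]
    have h3 : ((Polynomial.X : Polynomial k) - 1) ≠ 0 := by
      rw [← Polynomial.C_1]
      exact Polynomial.X_sub_C_ne_zero 1
    exact mul_left_cancel₀ h3 h2
  have h4 := congrArg (Polynomial.aeval (dl k z0)) h1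
  simp only [map_pow, map_sub, map_one, Polynomial.aeval_X, map_sum] at h4
  rw [h4]
  refine Finset.sum_congr rfl (fun j hj => ?_)
  clear hj
  induction j with
  | zero => simp [dl_one]
  | succ j ih => rw [pow_succ, ih, ← dl_mul, pow_succ]

variable [(Subgroup.zpowers z0).Normal]

omit hz0 hord [Fact p.Prime] [CharP k p] in
theorem prj_tt : prj k (Subgroup.zpowers z0) (dl k z0 - 1) = 0 := by
  rw [map_sub, prj_dl, (QuotientGroup.eq_one_iff z0).2 (Subgroup.mem_zpowers z0), dl_one, map_one,
    sub_self]

omit [Fact p.Prime] [CharP k p] in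
theorem ker_prj {w : MonoidAlgebra k X} (hw : prj k (Subgroup.zpowers z0) w = 0)
    (hp : 0 < p) : ∃ v, w = (dl k z0 - 1) * v := by
  classical
  set Z := Subgroup.zpowers z0 with hZ
  have : Fintype (X ⧸ Z) := Fintype.ofFinite _
  -- every difference is divisible
  have hdiff : ∀ g : X, ∃ v, dl k g - dl k (Quotient.out (g : X ⧸ Z)) = (dl k z0 - 1) * v := by
    intro g
    have h1 : (Quotient.out (g : X ⧸ Z))⁻¹ * g ∈ Z := by
      rw [← QuotientGroup.eq, QuotientGroup.out_eq']
    have h2 : (Quotient.out (g : X ⧸ Z))⁻¹ * g ∈ Submonoid.powers z0 := by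
      have hfin : IsOfFinOrder z0 := by
        rw [← orderOf_pos_iff, hord]; exact hp
      exact hfin.mem_powers_iff_mem_zpowers.2 h1
    obtain ⟨j, hj⟩ := h2
    have hj' : z0 ^ j = (Quotient.out (g : X ⧸ Z))⁻¹ * g := hj
    have h3 : dl k g = dl k (Quotient.out (g : X ⧸ Z)) * dl k z0 ^ j := by
      have : dl k z0 ^ j = dl k (z0 ^ j) := by
        clear hj hj'
        induction j with
        | zero => simp [dl_one]
        | succ n ih => rw [pow_succ, ih, ← dl_mul, pow_succ]
      rw [this, hj', ← dl_mul, mul_inv_cancel_left]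
    refine ⟨dl k (Quotient.out (g : X ⧸ Z)) * ∑ i ∈ Finset.range j, dl k z0 ^ i, ?_⟩
    rw [h3, ← mul_assoc, tt_comm hz0, mul_assoc, mul_geom_sum, mul_sub, mul_one]
  choose v hv using hdiff
  refine ⟨∑ g : X, w.coeff g • v g, ?_⟩
  rw [Finset.mul_sum]
  simp only [mul_smul_comm, ← hv, smul_sub]
  rw [Finset.sum_sub_distrib, ← eq_sum_dl w]
  have h0 : ∑ g : X, w.coeff g • dl k (Quotient.out (g : X ⧸ Z)) = 0 := by
    rw [← Finset.sum_fiberwise (s := Finset.univ) (g := fun g : X => (g : X ⧸ Z))]
    refine Finset.sum_eq_zero (fun q _ => ?_)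
    rw [Finset.sum_congr rfl (fun g hg => by rw [(Finset.mem_filter.1 hg).2]), ← Finset.sum_smul]
    have : (prj k Z w).coeff q = 0 := by rw [hw]; rfl
    rw [coeff_prj] at this
    rw [this, zero_smul]
  rw [h0, sub_zero]

theorem prj_eq_zero_of_tt {i : ℕ} (hi : i < p) {y : MonoidAlgebra k X}
    (hy : (dl k z0 - 1) ^ i * y = 0) : prj k (Subgroup.zpowers z0) y = 0 := by
  classical
  have hp : p.Prime := Fact.out
  have h1 : (dl k z0 - 1) ^ (p - 1) * y = 0 := by
    have : p - 1 = (p - 1 - i) + i := by omega
    rw [this, pow_add, mul_assoc, hy, mul_zero]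
  rw [tt_pow_pred p hord, Finset.sum_mul] at h1
  ext q
  obtain ⟨g, rfl⟩ := QuotientGroup.mk_surjective q
  rw [coeff_prj, coeff_zero, Finsupp.zero_apply]
  have h2 : (∑ j ∈ Finset.range p, dl k (z0 ^ j) * y).coeff g = 0 := by rw [h1]; rfl
  rw [coeff_sum, Finset.sum_apply'] at h2
  rw [← h2]
  symm
  refine Finset.sum_bij (fun j _ => (z0 ^ j)⁻¹ * g) ?_ ?_ ?_ ?_
  · intro j _
    rw [Finset.mem_filter]
    refine ⟨Finset.mem_univ _, ?_⟩
    have : (((z0 ^ j)⁻¹ : X) : X ⧸ Subgroup.zpowers z0) = 1 := by
      rw [QuotientGroup.eq_one_iff]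
      exact inv_mem (Subgroup.npow_mem_zpowers z0 j)
    rw [QuotientGroup.mk_mul, this, one_mul]
  · intro i hi j hj hij
    have h3 : z0 ^ i = z0 ^ j := by
      have := mul_right_cancel hij
      exact inv_injective this
    rw [Finset.mem_range] at hi hj
    exact pow_injOn_Iio_orderOf (by rw [Set.mem_Iio, hord]; exact hi)
      (by rw [Set.mem_Iio, hord]; exact hj) h3
  · intro h hh
    rw [Finset.mem_filter] at hh
    have h3 : h⁻¹ * g ∈ Subgroup.zpowers z0 := QuotientGroup.eq.1 hh.2
    have hfin : IsOfFinOrder z0 := by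
      rw [← orderOf_pos_iff, hord]; exact hp.pos
    have h4 : g * h⁻¹ ∈ Subgroup.zpowers z0 := by
      have := Subgroup.Normal.conj_mem (inferInstance : (Subgroup.zpowers z0).Normal) _ h3 h
      simpa [mul_assoc] using this
    obtain ⟨j, hj, hj2⟩ := (hfin.mem_zpowers_iff_mem_range_orderOf).1 h4 |> Finset.mem_image.1
    rw [hord] at hj
    refine ⟨j, hj, ?_⟩
    rw [hj2]
    group
  · intro j _
    rw [coeff_dl_mul]

theorem block_quot_p {b : MonoidAlgebra k X} (hb : IsBlock b) :
    IsBlock (prj k (Subgroup.zpowers z0) b) ∧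
      blockDim b ≤ p * blockDim (prj k (Subgroup.zpowers z0) b) := by
  classical
  have hp : p.Prime := Fact.out
  set Z := Subgroup.zpowers z0 with hZ
  have hnil : ∀ x : MonoidAlgebra k X, prj k Z x = 0 → IsNilpotent x := by
    intro x hx
    obtain ⟨v, rfl⟩ := ker_prj p hz0 hord hx hp.pos
    refine ⟨p, ?_⟩
    have hc : Commute (dl k z0 - 1) v := tt_comm hz0 v
    rw [hc.mul_pow, tt_pow_p p hord, zero_mul]
  constructor
  · refine isBlock_of Z hb ?_ ?_
    · intro h0
      exact idem_pow hb.idem hb.ne_zero (hnil b h0)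
    · intro f hf hfc
      obtain ⟨f', h1, h2⟩ := exists_isIdempotentElem_eq_of_ker_isNilpotent
        (prj k Z).toRingHom (fun x hx => hnil x hx) f
        (by obtain ⟨x, hx⟩ := prj_surjective Z f; exact ⟨x, hx⟩) hf
      have h2' : prj k Z f' = f := h2
      refine ⟨f', h1, ?_, by rw [h2']⟩
      -- `f' y (1 - f') = 0` and `(1 - f') y f' = 0`
      have hgen : ∀ u w : MonoidAlgebra k X, u * u = u → w * w = w →
          (∀ y, prj k Z (u * y * w) = 0) → ∀ y, u * y * w = 0 := by
        intro u w hu hw h y
        have hstep : ∀ j : ℕ, ∀ y, ∃ v, u * y * w = (dl k z0 - 1) ^ j * (u * v * w) := by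
          intro j
          induction j with
          | zero => intro y; exact ⟨y, by rw [pow_zero, one_mul]⟩
          | succ j ih =>
            intro y
            obtain ⟨v, hv⟩ := ih y
            obtain ⟨v', hv'⟩ := ker_prj p hz0 hord (h v) hp.pos
            refine ⟨v', ?_⟩
            have h3 : u * v * w = (dl k z0 - 1) * (u * v' * w) := by
              calc u * v * w = (u * u) * v * (w * w) := by rw [hu, hw]
                _ = u * (u * v * w) * w := by noncomm_ring
                _ = u * ((dl k z0 - 1) * v') * w := by rw [hv']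
                _ = (u * (dl k z0 - 1)) * v' * w := by noncomm_ring
                _ = ((dl k z0 - 1) * u) * v' * w := by rw [tt_comm hz0 u]
                _ = (dl k z0 - 1) * (u * v' * w) := by noncomm_ring
            rw [hv, h3, pow_succ]
            simp only [mul_assoc]
        obtain ⟨v, hv⟩ := hstep p y
        rw [hv, tt_pow_p p hord, zero_mul]
      have hA : ∀ y, f' * y * (1 - f') = 0 := by
        refine hgen f' (1 - f') h1.eq (by
          rw [mul_sub, sub_mul, sub_mul, one_mul, one_mul, mul_one, h1.eq]; simp) (fun y => ?_)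
        rw [map_mul, map_mul, map_sub, map_one, h2', ← hfc, mul_assoc, mul_sub, mul_one, hf.eq,
          sub_self, mul_zero]
      have hB : ∀ y, (1 - f') * y * f' = 0 := by
        refine hgen (1 - f') f' (by
          rw [mul_sub, sub_mul, sub_mul, one_mul, one_mul, mul_one, h1.eq]; simp) h1.eq
          (fun y => ?_)
        rw [map_mul, map_mul, map_sub, map_one, h2', mul_assoc, hfc, ← mul_assoc, sub_mul, one_mul,
          hf.eq, sub_self, zero_mul]
      intro y
      have h5 := hA y
      have h6 := hB y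
      rw [mul_sub, mul_one, sub_eq_zero] at h5
      rw [sub_mul, sub_mul, one_mul, sub_eq_zero] at h6
      rw [h5, h6]
  · let V := Submodule.map (LinearMap.mulRight k b)
      (Subalgebra.toSubmodule (Subalgebra.center k (MonoidAlgebra k X)))
    let V' := Submodule.map (LinearMap.mulRight k (prj k Z b))
      (Subalgebra.toSubmodule (Subalgebra.center k (MonoidAlgebra k (X ⧸ Z))))
    have hVcen : ∀ y ∈ V, (∀ x, x * y = y * x) ∧ y * b = y := by
      rintro _ ⟨z, hz, rfl⟩
      have hz' : z ∈ Subalgebra.center k (MonoidAlgebra k X) := hz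
      rw [Subalgebra.mem_center_iff] at hz'
      change (∀ x, x * (z * b) = z * b * x) ∧ z * b * b = z * b
      refine ⟨fun x => ?_, by rw [mul_assoc, hb.idem.eq]⟩
      rw [← mul_assoc, hz', mul_assoc, hb.central, mul_assoc]
    let Vi : ℕ → Submodule k (MonoidAlgebra k X) := fun i =>
      LinearMap.range (LinearMap.mulLeft k ((dl k z0 - 1) ^ i)) ⊓ V
    have hstep : ∀ i < p, finrank k (Vi i) ≤ finrank k (Vi (i + 1)) + finrank k V' := by
      intro i hi
      let fi := LinearMap.mulLeft k ((dl k z0 - 1) ^ i)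
      let Wi := V.comap fi
      have h1 : Wi.map fi = Vi i := Submodule.map_comap_eq fi V
      have h2 : (Wi ⊓ LinearMap.ker (prj k Z).toLinearMap).map fi ≤ Vi (i + 1) := by
        rintro _ ⟨w, ⟨hw1, hw2⟩, rfl⟩
        obtain ⟨v, hv⟩ := ker_prj p hz0 hord hw2 hp.pos
        refine ⟨⟨v, ?_⟩, hw1⟩
        change (dl k z0 - 1) ^ (i + 1) * v = (dl k z0 - 1) ^ i * w
        rw [hv, pow_succ, mul_assoc]
      have h3 : Wi.map (prj k Z).toLinearMap ≤ V' := by
        rintro _ ⟨w, hw, rfl⟩
        have hw' : (dl k z0 - 1) ^ i * w ∈ V := hw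
        obtain ⟨hc1, hc2⟩ := hVcen _ hw'
        refine ⟨prj k Z w, ?_, ?_⟩
        · change prj k Z w ∈ Subalgebra.center k _
          rw [Subalgebra.mem_center_iff]
          intro x
          have : Finite (X ⧸ Z) := inferInstance
          have : Fintype (X ⧸ Z) := Fintype.ofFinite _
          refine commute_of_supp (N := Set.univ) (fun _ h => absurd (Set.mem_univ _) h)
            (fun n _ => ?_)
          obtain ⟨g, rfl⟩ := QuotientGroup.mk_surjective n
          rw [← cj_eq_iff]
          have h4 : prj k Z (cj g w - w) = 0 := by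
            apply prj_eq_zero_of_tt p hz0 hord hi
            rw [mul_sub, ← ttpow_cj hz0, (cj_eq_iff g _).2 (hc1 _), sub_self]
          rw [map_sub, prj_cj, sub_eq_zero] at h4
          exact h4
        · change prj k Z w * prj k Z b = prj k Z w
          have h5 : prj k Z (w * b - w) = 0 := by
            apply prj_eq_zero_of_tt p hz0 hord hi
            rw [mul_sub, ← mul_assoc, hc2, sub_self]
          rw [map_sub, map_mul, sub_eq_zero] at h5
          exact h5
      have h6 := finrank_map_split fi (prj k Z).toLinearMap Wi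
      rw [h1] at h6
      have : Finite (X ⧸ Z) := inferInstance
      have h7 := Submodule.finrank_mono h2
      have h8 := Submodule.finrank_mono h3
      omega
    have hall : ∀ j ≤ p, finrank k (Vi (p - j)) ≤ j * finrank k V' := by
      intro j
      induction j with
      | zero =>
        intro _
        have : Vi (p - 0) = ⊥ := by
          rw [Nat.sub_zero, Submodule.eq_bot_iff]
          rintro _ ⟨⟨v, rfl⟩, -⟩
          change (dl k z0 - 1) ^ p * v = 0
          rw [tt_pow_p p hord, zero_mul]
        rw [this]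
        simp
      | succ j ih =>
        intro hj
        have h1 := ih (by omega)
        have h2 := hstep (p - (j + 1)) (by omega)
        have h3 : p - (j + 1) + 1 = p - j := by omega
        rw [h3] at h2
        calc finrank k (Vi (p - (j + 1))) ≤ _ := h2
          _ ≤ j * finrank k V' + finrank k V' := by omega
          _ = (j + 1) * finrank k V' := by ring
    have hfin := hall p le_rfl
    have h0 : Vi (p - p) = V := by
      rw [Nat.sub_self]
      simp only [Vi]
      have : LinearMap.range (LinearMap.mulLeft k ((dl k z0 - 1) ^ 0)) = ⊤ := by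
        rw [LinearMap.range_eq_top]
        intro y
        exact ⟨y, by simp⟩
      rw [this, top_inf_eq]
    rw [h0] at hfin
    exact hfin

end PStep

end Pool.Agent.MP_a15589_al
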