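import Pool.Agent.MP_a15589_al.Centre
import Pool.Agent.MP_a15589_al.Quot3

/-!
# The amplification argument
-/

set_option autoImplicit false

namespace Pool.Agent.MP_a15589_al

open MonoidAlgebra RegularWreathProduct Filter

theorem strong_weak (k : Type) [Field k] (𝒳 𝒟 : ∀ (H : Type) [Group H], Prop) {α : ℝ}
    (h : StrongBound k 𝒟 α) : WeakBound k 𝒳 𝒟 α := by
  intro ε hε
  refine ⟨1, fun X _ _ _ e he D hD h𝒟 => ?_⟩
  rw [one_mul]
  refine (h X e he D hD h𝒟).trans ?_
  have h1 : (1 : ℝ) ≤ (Nat.card D : ℝ) := by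
    exact_mod_cast Nat.card_pos
  exact Real.rpow_le_rpow_of_exponent_le h1 (by linarith)

/-- The analytic part of the amplification. -/
theorem amplify {d n : ℕ} (hn : 0 < n) {β K C : ℝ} (hK : 0 ≤ K)
    (h : ∀ M : ℕ, ∃ m : ℕ, M ≤ m ∧
      (d : ℝ) ^ m ≤ K * (m * (C * ((n : ℝ) ^ m * m) ^ β))) : (d : ℝ) ≤ (n : ℝ) ^ β := by
  by_contra hcon
  push Not at hcon
  have hn' : (0 : ℝ) < (n : ℝ) := by exact_mod_cast hn
  have hnβ : 0 < (n : ℝ) ^ β := Real.rpow_pos_of_pos hn' β
  set r : ℝ := d / (n : ℝ) ^ β with hr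
  have hr1 : 1 < r := by rw [hr, one_lt_div hnβ]; exact hcon
  obtain ⟨N, hN⟩ := exists_nat_ge (1 + β)
  have hlim := tendsto_pow_const_div_const_pow_of_one_lt N hr1
  have hlim2 : Tendsto (fun m : ℕ => (K * |C|) * ((m : ℝ) ^ N / r ^ m)) atTop (nhds 0) := by
    have := hlim.const_mul (K * |C|)
    rwa [mul_zero] at this
  have hev : ∀ᶠ m : ℕ in atTop, (K * |C|) * ((m : ℝ) ^ N / r ^ m) < 1 :=
    hlim2.eventually (gt_mem_nhds one_pos)
  obtain ⟨M, hM⟩ := (hev.and (eventually_ge_atTop 1)).exists_forall_of_atTop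
  obtain ⟨m, hm, hle⟩ := h M
  obtain ⟨h1, h2⟩ := hM m hm
  have hm1 : (1 : ℝ) ≤ m := by exact_mod_cast h2
  have hrm : 0 < r ^ m := pow_pos (by linarith) m
  have hpow : ((n : ℝ) ^ m * m) ^ β = ((n : ℝ) ^ β) ^ m * (m : ℝ) ^ β := by
    rw [Real.mul_rpow (by positivity) (by positivity), ← Real.rpow_natCast ((n : ℝ)) m,
      ← Real.rpow_mul hn'.le, mul_comm (m : ℝ) β, Real.rpow_mul hn'.le, Real.rpow_natCast]
  have h3 : r ^ m ≤ (K * |C|) * (m : ℝ) ^ N := by
    have h4 : (m : ℝ) * (m : ℝ) ^ β ≤ (m : ℝ) ^ N := by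
      have : (m : ℝ) * (m : ℝ) ^ β = (m : ℝ) ^ (1 + β) := by
        rw [Real.rpow_add (by linarith), Real.rpow_one]
      rw [this, ← Real.rpow_natCast]
      exact Real.rpow_le_rpow_of_exponent_le hm1 hN
    have h5 : (d : ℝ) ^ m ≤ ((K * |C|) * (m : ℝ) ^ N) * ((n : ℝ) ^ β) ^ m := by
      calc (d : ℝ) ^ m ≤ K * (m * (C * ((n : ℝ) ^ m * m) ^ β)) := hle
        _ = K * C * ((m * (m : ℝ) ^ β) * ((n : ℝ) ^ β) ^ m) := by rw [hpow]; ring
        _ ≤ K * |C| * ((m * (m : ℝ) ^ β) * ((n : ℝ) ^ β) ^ m) := by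
            apply mul_le_mul_of_nonneg_right
            · exact mul_le_mul_of_nonneg_left (le_abs_self C) hK
            · positivity
        _ ≤ K * |C| * ((m : ℝ) ^ N * ((n : ℝ) ^ β) ^ m) := by
            apply mul_le_mul_of_nonneg_left
            · exact mul_le_mul_of_nonneg_right h4 (by positivity)
            · positivity
        _ = _ := by ring
    rw [hr, div_pow, div_le_iff₀ (by positivity)]
    exact h5
  have h6 : (K * |C|) * ((m : ℝ) ^ N / r ^ m) ≥ 1 := by
    rw [← mul_div_assoc, ge_iff_le, one_le_div hrm]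
    exact h3
  linarith

theorem le_of_forall_eps {d n : ℕ} (hn : 0 < n) {α : ℝ}
    (h : ∀ ε : ℝ, 0 < ε → (d : ℝ) ≤ (n : ℝ) ^ (α + ε)) : (d : ℝ) ≤ (n : ℝ) ^ α := by
  have hn' : (0 : ℝ) < (n : ℝ) := by exact_mod_cast hn
  have hcont : Tendsto (fun ε : ℝ => (n : ℝ) ^ (α + ε)) (nhdsWithin 0 (Set.Ioi 0))
      (nhds ((n : ℝ) ^ α)) := by
    have h1 : Continuous (fun ε : ℝ => (n : ℝ) ^ (α + ε)) :=
      (Real.continuous_const_rpow hn'.ne').comp (continuous_const.add continuous_id)
    have h2 := h1.tendsto 0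
    rw [add_zero] at h2
    exact h2.mono_left nhdsWithin_le_nhds
  refine ge_of_tendsto hcont ?_
  filter_upwards [self_mem_nhdsWithin] with ε hε
  exact h ε hε

section Remove

variable {k : Type} [Field k] [IsAlgClosed k]

/-- Reduction to groups whose centre has order prime to `p`. -/
theorem remove_centre (p : ℕ) [Fact p.Prime] [CharP k p]
    (𝒟 : ∀ (H : Type) [Group H], Prop)
    (hsub : ∀ (H H' : Type) [Group H] [Group H'] [Finite H'] (f : H →* H'),
      Function.Injective f → 𝒟 H' → 𝒟 H)
    (hquot : ∀ (H H' : Type) [Group H] [Group H'] [Finite H] (f : H →* H'),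
      Function.Surjective f → 𝒟 H → 𝒟 H') {α : ℝ} (hα : 1 ≤ α)
    (hred : ∀ (G : Type) [Group G] [Finite G], (∀ z ∈ Subgroup.center G, z ^ p = 1 → z = 1) →
      ∀ e : MonoidAlgebra k G, IsBlock e → ∀ D : Subgroup G, IsDefect e D → 𝒟 D →
        (blockDim e : ℝ) ≤ (Nat.card D : ℝ) ^ α) : StrongBound k 𝒟 α := by
  classical
  have hp : p.Prime := Fact.out
  have main : ∀ n : ℕ, ∀ (G : Type) [Group G] [Finite G], Nat.card G = n →
      ∀ e : MonoidAlgebra k G, IsBlock e → ∀ D : Subgroup G, IsDefect e D → 𝒟 D →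
        (blockDim e : ℝ) ≤ (Nat.card D : ℝ) ^ α := by
    intro n
    induction n using Nat.strong_induction_on with
    | _ n ih =>
      intro G _ _ hGn e he D hD h𝒟
      by_cases hcen : ∀ z ∈ Subgroup.center G, z ^ p = 1 → z = 1
      · exact hred G hcen e he D hD h𝒟
      · push Not at hcen
        obtain ⟨z0, hz0, hzp, hz1⟩ := hcen
        have : Fintype G := Fintype.ofFinite G
        have hord : orderOf z0 = p := orderOf_eq_prime hzp hz1
        have hZle : Subgroup.zpowers z0 ≤ Subgroup.center G := by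
          rwa [Subgroup.zpowers_le]
        have hnormal : (Subgroup.zpowers z0).Normal := by
          constructor
          intro x hx g
          have := Subgroup.mem_center_iff.1 (hZle hx) g
          rw [this, mul_inv_cancel_right]
          exact hx
        obtain ⟨hb', hdim⟩ := block_quot_p p hz0 hord he
        obtain ⟨hQ', hmem⟩ := trace_prj (Subgroup.zpowers z0) hZle hD.1
        have hchar : ringChar k = p := ringChar.eq k p |>.symm ▸ rfl
        have hzD : z0 ∈ D := by
          refine hmem hb'.ne_zero z0 (Subgroup.mem_zpowers z0) ?_ hz1 ?_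
          · rw [hchar]; exact hzp
          · rw [hchar]; exact hp
        have : Fintype (G ⧸ Subgroup.zpowers z0) := Fintype.ofFinite _
        obtain ⟨D', hD'⟩ := exists_defect hQ'
        obtain ⟨M, hM⟩ : ∃ M, M = D.map (QuotientGroup.mk' (Subgroup.zpowers z0)) := ⟨_, rfl⟩
        rw [← hM] at hQ'
        obtain ⟨gemb, hgemb⟩ := defect_embeds hb' hQ' hD'
        have h𝒟' : 𝒟 D' := by
          refine hsub _ _ gemb hgemb ?_
          subst hM
          exact hquot D _ ((QuotientGroup.mk' (Subgroup.zpowers z0)).subgroupMap D)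
            ((QuotientGroup.mk' (Subgroup.zpowers z0)).subgroupMap_surjective D) h𝒟
        -- cardinalities
        have hcardM : Nat.card M * p ≤ Nat.card D := by
          subst hM
          let φ : D →* D.map (QuotientGroup.mk' (Subgroup.zpowers z0)) :=
            (QuotientGroup.mk' (Subgroup.zpowers z0)).subgroupMap D
          have hφ : Function.Surjective φ :=
            (QuotientGroup.mk' (Subgroup.zpowers z0)).subgroupMap_surjective D
          have h1 : Nat.card D = Nat.card (D ⧸ φ.ker) * Nat.card φ.ker :=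
            Subgroup.card_eq_card_quotient_mul_card_subgroup _
          have h2 : Nat.card (D ⧸ φ.ker) = Nat.card (D.map (QuotientGroup.mk' (Subgroup.zpowers z0))) :=
            Nat.card_congr (QuotientGroup.quotientKerEquivOfSurjective φ hφ).toEquiv
          have h3 : p ≤ Nat.card φ.ker := by
            let zD : D := ⟨z0, hzD⟩
            have hzker : zD ∈ φ.ker := by
              rw [MonoidHom.mem_ker]
              apply Subtype.ext
              change ((z0 : G) : G ⧸ Subgroup.zpowers z0) = 1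
              rw [QuotientGroup.eq_one_iff]
              exact Subgroup.mem_zpowers z0
            have h4 : orderOf (⟨zD, hzker⟩ : φ.ker) = p := by
              rw [← hord]
              rw [Subgroup.orderOf_mk, Subgroup.orderOf_mk]
            rw [← h4]
            exact orderOf_le_card
          rw [h1, h2]
          exact Nat.mul_le_mul_left _ h3
        have hcardD' : Nat.card D' * p ≤ Nat.card D :=
          (Nat.mul_le_mul_right p (Nat.card_le_card_of_injective gemb hgemb)).trans hcardM
        have hcardG : Nat.card (G ⧸ Subgroup.zpowers z0) < n := by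
          have h1 : Nat.card G = Nat.card (G ⧸ Subgroup.zpowers z0) *
              Nat.card (Subgroup.zpowers z0) :=
            Subgroup.card_eq_card_quotient_mul_card_subgroup _
          rw [Nat.card_zpowers, hord, hGn] at h1
          have h2 : 0 < Nat.card (G ⧸ Subgroup.zpowers z0) := Nat.card_pos
          rw [h1]
          calc Nat.card (G ⧸ Subgroup.zpowers z0) = Nat.card (G ⧸ Subgroup.zpowers z0) * 1 :=
                (mul_one _).symm
            _ < _ := Nat.mul_lt_mul_of_pos_left hp.one_lt h2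
        have hIH := ih _ hcardG (G ⧸ Subgroup.zpowers z0) rfl _ hb' D' hD' h𝒟'
        have hp0 : (0 : ℝ) < p := by exact_mod_cast hp.pos
        have hp1 : (1 : ℝ) ≤ p := by exact_mod_cast hp.one_lt.le
        calc (blockDim e : ℝ) ≤ (p : ℝ) * blockDim (prj k (Subgroup.zpowers z0) e) := by
              exact_mod_cast hdim
          _ ≤ (p : ℝ) ^ α * (Nat.card D' : ℝ) ^ α := by
              refine mul_le_mul ?_ hIH (by positivity) (by positivity)
              calc (p : ℝ) = (p : ℝ) ^ (1 : ℝ) := (Real.rpow_one _).symm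
                _ ≤ (p : ℝ) ^ α := Real.rpow_le_rpow_of_exponent_le hp1 hα
          _ = ((p : ℝ) * (Nat.card D' : ℝ)) ^ α := by
              rw [Real.mul_rpow hp0.le (by positivity)]
          _ ≤ (Nat.card D : ℝ) ^ α := by
              refine Real.rpow_le_rpow (by positivity) ?_ (by linarith)
              have : ((Nat.card D' * p : ℕ) : ℝ) ≤ (Nat.card D : ℝ) := by exact_mod_cast hcardD'
              rw [Nat.cast_mul] at this
              linarith [mul_comm (p : ℝ) (Nat.card D' : ℝ)]
  intro G _ _ e he D hD h𝒟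
  exact main _ G rfl e he D hD h𝒟

end Remove

end Pool.Agent.MP_a15589_al
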