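import Pool.Agent.MP_a15589_al.Final

/-!
# Groups with trivial centre
-/

set_option autoImplicit false

namespace Pool.Agent.MP_a15589_al

open RegularWreathProduct

section

variable {G P : Type*} [Group G] [Fintype G] [Group P] [Fintype P]

/-- An element which commutes with all `δ_1(u) δ_j(u)⁻¹` lies in the base group. -/
theorem right_of_comm_rho [Nontrivial G] (hcard : 2 < Fintype.card P)
    {z : RegularWreathProduct G P} (hz : ∀ (j : P) (u : G), z * rho 1 j u = rho 1 j u * z) :
    z.right = 1 := by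
  classical
  obtain ⟨j, l, hj1, hl1, hjl⟩ : ∃ j l : P, j ≠ 1 ∧ l ≠ 1 ∧ j ≠ l := by
    have hc : 1 < (Finset.univ.erase (1 : P)).card := by
      rw [Finset.card_erase_of_mem (Finset.mem_univ _), Finset.card_univ]; omega
    obtain ⟨j, hj, l, hl, hjl⟩ := Finset.one_lt_card.1 hc
    exact ⟨j, l, Finset.ne_of_mem_erase hj, Finset.ne_of_mem_erase hl, hjl⟩
  obtain ⟨u, hu⟩ := exists_ne (1 : G)
  have key : ∀ t : P, t ≠ 1 → z.right = 1 ∨ z.right = t := by
    intro t ht
    by_contra hcon
    push Not at hcon
    have h1 := congrFun (congrArg RegularWreathProduct.left (hz t u)) z.right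
    simp only [mul_left, Pi.mul_apply, rho_right, inv_one, one_mul, inv_mul_cancel] at h1
    rw [rho_left_fst ht.symm, rho_left_ne hcon.1 hcon.2, one_mul] at h1
    exact hu (mul_eq_left.1 h1)
  rcases key j hj1 with h | h
  · exact h
  · rcases key l hl1 with h' | h'
    · exact h'
    · exact absurd (h.symm.trans h') hjl

theorem center_kerW_nt [Nontrivial G] (hcard : 2 < Fintype.card P)
    {z : kerW G P} (hz : z ∈ Subgroup.center (kerW G P)) :
    ∃ z0 ∈ Subgroup.center G, (z : RegularWreathProduct G P) = ⟨fun _ => z0, 1⟩ := by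
  refine center_kerW_of_right (by omega) hz (right_of_comm_rho hcard fun j u => ?_)
  exact (congrArg Subtype.val (Subgroup.mem_center_iff.1 hz ⟨rho 1 j u, rho_mem _ _ _⟩)).symm

omit [Fintype G] [Fintype P] in
theorem comm_left (w r : RegularWreathProduct G P) (hr : r.right = 1) (t : P) :
    (w * r * w⁻¹ * r⁻¹).left t =
      w.left t * r.left (w.right⁻¹ * t) * (w.left t)⁻¹ * (r.left t)⁻¹ := by
  simp [hr]

omit [Fintype G] [Fintype P] in
theorem comm_inl_left (w : RegularWreathProduct G P) (hw : w.right = 1) (y t : P) :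
    (w * inl y * w⁻¹ * (inl y)⁻¹).left t = w.left t * (w.left (y⁻¹ * t))⁻¹ := by
  simp [hw]

/-- The centre of `kerW G P` modulo its centre is trivial. -/
theorem second_centre [Nontrivial G] (hcard : 4 < Fintype.card P)
    (hhom : ∀ f : P →* Subgroup.center G, ∀ x, f x = 1) :
    Subgroup.center (kerW G P ⧸ Subgroup.center (kerW G P)) = ⊥ := by
  classical
  rw [Subgroup.eq_bot_iff_forall]
  intro q hq
  obtain ⟨w, rfl⟩ := QuotientGroup.mk_surjective q
  rw [QuotientGroup.eq_one_iff]
  have hmem : ∀ x : kerW G P, w * x * w⁻¹ * x⁻¹ ∈ Subgroup.center (kerW G P) := by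
    intro x
    have h1 := Subgroup.mem_center_iff.1 hq (x : kerW G P ⧸ Subgroup.center (kerW G P))
    rw [← QuotientGroup.eq_one_iff]
    have h2 : ((w * x * w⁻¹ * x⁻¹ : kerW G P) : kerW G P ⧸ Subgroup.center (kerW G P)) =
        ((w : kerW G P ⧸ Subgroup.center (kerW G P)) * x) *
          ((x : kerW G P ⧸ Subgroup.center (kerW G P)) * w)⁻¹ := by
      simp only [QuotientGroup.mk_mul, QuotientGroup.mk_inv]
      group
    rw [h2, h1, mul_inv_cancel]
  set x : P := (w : RegularWreathProduct G P).right with hx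
  -- commutators with `ρ`
  have hrho : ∀ (i j : P) (u : G), (w : RegularWreathProduct G P) * rho i j u = rho i j u * w := by
    intro i j u
    obtain ⟨z0, hz0, hzz⟩ := center_kerW_nt (by omega) (hmem ⟨rho i j u, rho_mem _ _ _⟩)
    have hc : (w : RegularWreathProduct G P) * rho i j u * (w : RegularWreathProduct G P)⁻¹ *
        (rho i j u)⁻¹ = ⟨fun _ => z0, 1⟩ := hzz
    obtain ⟨l, hl1, hl2, hl3, hl4⟩ : ∃ l : P, l ≠ i ∧ l ≠ j ∧ l ≠ x * i ∧ l ≠ x * j := by
      have hc : ({i, j, x * i, x * j} : Finset P).card < (Finset.univ : Finset P).card :=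
        lt_of_le_of_lt Finset.card_le_four (by rw [Finset.card_univ]; omega)
      obtain ⟨l, -, hl⟩ := Finset.exists_mem_notMem_of_card_lt_card hc
      simp only [Finset.mem_insert, Finset.mem_singleton, not_or] at hl
      exact ⟨l, hl.1, hl.2.1, hl.2.2.1, hl.2.2.2⟩
    have h1 : z0 = 1 := by
      have h2 := congrFun (congrArg RegularWreathProduct.left hc) l
      rw [comm_left _ _ (rho_right _ _ _)] at h2
      have e1 : x⁻¹ * l ≠ i := fun h => hl3 (by rw [← h]; group)
      have e2 : x⁻¹ * l ≠ j := fun h => hl4 (by rw [← h]; group)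
      rw [← hx, rho_left_ne e1 e2, rho_left_ne hl1 hl2] at h2
      have h3 : z0 = (w : RegularWreathProduct G P).left l * 1 *
        ((w : RegularWreathProduct G P).left l)⁻¹ * 1⁻¹ := h2.symm
      rw [h3]
      group
    rw [h1] at hc
    have h2 : (⟨fun _ => 1, 1⟩ : RegularWreathProduct G P) = 1 := rfl
    rw [h2, mul_inv_eq_one, mul_inv_eq_iff_eq_mul] at hc
    exact hc
  have hx1 : (w : RegularWreathProduct G P).right = 1 :=
    right_of_comm_rho (by omega) (fun j u => hrho 1 j u)
  -- the coordinates are central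
  have hcen : ∀ t : P, (w : RegularWreathProduct G P).left t ∈ Subgroup.center G := by
    intro t
    rw [Subgroup.mem_center_iff]
    intro u
    obtain ⟨j, hj⟩ : ∃ j : P, j ≠ t := by
      have : Nontrivial P := Fintype.one_lt_card_iff_nontrivial.1 (by omega)
      exact exists_ne t
    have h1 := congrFun (congrArg RegularWreathProduct.left (hrho t j u)) t
    simp only [mul_left, Pi.mul_apply, rho_right, inv_one, one_mul, hx1] at h1
    rw [rho_left_fst hj.symm] at h1
    exact h1.symm
  -- the homomorphism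
  have hconst : ∀ y : P, ∃ z0 : G, ∀ t : P, (w : RegularWreathProduct G P).left t *
      ((w : RegularWreathProduct G P).left (y⁻¹ * t))⁻¹ = z0 := by
    intro y
    obtain ⟨z0, hz0, hzz⟩ := center_kerW_nt (by omega) (hmem ⟨inl y, inl_mem y⟩)
    refine ⟨z0, fun t => ?_⟩
    have hc : (w : RegularWreathProduct G P) * inl y * (w : RegularWreathProduct G P)⁻¹ *
        (inl y)⁻¹ = ⟨fun _ => z0, 1⟩ := hzz
    have h2 := congrFun (congrArg RegularWreathProduct.left hc) t
    rw [comm_inl_left _ hx1] at h2
    exact h2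
  set v := (w : RegularWreathProduct G P).left with hv
  let f : P →* Subgroup.center G :=
    { toFun := fun y => ⟨v y * (v 1)⁻¹, mul_mem (hcen y) (inv_mem (hcen 1))⟩
      map_one' := by
        apply Subtype.ext
        simp
      map_mul' := by
        intro y1 y2
        apply Subtype.ext
        change v (y1 * y2) * (v 1)⁻¹ = (v y1 * (v 1)⁻¹) * (v y2 * (v 1)⁻¹)
        obtain ⟨z0, hz⟩ := hconst y1
        have e1 := hz (y1 * y2)
        have e2 := hz y1
        rw [inv_mul_cancel_left] at e1
        rw [inv_mul_cancel] at e2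
        rw [e2, ← e1]
        group }
  have hf := hhom f
  have hv1 : ∀ y : P, v y = v 1 := by
    intro y
    have h1 := congrArg Subtype.val (hf y)
    have h2 : v y * (v 1)⁻¹ = 1 := h1
    rwa [mul_inv_eq_one] at h2
  rw [Subgroup.mem_center_iff]
  intro g
  apply Subtype.ext
  change (g : RegularWreathProduct G P) * w = w * g
  ext t
  · simp only [mul_left, Pi.mul_apply, hx1, inv_one, one_mul, ← hv]
    rw [hv1 ((g : RegularWreathProduct G P).right⁻¹ * t), hv1 t]
    exact Subgroup.mem_center_iff.1 (hcen 1) _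
  · simp [hx1]

end

end Pool.Agent.MP_a15589_al
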