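import Pool.Agent.MP_a15589_al.Core2

/-!
# The two steps with trivial centre
-/

set_option autoImplicit false

namespace Pool.Agent.MP_a15589_al

open MonoidAlgebra RegularWreathProduct

section

variable {k : Type} [Field k] [IsAlgClosed k] {G P : Type} [Group G] [Finite G] [Nontrivial G]
  [Group P] [Finite P]

/-- From centre of order prime to `p` to trivial centre. -/
theorem core_C (p : ℕ) [Fact p.Prime] [CharP k p]
    (hhom : ∀ f : P →* Subgroup.center G, ∀ x, f x = 1)
    (hcard : 4 < Nat.card P) (hG : ∀ z ∈ Subgroup.center G, z ^ p = 1 → z = 1)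
    (hdiv : Nat.card (Subgroup.center G) ∣ Nat.card P)
    (𝒟 : ∀ (H : Type) [Group H], Prop)
    (hsub : ∀ (H H' : Type) [Group H] [Group H'] [Finite H'] (f : H →* H'),
      Function.Injective f → 𝒟 H' → 𝒟 H)
    (hquot : ∀ (H H' : Type) [Group H] [Group H'] [Finite H] (f : H →* H'),
      Function.Surjective f → 𝒟 H → 𝒟 H')
    {e : MonoidAlgebra k G} (he : IsBlock e) {D : Subgroup G} (hD : IsDefect e D)
    (T : Subgroup P) (hT : ((Nat.card (P ⧸ T) : ℕ) : k) ≠ 0) (h𝒟 : 𝒟 (LT D T)) :
    ∃ (X : Type) (_ : Group X) (_ : Finite X),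
      Subgroup.center X = ⊥ ∧
      ∃ (b : MonoidAlgebra k X) (D' : Subgroup X), IsBlock b ∧ IsDefect b D' ∧ 𝒟 D' ∧
        Nat.card D' ≤ Nat.card D ^ Nat.card P * Nat.card P ∧
        blockDim e ^ Nat.card P ≤ (Nat.card (Abelianization G) * blockDim e) ^
          Nat.card (Abelianization G) * (Nat.card P * blockDim b) := by
  classical
  have hp : p.Prime := Fact.out
  have : Fintype G := Fintype.ofFinite G
  have : Fintype P := Fintype.ofFinite P
  have : Fintype (Abelianization G) := Fintype.ofFinite _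
  have hcard' : 4 < Fintype.card P := by rwa [← Nat.card_eq_fintype_card]
  obtain ⟨b, hb, ⟨Q, hQ, f, hf⟩, hdim, hcen⟩ := wreath_step (P := P) he hD.1
    (Abelianization.of : G →* Abelianization G) T hT
  have : Finite (kerW G P) := inferInstance
  have : Fintype (kerW G P) := Fintype.ofFinite _
  set Z := Subgroup.center (kerW G P) with hZdef
  -- the order of the centre of `G` is prime to `p`
  have hnG : ((Nat.card (Subgroup.center G) : ℕ) : k) ≠ 0 := by
    rw [Ne, CharP.cast_eq_zero_iff k p]
    intro hdvd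
    obtain ⟨x, hx⟩ := exists_prime_orderOf_dvd_card' p hdvd
    have h1 : ((x : G)) ^ p = 1 := by
      have : x ^ p = 1 := by rw [← hx, pow_orderOf_eq_one]
      exact congrArg Subtype.val this
    have h2 := hG x x.2 h1
    have h3 : x = 1 := Subtype.ext h2
    rw [h3, orderOf_one] at hx
    exact hp.one_lt.ne hx
  have hZb : ∀ z ∈ Z, dl k z * b = b := by
    intro z hz
    obtain ⟨z0, hz0, hzz⟩ := center_kerW_nt (by omega) hz
    refine hcen z0 hz0 z hzz ⟨Nat.card (Subgroup.center G), hnG, ?_, ?_⟩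
    · have : (⟨z0, hz0⟩ : Subgroup.center G) ^ Nat.card (Subgroup.center G) = 1 := pow_card_eq_one'
      exact congrArg Subtype.val this
    · rw [← Nat.card_eq_fintype_card]; exact hdiv
  have hZk : ((Nat.card Z : ℕ) : k) ≠ 0 := by
    -- `Z` embeds in the centre of `G`
    have hex : ∀ z : Z, ∃ z0 : Subgroup.center G,
        ((z : kerW G P) : RegularWreathProduct G P) = ⟨fun _ => (z0 : G), 1⟩ := fun z => by
      obtain ⟨z0, hz0, h⟩ := center_kerW_nt (by omega) z.2
      exact ⟨⟨z0, hz0⟩, h⟩
    choose ψ hψ using hex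
    let Ψ : Z →* Subgroup.center G := MonoidHom.mk' ψ (by
      intro a b
      apply Subtype.ext
      have h1 := hψ (a * b)
      have h2 : (((a * b : Z) : kerW G P) : RegularWreathProduct G P) =
          ((a : kerW G P) : RegularWreathProduct G P) *
            ((b : kerW G P) : RegularWreathProduct G P) := rfl
      rw [h2, hψ a, hψ b] at h1
      have h3 := congrFun (congrArg RegularWreathProduct.left h1) 1
      simpa using h3.symm)
    have hΨ : Function.Injective Ψ := by
      intro a b hab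
      have h1 : ψ a = ψ b := hab
      apply Subtype.ext
      apply Subtype.ext
      rw [hψ a, hψ b, h1]
    have hdvd : Nat.card Z ∣ Nat.card (Subgroup.center G) := Subgroup.card_dvd_of_injective Ψ hΨ
    intro h0
    apply hnG
    obtain ⟨t, ht⟩ := hdvd
    rw [ht, Nat.cast_mul, h0, zero_mul]
  obtain ⟨hb', hdim'⟩ := block_quot_coprime Z (le_refl _) hZk hb hZb
  obtain ⟨Q', hQ'def⟩ : ∃ Q', Q' = Q.map (QuotientGroup.mk' Z) := ⟨_, rfl⟩
  obtain ⟨hQ', -⟩ := trace_prj Z (le_refl _) hQ
  rw [← hQ'def] at hQ'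
  have hsurj : Function.Surjective ((QuotientGroup.mk' Z).subgroupMap Q) :=
    (QuotientGroup.mk' Z).subgroupMap_surjective Q
  have : Fintype (kerW G P ⧸ Z) := Fintype.ofFinite _
  obtain ⟨D', hD'⟩ := exists_defect hQ'
  obtain ⟨g, hg⟩ := defect_embeds hb' hQ' hD'
  have hcQ : Nat.card Q' ≤ Nat.card Q := by
    subst hQ'def
    exact Nat.card_le_card_of_surjective _ hsurj
  have h𝒟Q : 𝒟 Q' := by
    subst hQ'def
    exact hquot _ _ _ hsurj (hsub _ _ f hf h𝒟)
  refine ⟨kerW G P ⧸ Z, inferInstance, inferInstance, second_centre hcard' hhom,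
    prj k Z b, D', hb', hD', hsub _ _ g hg h𝒟Q, ?_, ?_⟩
  · calc Nat.card D' ≤ Nat.card Q' := Nat.card_le_card_of_injective g hg
      _ ≤ Nat.card Q := hcQ
      _ ≤ Nat.card (LT D T) := Nat.card_le_card_of_injective f hf
      _ ≤ Nat.card D ^ Nat.card P * Nat.card T := card_LT_le D T
      _ ≤ _ := Nat.mul_le_mul_left _ (Subgroup.card_le_card_group T)
  · rw [Nat.card_eq_fintype_card, Nat.card_eq_fintype_card]
    exact hdim.trans (Nat.mul_le_mul_left _ (Nat.mul_le_mul_left _ hdim'))

/-- From trivial centre to trivial centre and prescribed top. -/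
theorem core_D [IsSimpleGroup P]
    (hP : (∃ a b : P, a * b ≠ b * a) ∨ (Nat.card P).Coprime (Nat.card (Abelianization G)))
    (hcard : 4 < Nat.card P) (hG : Subgroup.center G = ⊥)
    (𝒟 : ∀ (H : Type) [Group H], Prop)
    (hsub : ∀ (H H' : Type) [Group H] [Group H'] [Finite H'] (f : H →* H'),
      Function.Injective f → 𝒟 H' → 𝒟 H)
    {e : MonoidAlgebra k G} (he : IsBlock e) {D : Subgroup G} (hD : IsDefect e D)
    (T : Subgroup P) (hT : ((Nat.card (P ⧸ T) : ℕ) : k) ≠ 0) (h𝒟 : 𝒟 (LT D T)) :
    ∃ (X : Type) (_ : Group X) (_ : Finite X), TopIs P X ∧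
      Subgroup.center X = ⊥ ∧
      ∃ (b : MonoidAlgebra k X) (D' : Subgroup X), IsBlock b ∧ IsDefect b D' ∧ 𝒟 D' ∧
        Nat.card D' ≤ Nat.card D ^ Nat.card P * Nat.card P ∧
        blockDim e ^ Nat.card P ≤ (Nat.card (Abelianization G) * blockDim e) ^
          Nat.card (Abelianization G) * (Nat.card P * blockDim b) := by
  classical
  have : Fintype G := Fintype.ofFinite G
  have : Fintype P := Fintype.ofFinite P
  have : Fintype (Abelianization G) := Fintype.ofFinite _
  have hcard' : 4 < Fintype.card P := by rwa [← Nat.card_eq_fintype_card]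
  obtain ⟨b, hb, ⟨Q, hQ, f, hf⟩, hdim, -⟩ := wreath_step (P := P) he hD.1
    (Abelianization.of : G →* Abelianization G) T hT
  have : Finite (kerW G P) := inferInstance
  have : Fintype (kerW G P) := Fintype.ofFinite _
  obtain ⟨D', hD'⟩ := exists_defect hQ
  obtain ⟨g, hg⟩ := defect_embeds hb hQ hD'
  refine ⟨kerW G P, inferInstance, inferInstance, kerW_topIs hcard' (hP.imp id (fun h => by
      rw [← Nat.card_eq_fintype_card]; exact h)), ?_, b, D', hb, hD', ?_, ?_, ?_⟩
  · rw [Subgroup.eq_bot_iff_forall]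
    intro z hz
    obtain ⟨z0, hz0, hzz⟩ := center_kerW_nt (by omega) hz
    rw [hG, Subgroup.mem_bot] at hz0
    apply Subtype.ext
    rw [hzz, hz0]
    rfl
  · have h1 : 𝒟 Q := hsub _ _ f hf h𝒟
    exact hsub _ _ g hg h1
  · calc Nat.card D' ≤ Nat.card Q := Nat.card_le_card_of_injective g hg
      _ ≤ Nat.card (LT D T) := Nat.card_le_card_of_injective f hf
      _ ≤ Nat.card D ^ Nat.card P * Nat.card T := card_LT_le D T
      _ ≤ _ := Nat.mul_le_mul_left _ (Subgroup.card_le_card_group T)
  · rw [Nat.card_eq_fintype_card, Nat.card_eq_fintype_card]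
    exact hdim

end

/-- Trivial groups. -/
theorem bound_trivial {k : Type} [Field k] {G : Type} [Group G] [Finite G] [Subsingleton G]
    {e : MonoidAlgebra k G} {D : Subgroup G} {α : ℝ} (hα : 0 ≤ α) :
    (blockDim e : ℝ) ≤ (Nat.card D : ℝ) ^ α := by
  have h1 : blockDim e ≤ 1 := by
    have : Fintype G := Fintype.ofFinite G
    refine (Submodule.finrank_le _).trans (finrank_le_one (1 : MonoidAlgebra k G) ?_)
    intro w
    refine ⟨w.coeff 1, ?_⟩
    have h3 := eq_sum_dl w
    rw [Fintype.sum_eq_single (1 : G) (fun a ha => absurd (Subsingleton.elim a 1) ha), dl_one]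
      at h3
    exact h3.symm
  have h2 : (1 : ℝ) ≤ (Nat.card D : ℝ) ^ α := by
    refine Real.one_le_rpow ?_ hα
    exact_mod_cast Nat.card_pos
  refine le_trans ?_ h2
  exact_mod_cast h1

/-- The auxiliary groups: order prime to `p` and divisible by `n`, large, and without nontrivial
homomorphisms to abelian groups of order `n`. -/
theorem exists_aux (p n M : ℕ) (hp : p.Prime) (hn : 0 < n) (hpn : ¬ p ∣ n) :
    ∃ (P : Type) (_ : Group P) (_ : Finite P), M ≤ Nat.card P ∧ n ∣ Nat.card P ∧
      ¬ p ∣ Nat.card P ∧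
      ∀ (Y : Type) [CommGroup Y], Nat.card Y = n → ∀ f : P →* Y, ∀ x, f x = 1 := by
  classical
  obtain ⟨l, hl, hlp⟩ := Nat.exists_infinite_primes (M + p + n + 5)
  have : NeZero n := ⟨hn.ne'⟩
  have : Fact l.Prime := ⟨hlp⟩
  let A := Multiplicative (ZMod n)
  let C := Multiplicative (ZMod l)
  have hA : Nat.card A = n := by rw [Nat.card_congr Multiplicative.toAdd, Nat.card_zmod]
  have hC : Nat.card C = l := by rw [Nat.card_congr Multiplicative.toAdd, Nat.card_zmod]
  have hC' : Fintype.card C = l := by rw [← Nat.card_eq_fintype_card, hC]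
  have hlA : l.Coprime n := (Nat.coprime_of_lt_prime hn.ne' (by omega) hlp)
  refine ⟨kerW A C, inferInstance, inferInstance, ?_, ?_, ?_, ?_⟩
  · calc M ≤ l := by omega
      _ = Nat.card C := hC.symm
      _ ≤ Nat.card (kerW A C) := Nat.card_le_card_of_injective
          (fun x : C => (⟨inl x, inl_mem x⟩ : kerW A C)) (by
            intro x y hxy
            have h1 := congrArg Subtype.val hxy
            exact congrArg RegularWreathProduct.right h1)
  · obtain ⟨j, hj⟩ : ∃ j : C, j ≠ 1 := by
      have : Nontrivial C := Fintype.one_lt_card_iff_nontrivial.1 (by rw [hC']; omega)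
      exact exists_ne 1
    let φ : A →* kerW A C :=
      { toFun := fun u => ⟨rho 1 j u, rho_mem _ _ _⟩
        map_one' := by
          apply Subtype.ext
          change rho 1 j 1 = 1
          rw [rho, dlt_one, dlt_one, inv_one, mul_one]
        map_mul' := by
          intro u v
          apply Subtype.ext
          change rho 1 j (u * v) = rho 1 j u * rho 1 j v
          ext i
          · simp only [mul_left, Pi.mul_apply, rho_right, inv_one, one_mul]
            by_cases hi : i = 1
            · subst hi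
              rw [rho_left_fst hj.symm, rho_left_fst hj.symm, rho_left_fst hj.symm]
            · by_cases hij : i = j
              · subst hij
                rw [rho_left_snd hj.symm, rho_left_snd hj.symm, rho_left_snd hj.symm,
                  mul_inv_rev, mul_comm]
              · rw [rho_left_ne hi hij, rho_left_ne hi hij, rho_left_ne hi hij, mul_one]
          · simp [rho_right] }
    have hφ : Function.Injective φ := by
      intro u v huv
      have h1 := congrFun (congrArg RegularWreathProduct.left (congrArg Subtype.val huv)) 1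
      change (rho 1 j u).left 1 = (rho 1 j v).left 1 at h1
      rwa [rho_left_fst hj.symm, rho_left_fst hj.symm] at h1
    have h2 := Subgroup.card_dvd_of_injective φ hφ
    rwa [hA] at h2
  · intro h
    have h1 : Nat.card (kerW A C) ∣ n ^ l * l := by
      have := Subgroup.card_subgroup_dvd_card (kerW A C)
      rwa [RegularWreathProduct.card, hA, hC] at this
    rcases (hp.dvd_mul).1 (h.trans h1) with h2 | h2
    · exact hpn (hp.dvd_of_dvd_pow h2)
    · rw [Nat.prime_dvd_prime_iff_eq hp hlp] at h2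
      omega
  · intro Y _ hY f x
    have hYn : ∀ y : Y, y ^ n = 1 := fun y => by rw [← hY]; exact pow_card_eq_one'
    have hcop : (Fintype.card C).Coprime (Nat.card (Abelianization A)) := by
      rw [hC']
      refine Nat.coprime_of_lt_prime Nat.card_pos.ne' ?_ hlp
      have h1 : Nat.card (Abelianization A) ≤ Nat.card A :=
        Nat.card_le_card_of_surjective Abelianization.of (QuotientGroup.mk'_surjective _)
      rw [hA] at h1
      omega
    have hinl : ∀ y : C, f ⟨inl y, inl_mem y⟩ = 1 := by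
      intro y
      let g : C →* Y := f.comp (MonoidHom.codRestrict inl (kerW A C) inl_mem)
      have h0 : y ^ l = 1 := by
        have := pow_card_eq_one (x := y)
        rwa [hC'] at this
      have h1 : (g y) ^ l = 1 := by
        rw [← map_pow, h0, map_one]
      have h2 : orderOf (g y) ∣ 1 := by
        rw [← hlA]
        exact Nat.dvd_gcd (orderOf_dvd_of_pow_eq_one h1) (orderOf_dvd_of_pow_eq_one (hYn _))
      exact orderOf_eq_one_iff.1 (Nat.dvd_one.1 h2)
    obtain ⟨w, hw⟩ := x
    have heq : w = ⟨w.left, 1⟩ * inl w.right := by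
      ext i <;> simp
    have hmem : (⟨w.left, 1⟩ : RegularWreathProduct A C) ∈ kerW A C := by
      have : (⟨w.left, 1⟩ : RegularWreathProduct A C) = w * (inl w.right)⁻¹ := by
        rw [eq_mul_inv_iff_mul_eq, ← heq]
      rw [this]
      exact mul_mem hw (inv_mem (inl_mem _))
    have h7 : (⟨w, hw⟩ : kerW A C) = ⟨⟨w.left, 1⟩, hmem⟩ * ⟨inl w.right, inl_mem _⟩ :=
      Subtype.ext heq
    rw [h7, map_mul, hinl, mul_one]
    exact kerW_hom_coprime hcop (by rw [hC']; omega) f _ rfl

/-- The final form. -/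
theorem form_full (p : ℕ) (hp : p.Prime) (k : Type) [Field k] [IsAlgClosed k] [CharP k p]
    (ι : Type) (S : ι → Type) [∀ i, Group (S i)] [∀ i, Finite (S i)]
    [∀ i, IsSimpleGroup (S i)] (hunb : ∀ n : ℕ, ∃ i, n ≤ Nat.card (S i))
    (𝒟 : ∀ (H : Type) [Group H], Prop) (h𝒟 : ClosedClass 𝒟)
    (hS : (∀ (H : Type) [Group H], 𝒟 H) ∨ ∀ i, ¬ p ∣ Nat.card (S i))
    (α : ℝ) (hα : 1 ≤ α) :
    WeakBound k (fun X _ => (∃ i, TopIs (S i) X) ∧ Subgroup.center X = ⊥) 𝒟 α ↔
      StrongBound k 𝒟 α := by
  classical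
  have : Fact p.Prime := ⟨hp⟩
  refine ⟨fun hweak => ?_, fun h => strong_weak k _ 𝒟 h⟩
  -- groups with trivial centre
  have hcl : ∀ (G : Type) [Group G] [Finite G], Subgroup.center G = ⊥ →
      ∀ e : MonoidAlgebra k G, IsBlock e → ∀ D : Subgroup G, IsDefect e D → 𝒟 D →
        (blockDim e : ℝ) ≤ (Nat.card D : ℝ) ^ α := by
    intro G _ _ hG e he D hD h𝒟D
    rcases subsingleton_or_nontrivial G with hsub | hnt
    · exact bound_trivial (by linarith)
    refine le_of_forall_eps Nat.card_pos fun ε hε => ?_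
    obtain ⟨C, hC⟩ := hweak ε hε
    refine block_bound (C := C) (by linarith) fun M => ?_
    obtain ⟨i, hi⟩ := hunb (M + 5 + Nat.card (Abelianization G))
    have hP : (∃ a b : S i, a * b ≠ b * a) ∨
        (Nat.card (S i)).Coprime (Nat.card (Abelianization G)) := by
      rcases nonabelian_or_prime (S i) with h | h
      · exact Or.inl h
      · exact Or.inr (Nat.coprime_of_lt_prime Nat.card_pos.ne' (by omega) h)
    obtain ⟨T, hT1, hT2⟩ := exists_T (k := k) 𝒟 h𝒟 hS i
    obtain ⟨X, _, _, hX1, hX2, b, D', hb, hD', h𝒟', hcard, hdim⟩ := core_D (P := S i) hP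
      (by omega) hG 𝒟 h𝒟.sub he hD T hT1 (hT2 G D h𝒟D)
    exact ⟨Nat.card (S i), by omega, blockDim b, Nat.card D', Nat.card_pos, hcard,
      hC X ⟨⟨i, hX1⟩, hX2⟩ b hb D' hD' h𝒟', hdim⟩
  -- groups whose centre has order prime to `p`
  refine remove_centre p 𝒟 h𝒟.sub h𝒟.quot hα ?_
  intro G _ _ hG e he D hD h𝒟D
  rcases subsingleton_or_nontrivial G with hsub | hnt
  · exact bound_trivial (by linarith)
  refine block_bound (C := 1) (by linarith) fun M => ?_
  have hnG : ¬ p ∣ Nat.card (Subgroup.center G) := by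
    intro hdvd
    obtain ⟨x, hx⟩ := exists_prime_orderOf_dvd_card' p hdvd
    have h1 : ((x : G)) ^ p = 1 := by
      have : x ^ p = 1 := by rw [← hx, pow_orderOf_eq_one]
      exact congrArg Subtype.val this
    have h2 := hG x x.2 h1
    have h3 : x = 1 := Subtype.ext h2
    rw [h3, orderOf_one] at hx
    exact hp.one_lt.ne hx
  obtain ⟨P, _, _, hPM, hPn, hPp, hPhom⟩ := exists_aux p (Nat.card (Subgroup.center G)) (M + 5) hp
    Nat.card_pos hnG
  have hT1 : ((Nat.card (P ⧸ (⊥ : Subgroup P)) : ℕ) : k) ≠ 0 := by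
    have : Nat.card (P ⧸ (⊥ : Subgroup P)) = Nat.card P := by
      rw [← Subgroup.index_eq_card, Subgroup.index_bot]
    rw [this, Ne, CharP.cast_eq_zero_iff k p]
    exact hPp
  have hhom : ∀ f : P →* Subgroup.center G, ∀ x, f x = 1 := by
    intro f x
    let _ : CommGroup (Subgroup.center G) :=
      { (inferInstance : Group (Subgroup.center G)) with
        mul_comm := fun a b => Subtype.ext (Subgroup.mem_center_iff.1 b.2 a) }
    exact hPhom (Subgroup.center G) rfl f x
  obtain ⟨X, _, _, hX, b, D', hb, hD', h𝒟', hcard, hdim⟩ := core_C p hhom (by omega) hG hPn 𝒟 h𝒟.sub h𝒟.quot he hD ⊥ hT1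
    (class_LT_bot 𝒟 h𝒟 D h𝒟D)
  refine ⟨Nat.card P, by omega, blockDim b, Nat.card D', Nat.card_pos, hcard, ?_, hdim⟩
  rw [one_mul]
  exact hcl X hX b hb D' hD' h𝒟'

end Pool.Agent.MP_a15589_al
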