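import Mathlib

/-!
# Counting words with trivial product
-/

set_option autoImplicit false

namespace Pool.Agent.MP_a15589_al

open Classical in
theorem count_ge {ι Γ P : Type*} [Fintype ι] [Fintype Γ] [Fintype P] [CommGroup Γ]
    (γ : ι → Γ) (j0 : ι) (hj0 : γ j0 = 1) :
    Fintype.card ι ^ Fintype.card P ≤ (Fintype.card Γ * Fintype.card ι) ^ Fintype.card Γ *
      (Finset.univ.filter (fun t : P → ι => ∏ i, γ (t i) = 1)).card := by
  set n := Fintype.card Γ with hn
  set d := Fintype.card ι with hd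
  set m := Fintype.card P with hm
  have hnpos : 0 < n := Fintype.card_pos
  have hdpos : 0 < d := Fintype.card_pos_iff.2 ⟨j0⟩
  set q := m / n with hq
  set r := m % n with hr
  have hmqr : m = n * q + r := (Nat.div_add_mod m n).symm
  have hrn : r ≤ n := (Nat.mod_lt m hnpos).le
  let A : Γ → Finset (Fin q → ι) := fun σ => Finset.univ.filter (fun s => ∏ i, γ (s i) = σ)
  obtain ⟨σ, hσ⟩ : ∃ σ, d ^ q ≤ n * (A σ).card := by
    by_contra hcon
    push Not at hcon
    have h1 : ∑ σ : Γ, (A σ).card = d ^ q := by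
      have := Finset.card_eq_sum_card_fiberwise (f := fun s : Fin q → ι => ∏ i, γ (s i))
        (s := Finset.univ) (t := Finset.univ) (fun _ _ => Finset.mem_coe.2 (Finset.mem_univ _))
      rw [Finset.card_univ, Fintype.card_fun, Fintype.card_fin] at this
      exact this.symm
    have h2 : ∑ σ : Γ, n * (A σ).card < ∑ _σ : Γ, d ^ q :=
      Finset.sum_lt_sum_of_nonempty Finset.univ_nonempty (fun σ _ => hcon σ)
    rw [← Finset.mul_sum, h1, Finset.sum_const, Finset.card_univ, smul_eq_mul] at h2
    exact lt_irrefl _ h2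
  have hcardP : Fintype.card P = Fintype.card ((Fin n × Fin q) ⊕ Fin r) := by
    simp [← hmqr, ← hm]
  let φ : P ≃ (Fin n × Fin q) ⊕ Fin r := Fintype.equivOfCardEq hcardP
  let F : (Fin n → A σ) → (P → ι) := fun f p =>
    Sum.elim (fun ab : Fin n × Fin q => (f ab.1 : Fin q → ι) ab.2) (fun _ => j0) (φ p)
  have hF : ∀ f, F f ∈ Finset.univ.filter (fun t : P → ι => ∏ i, γ (t i) = 1) := by
    intro f
    rw [Finset.mem_filter]
    refine ⟨Finset.mem_univ _, ?_⟩
    have h1 : ∏ p, γ (F f p) = ∏ z : (Fin n × Fin q) ⊕ Fin r,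
        γ (Sum.elim (fun ab : Fin n × Fin q => (f ab.1 : Fin q → ι) ab.2) (fun _ => j0) z) :=
      Equiv.prod_comp φ (fun z => γ (Sum.elim (fun ab : Fin n × Fin q =>
        (f ab.1 : Fin q → ι) ab.2) (fun _ => j0) z))
    rw [h1, Fintype.prod_sum_type, Fintype.prod_prod_type]
    simp only [Sum.elim_inl, Sum.elim_inr, hj0, Finset.prod_const_one, mul_one]
    have h2 : ∀ a : Fin n, ∏ b : Fin q, γ ((f a : Fin q → ι) b) = σ := fun a =>
      (Finset.mem_filter.1 (f a).2).2
    rw [Finset.prod_congr rfl (fun a _ => h2 a), Finset.prod_const, Finset.card_univ,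
      Fintype.card_fin, hn]
    exact pow_card_eq_one
  have hFinj : Function.Injective F := by
    intro f g hfg
    funext a
    apply Subtype.ext
    funext b
    have := congrFun hfg (φ.symm (Sum.inl (a, b)))
    simpa [F] using this
  have hcard : (A σ).card ^ n ≤
      (Finset.univ.filter (fun t : P → ι => ∏ i, γ (t i) = 1)).card := by
    have h1 : Fintype.card (Fin n → A σ) = (A σ).card ^ n := by
      rw [Fintype.card_fun, Fintype.card_fin, Fintype.card_coe]
    rw [← h1, ← Finset.card_univ]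
    exact Finset.card_le_card_of_injOn F (fun f _ => Finset.mem_coe.2 (hF f))
      (hFinj.injOn)
  calc d ^ m = (d ^ q) ^ n * d ^ r := by
        rw [hmqr, pow_add, ← pow_mul, mul_comm q n]
    _ ≤ (n * (A σ).card) ^ n * d ^ n :=
        Nat.mul_le_mul (Nat.pow_le_pow_left hσ n) (Nat.pow_le_pow_right hdpos hrn)
    _ = (n * d) ^ n * (A σ).card ^ n := by ring
    _ ≤ _ := Nat.mul_le_mul_left _ hcard

end Pool.Agent.MP_a15589_al
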