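import Mathlib

/-!
# Blocks of group algebras: definitions

The definitions follow the frozen statement of Brauer's k(B) conjecture word for word.
-/

set_option autoImplicit false

namespace Pool.Agent.MP_a15589_al

open MonoidAlgebra

/-- `e` is a block idempotent of `kG`: a primitive idempotent of the centre of `kG`. -/
structure IsBlock {k G : Type*} [Field k] [Group G] (e : MonoidAlgebra k G) : Prop where
  idem : IsIdempotentElem e
  central : ∀ x : MonoidAlgebra k G, x * e = e * x
  ne_zero : e ≠ 0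
  prim : ∀ f : MonoidAlgebra k G, IsIdempotentElem f →
    (∀ x : MonoidAlgebra k G, x * f = f * x) → f * e = 0 ∨ f * e = e

/-- `e ∈ Tr_D^G((kG)^D)`. -/
def IsTraceFrom {k G : Type*} [Field k] [Group G] (e : MonoidAlgebra k G) (D : Subgroup G) :
    Prop :=
  ∃ a : MonoidAlgebra k G,
    (∀ q ∈ D, MonoidAlgebra.of k G q * a = a * MonoidAlgebra.of k G q) ∧
    e = ∑ᶠ x : G ⧸ D, MonoidAlgebra.of k G (Quotient.out x) * a *
          MonoidAlgebra.of k G (Quotient.out x)⁻¹

/-- `D` is a subgroup of least order with `e ∈ Tr_D^G((kG)^D)`; for a block idempotent `e` this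
means that `D` has the order of a defect group. -/
def IsDefect {k G : Type*} [Field k] [Group G] (e : MonoidAlgebra k G) (D : Subgroup G) :
    Prop :=
  IsTraceFrom e D ∧ ∀ Q : Subgroup G, IsTraceFrom e Q → Nat.card D ≤ Nat.card Q

/-- `k(B) = dim Z(kG)e`. -/
noncomputable def blockDim {k G : Type*} [Field k] [Group G] (e : MonoidAlgebra k G) : ℕ :=
  Module.finrank k (Submodule.map (LinearMap.mulRight k e)
    (Subalgebra.toSubmodule (Subalgebra.center k (MonoidAlgebra k G))))

/-- `X` has a unique maximal normal subgroup `N` (which contains every proper normal subgroup),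
and `X / N` is isomorphic to `S`. -/
def TopIs (S X : Type*) [Group S] [Group X] : Prop :=
  ∃ (N : Subgroup X) (_ : N.Normal), N ≠ ⊤ ∧ (∀ M : Subgroup X, M.Normal → M ≠ ⊤ → M ≤ N) ∧
    Nonempty (X ⧸ N ≃* S)

/-- A class of groups closed under finite subgroups, quotients of finite groups and finite
powers of finite groups. -/
structure ClosedClass (𝒟 : ∀ (H : Type) [Group H], Prop) : Prop where
  sub : ∀ (H H' : Type) [Group H] [Group H'] [Finite H'] (f : H →* H'),
    Function.Injective f → 𝒟 H' → 𝒟 H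
  quot : ∀ (H H' : Type) [Group H] [Group H'] [Finite H] (f : H →* H'),
    Function.Surjective f → 𝒟 H → 𝒟 H'
  pow : ∀ (H : Type) [Group H] [Finite H] (n : ℕ), 𝒟 H → 𝒟 (Fin n → H)

/-- `k(B) ≤ |D|^α` for all blocks of finite groups with a defect group `D` in `𝒟`. -/
def StrongBound (k : Type) [Field k] (𝒟 : ∀ (H : Type) [Group H], Prop) (α : ℝ) : Prop :=
  ∀ (G : Type) [Group G] [Finite G] (e : MonoidAlgebra k G), IsBlock e →
    ∀ D : Subgroup G, IsDefect e D → 𝒟 D → (blockDim e : ℝ) ≤ (Nat.card D : ℝ) ^ α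

/-- For every `ε > 0` there is a constant `C` with `k(B) ≤ C |D|^(α + ε)` for all blocks of the
finite groups in `𝒳` with a defect group `D` in `𝒟`. -/
def WeakBound (k : Type) [Field k] (𝒳 𝒟 : ∀ (H : Type) [Group H], Prop) (α : ℝ) : Prop :=
  ∀ ε : ℝ, 0 < ε → ∃ C : ℝ, ∀ (X : Type) [Group X] [Finite X], 𝒳 X →
    ∀ e : MonoidAlgebra k X, IsBlock e → ∀ D : Subgroup X, IsDefect e D → 𝒟 D →
      (blockDim e : ℝ) ≤ C * (Nat.card D : ℝ) ^ (α + ε)

end Pool.Agent.MP_a15589_al
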