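import Pool.Agent.MP_a15589_al.Wreath
import Pool.Agent.MP_a15589_al.Count

/-!
# Dimension count and traces in the wreath product
-/

set_option autoImplicit false

namespace Pool.Agent.MP_a15589_al

open MonoidAlgebra Module RegularWreathProduct

section Pi

variable {G P Γ : Type*} [Group G] [Fintype G] [Group P] [Fintype P] [CommGroup Γ]

/-- The product of the images of the coordinates. -/
noncomputable def piHom (π : G →* Γ) : RegularWreathProduct G P →* Γ where
  toFun w := ∏ i, π (w.left i)
  map_one' := by simp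
  map_mul' v w := by
    simp only [mul_left, Pi.mul_apply, map_mul, Finset.prod_mul_distrib]
    congr 1
    exact Equiv.prod_comp (Equiv.mulLeft v.right⁻¹) (fun i => π (w.left i))

theorem piHom_apply (π : G →* Γ) (w : RegularWreathProduct G P) :
    piHom π w = ∏ i, π (w.left i) := rfl

end Pi

section Dual

variable {k G P : Type*} [Field k] [Group G] [Fintype G] [Group P] [Fintype P]

open Classical in
theorem exists_dual {V ι : Type*} [AddCommGroup V] [Module k V] {v : ι → V}
    (hv : LinearIndependent k v) : ∃ φ : ι → (V →ₗ[k] k), ∀ i j, φ i (v j) = if j = i then 1 else 0 := by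
  classical
  have h : ∀ i, ∃ g : V →ₗ[k] k,
      g ∘ₗ (Submodule.span k (Set.range v)).subtype = (Finsupp.lapply i).comp hv.repr :=
    fun i => LinearMap.exists_extend _
  choose φ hφ using h
  refine ⟨φ, fun i j => ?_⟩
  have h1 : φ i (v j) = ((φ i) ∘ₗ (Submodule.span k (Set.range v)).subtype)
      ⟨v j, Submodule.subset_span ⟨j, rfl⟩⟩ := rfl
  rw [h1, hφ]
  simp only [LinearMap.comp_apply]
  rw [hv.repr_eq_single j ⟨v j, _⟩ rfl]
  simp [Finsupp.single_apply]

open Classical in
/-- The functional which is a tensor product of functionals. -/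
noncomputable def tdual (φ : P → (MonoidAlgebra k G →ₗ[k] k)) :
    MonoidAlgebra k (RegularWreathProduct G P) →ₗ[k] k where
  toFun F := ∑ g : P → G, F.coeff ⟨g, 1⟩ * ∏ i, φ i (dl k (g i))
  map_add' x y := by simp [add_mul, Finset.sum_add_distrib]
  map_smul' c x := by simp [mul_assoc, Finset.mul_sum]

theorem tdual_pw (φ : P → (MonoidAlgebra k G →ₗ[k] k)) (a : P → MonoidAlgebra k G) :
    tdual φ (pw a) = ∏ i, φ i (a i) := by
  classical
  have h1 : tdual φ (pw a) = ∑ g : P → G, (pw a).coeff ⟨g, 1⟩ * ∏ i, φ i (dl k (g i)) := by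
    simp only [tdual]
    rfl
  rw [h1]
  have h2 : ∀ i, φ i (a i) = ∑ g : G, (a i).coeff g * φ i (dl k g) := by
    intro i
    conv_lhs => rw [eq_sum_dl (a i)]
    simp [map_sum]
  simp only [h2]
  rw [Finset.prod_univ_sum, Fintype.piFinset_univ]
  refine Finset.sum_congr rfl (fun g _ => ?_)
  rw [coeff_pw_of_eq _ rfl, ← Finset.prod_mul_distrib]

end Dual

section Dim

variable {k G P Γ ι : Type*} [Field k] [Group G] [Fintype G] [Group P] [Fintype P]
  [CommGroup Γ] [Fintype ι]

/-- The translate of a word. -/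
def trw (x : P) (t : P → ι) : P → ι := fun i => t (x⁻¹ * i)

theorem trw_trw (x y : P) (t : P → ι) : trw x (trw y t) = trw (x * y) t := by
  funext i
  simp [trw, mul_assoc]

open Classical in
/-- The orbit of a word under translation. -/
noncomputable def orb (t : P → ι) : Finset (P → ι) := Finset.univ.image (fun x : P => trw x t)

theorem mem_orb {t s : P → ι} : s ∈ orb t ↔ ∃ x, trw x t = s := by
  simp [orb]

theorem self_mem_orb (t : P → ι) : t ∈ orb t := mem_orb.2 ⟨1, by funext i; simp [trw]⟩

theorem orb_eq {t s : P → ι} (h : s ∈ orb t) : orb s = orb t := by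
  obtain ⟨x, rfl⟩ := mem_orb.1 h
  ext u
  rw [mem_orb, mem_orb]
  constructor
  · rintro ⟨y, rfl⟩
    exact ⟨y * x, (trw_trw y x t).symm⟩
  · rintro ⟨y, rfl⟩
    refine ⟨y * x⁻¹, ?_⟩
    rw [trw_trw, inv_mul_cancel_right]

theorem card_orb_le (t : P → ι) : (orb t).card ≤ Fintype.card P := by
  classical
  exact Finset.card_image_le

open Classical in
theorem dim_ge (π : G →* Γ) (e : MonoidAlgebra k G) (zz : ι → MonoidAlgebra k G) (γ : ι → Γ)
    (hcen : ∀ j g, cj g (zz j) = zz j) (hsupp : ∀ j, SuppIn {g | π g = γ j} (zz j))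
    (hli : LinearIndependent k (fun j => zz j * e)) :
    (Finset.univ.filter (fun t : P → ι => ∏ i, γ (t i) = 1)).card ≤ Fintype.card P *
      finrank k ((Subalgebra.toSubmodule (CZ k (baseGp G P ⊓ (piHom π).ker)
        (⊤ : Subgroup (RegularWreathProduct G P)))).map
          (LinearMap.mulRight k (pw (fun _ : P => e)))) := by
  set T := Finset.univ.filter (fun t : P → ι => ∏ i, γ (t i) = 1) with hT
  set V := ((Subalgebra.toSubmodule (CZ k (baseGp G P ⊓ (piHom π).ker)
        (⊤ : Subgroup (RegularWreathProduct G P)))).map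
          (LinearMap.mulRight k (pw (fun _ : P => e)))) with hV
  set 𝒪 := T.image (orb (P := P) (ι := ι)) with h𝒪
  have hTorb : ∀ t ∈ T, orb t ⊆ T := by
    intro t ht s hs
    obtain ⟨x, rfl⟩ := mem_orb.1 hs
    rw [hT, Finset.mem_filter] at ht ⊢
    refine ⟨Finset.mem_univ _, ?_⟩
    rw [← ht.2]
    exact Equiv.prod_comp (Equiv.mulLeft x⁻¹) (fun i => γ (t i))
  have hcard1 : T.card ≤ 𝒪.card * Fintype.card P := by
    have hsub : T ⊆ 𝒪.biUnion id := by
      intro t ht
      rw [Finset.mem_biUnion]
      exact ⟨orb t, Finset.mem_image_of_mem _ ht, self_mem_orb t⟩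
    refine (Finset.card_le_card hsub).trans ?_
    refine Finset.card_biUnion_le_card_mul _ _ _ ?_
    intro O hO
    obtain ⟨t, _, rfl⟩ := Finset.mem_image.1 hO
    exact card_orb_le t
  -- the vectors
  let u : (P → ι) → MonoidAlgebra k (RegularWreathProduct G P) := fun t => pw (fun i => zz (t i))
  let U : 𝒪 → MonoidAlgebra k (RegularWreathProduct G P) := fun O => ∑ t ∈ (O : Finset (P → ι)), u t
  have hUV : ∀ O : 𝒪, U O * pw (fun _ : P => e) ∈ V := by
    rintro ⟨O, hO⟩
    obtain ⟨t0, ht0, rfl⟩ := Finset.mem_image.1 hO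
    refine ⟨U ⟨_, hO⟩, ?_, rfl⟩
    change U ⟨_, hO⟩ ∈ CZ k (baseGp G P ⊓ (piHom π).ker) ⊤
    rw [mem_CZ']
    refine ⟨SuppIn.sum _ _ (fun t ht => ?_), fun w _ => ?_⟩
    · intro w hw
      by_cases hw1 : w.right = 1
      · rw [coeff_pw_of_eq _ hw1]
        have htT := hTorb t0 ht0 ht
        rw [hT, Finset.mem_filter] at htT
        by_contra hne
        apply hw
        refine ⟨hw1, ?_⟩
        change piHom π w = 1
        rw [piHom_apply, ← htT.2]
        refine Finset.prod_congr rfl (fun i _ => ?_)
        by_contra hne2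
        apply hne
        exact Finset.prod_eq_zero (Finset.mem_univ i) (hsupp (t i) _ hne2)
      · exact coeff_pw_of_ne _ hw1
    · change cj w (∑ t ∈ orb t0, u t) = ∑ t ∈ orb t0, u t
      rw [cj_sum]
      have h1 : ∀ t, cj w (u t) = u (trw w.right t) := by
        intro t
        simp only [u]
        rw [cj_pw]
        simp only [hcen]
        rfl
      simp only [h1]
      refine Finset.sum_bij (fun t _ => trw w.right t) ?_ ?_ ?_ ?_
      · intro t ht
        obtain ⟨x, rfl⟩ := mem_orb.1 ht
        exact mem_orb.2 ⟨w.right * x, (trw_trw _ _ _).symm⟩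
      · intro t _ s _ hts
        have := congrArg (trw w.right⁻¹) hts
        rw [trw_trw, trw_trw, inv_mul_cancel] at this
        have h2 : ∀ t : P → ι, trw (1 : P) t = t := fun t => by funext i; simp [trw]
        rwa [h2, h2] at this
      · intro t ht
        obtain ⟨x, rfl⟩ := mem_orb.1 ht
        exact ⟨trw (w.right⁻¹ * x) t0, mem_orb.2 ⟨_, rfl⟩, by rw [trw_trw, mul_inv_cancel_left]⟩
      · intro t _
        rfl
  obtain ⟨φ, hφ⟩ := exists_dual hli
  have hdual : ∀ t s : P → ι, tdual (fun i => φ (t i)) (u s * pw (fun _ : P => e)) =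
      if s = t then 1 else 0 := by
    intro t s
    simp only [u]
    rw [pw_mul, tdual_pw]
    simp only [hφ]
    by_cases hst : s = t
    · subst hst; simp
    · rw [if_neg hst]
      have : ∃ i, s i ≠ t i := by
        by_contra hcon
        push Not at hcon
        exact hst (funext hcon)
      obtain ⟨i, hi⟩ := this
      exact Finset.prod_eq_zero (Finset.mem_univ i) (if_neg hi)
  have hrep : ∀ O : 𝒪, ∃ t ∈ T, orb t = O := fun O => by
    obtain ⟨t, ht, h⟩ := Finset.mem_image.1 O.2
    exact ⟨t, ht, h⟩
  choose rep hrepT hrepO using hrep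
  have hLI : LinearIndependent k (fun O : 𝒪 => (⟨U O * pw (fun _ : P => e), hUV O⟩ : V)) := by
    rw [Fintype.linearIndependent_iff]
    intro c hc O
    have h1 := congrArg (fun v : V => tdual (fun i => φ (rep O i))
      (v : MonoidAlgebra k (RegularWreathProduct G P))) hc
    simp only [Submodule.coe_sum, Submodule.coe_smul, map_sum, map_smul, Submodule.coe_zero,
      map_zero] at h1
    have h2 : ∀ O' : 𝒪, tdual (fun i => φ (rep O i)) (U O' * pw (fun _ : P => e)) =
        if O' = O then 1 else 0 := by
      intro O'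
      simp only [U]
      rw [Finset.sum_mul, map_sum]
      simp only [hdual]
      rw [Finset.sum_ite_eq' (O' : Finset (P → ι)) (rep O) (fun _ => (1 : k))]
      by_cases hOO : O' = O
      · subst hOO
        rw [if_pos, if_pos rfl]
        rw [← hrepO O']
        exact self_mem_orb _
      · rw [if_neg, if_neg hOO]
        intro hmem
        apply hOO
        apply Subtype.ext
        rw [← hrepO O'] at hmem ⊢
        rw [← hrepO O, orb_eq hmem]
    simp only [h2, smul_eq_mul, mul_ite, mul_one, mul_zero] at h1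
    rw [Finset.sum_ite_eq' Finset.univ O c, if_pos (Finset.mem_univ O)] at h1
    exact h1
  have hcard2 : 𝒪.card ≤ finrank k V := by
    have := hLI.fintype_card_le_finrank
    rwa [Fintype.card_coe] at this
  calc T.card ≤ 𝒪.card * Fintype.card P := hcard1
    _ = Fintype.card P * 𝒪.card := mul_comm _ _
    _ ≤ _ := Nat.mul_le_mul_left _ hcard2

end Dim

end Pool.Agent.MP_a15589_al
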