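import Pool.Agent.MP_a15589_al.Step

/-!
# From a group to the kernel of a homomorphism to an abelian group
-/

set_option autoImplicit false

namespace Pool.Agent.MP_a15589_al

open MonoidAlgebra Module

section Transfer

variable {k X : Type*} [Field k] [Group X] [Fintype X] (K : Subgroup X)

/-- The inclusion of the group algebra of a subgroup. -/
noncomputable def inc : MonoidAlgebra k K →ₐ[k] MonoidAlgebra k X :=
  MonoidAlgebra.mapDomainAlgHom k k K.subtype

theorem inc_injective : Function.Injective (inc (k := k) K) :=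
  MonoidAlgebra.mapDomain_injective Subtype.val_injective

theorem inc_dl (g : K) : inc (k := k) K (dl k g) = dl k (g : X) := by
  simp [inc, dl]

theorem suppIn_inc (z : MonoidAlgebra k K) : SuppIn (K : Set X) (inc K z) := by
  intro g hg
  induction z using MonoidAlgebra.induction_linear with
  | zero => simp
  | add x y hx hy => rw [map_add, coeff_add, Finsupp.add_apply, hx, hy, add_zero]
  | single m r =>
    classical
    have : inc K (single m r) = single (m : X) r := by simp [inc]
    rw [this, coeff_single, Finsupp.single_apply, if_neg]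
    rintro rfl
    exact hg m.2

theorem exists_inc {z : MonoidAlgebra k X} (hz : SuppIn (K : Set X) z) :
    ∃ z' : MonoidAlgebra k K, inc K z' = z := by
  classical
  have : Fintype K := Fintype.ofFinite _
  refine ⟨∑ g : K, z.coeff (g : X) • dl k g, ?_⟩
  rw [map_sum]
  conv_rhs => rw [eq_sum_dl z]
  simp only [map_smul, inc_dl]
  rw [← Finset.sum_subset (Finset.subset_univ (Finset.univ.filter (fun g : X => g ∈ K)))]
  · exact (Finset.sum_subtype (Finset.univ.filter (fun g : X => g ∈ K)) (by simp)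
      (fun g => z.coeff g • dl k g)).symm
  · intro g _ hg
    have : g ∉ (K : Set X) := by simpa using hg
    rw [hz g this, zero_smul]

theorem inc_comm {b : MonoidAlgebra k K} (hb : ∀ m ∈ K, dl k m * inc K b = inc K b * dl k m)
    (x : MonoidAlgebra k K) : x * b = b * x := by
  apply inc_injective K
  rw [map_mul, map_mul]
  exact commute_of_supp (suppIn_inc K x) hb

end Transfer

variable {k X Γ : Type*} [Field k] [IsAlgClosed k] [Group X] [Fintype X] [CommGroup Γ]
  [Fintype Γ]

theorem idem_pow {A : Type*} [Ring A] {e : A} (he : e * e = e) (hne : e ≠ 0) :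
    ¬ IsNilpotent e := by
  rintro ⟨n, hn⟩
  have hpow : ∀ m : ℕ, e ^ (m + 1) = e := by
    intro m
    induction m with
    | zero => simp
    | succ m ih => rw [pow_succ, ih, he]
  cases n with
  | zero =>
    rw [pow_zero] at hn
    apply hne
    rw [← one_mul e, hn, zero_mul]
  | succ n => exact hne (by rw [← hpow n, hn])

theorem unipotent_trivial {A : Type*} [Ring A] [Algebra k A] {ν u : A} (hν : IsNilpotent ν)
    {n : ℕ} (hn : (n : k) ≠ 0) (h : (1 + ν) ^ n * u = u) : ν * u = 0 := by
  have h1 : (∑ i ∈ Finset.range n, (1 + ν) ^ i) * ν = (1 + ν) ^ n - 1 := by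
    have := geom_sum_mul (1 + ν) n
    rwa [add_sub_cancel_left] at this
  have hdiv : ∀ i : ℕ, ∃ t, Commute ν t ∧ (1 + ν) ^ i = 1 + ν * t := by
    intro i
    induction i with
    | zero => exact ⟨0, Commute.zero_right _, by simp⟩
    | succ i ih =>
      obtain ⟨t, ht, hti⟩ := ih
      refine ⟨t + 1 + ν * t, ?_, ?_⟩
      · exact (ht.add_right (Commute.one_right _)).add_right
          ((Commute.refl ν).mul_right ht)
      · rw [pow_succ, hti]
        have : t * ν = ν * t := ht.eq.symm
        calc (1 + ν * t) * (1 + ν) = 1 + ν + ν * t + ν * (t * ν) := by noncomm_ring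
          _ = 1 + ν * (t + 1 + ν * t) := by rw [this]; noncomm_ring
  choose t ht hti using hdiv
  have h2 : (∑ i ∈ Finset.range n, (1 + ν) ^ i) =
      ν * (∑ i ∈ Finset.range n, t i) + algebraMap k A (n : k) := by
    rw [Finset.mul_sum, map_natCast]
    simp only [hti]
    rw [Finset.sum_add_distrib]
    simp [add_comm]
  have hunit : IsUnit (∑ i ∈ Finset.range n, (1 + ν) ^ i) := by
    rw [h2]
    have hcs : Commute ν (∑ i ∈ Finset.range n, t i) :=
      Commute.sum_right _ _ _ (fun i _ => ht i)
    have hnil : IsNilpotent (ν * (∑ i ∈ Finset.range n, t i)) := hcs.isNilpotent_mul_right hν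
    have hu : IsUnit (algebraMap k A (n : k)) := (IsUnit.mk0 _ hn).map (algebraMap k A)
    exact hnil.isUnit_add_right_of_commute hu (Algebra.commutes _ _).symm
  have h3 : (∑ i ∈ Finset.range n, (1 + ν) ^ i) * (ν * u) = 0 := by
    rw [← mul_assoc, h1, sub_mul, h, one_mul, sub_self]
  exact (hunit.mul_right_eq_zero).1 h3

theorem dl_pow {Y : Type*} [Group Y] (z : Y) (n : ℕ) : dl k z ^ n = dl k (z ^ n) := by
  induction n with
  | zero => simp [dl_one]
  | succ n ih => rw [pow_succ, ih, ← dl_mul, pow_succ]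

theorem step_down (Pi : X →* Γ) (H : Subgroup X) [H.Normal] (L : Subgroup X)
    {E a : MonoidAlgebra k X} (hEE : E * E = E) (hE0 : E ≠ 0)
    (hEc : E ∈ CZ k H (⊤ : Subgroup X))
    (hprim : ∀ f ∈ CZ k (H ⊓ Pi.ker) (⊤ : Subgroup X), f * f = f → f * E = 0 ∨ f * E = E)
    (haH : SuppIn (H : Set X) a) (haL : ∀ l ∈ L, cj l a = a)
    (hEa : E = ∑ᶠ x : X ⧸ L, cj (Quotient.out x) a) :
    ∃ b : MonoidAlgebra k Pi.ker, IsBlock b ∧
      (∃ Q : Subgroup Pi.ker, IsTraceFrom b Q ∧ ∃ f : Q →* L, Function.Injective f) ∧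
      (finrank k ((Subalgebra.toSubmodule (CZ k (H ⊓ Pi.ker) (⊤ : Subgroup X))).map
        (LinearMap.mulRight k E)) ≤ blockDim b) ∧
      (∀ z : Pi.ker, (z : X) ∈ H → (z : X) ∈ Subgroup.center X →
        (∃ n : ℕ, (n : k) ≠ 0 ∧ z ^ n = 1) → dl k (z : X) * E = E → dl k z * b = b) := by
  classical
  set K := Pi.ker with hK
  set R := H ⊓ K with hR
  have hRK : R ≤ K := inf_le_right
  have hRn : R.Normal := by rw [hR]; infer_instance
  -- the idempotent `Es`
  obtain ⟨Es, hEs, -, hEsg⟩ := exists_isPrim (k := k) (S := CZ k R (⊤ : Subgroup X))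
    (CZ_comm (le_top : R ≤ ⊤)) (fun v => v * E ≠ 0)
    (fun v _ hv h0 => hv (by rw [h0, zero_mul]))
    (fun v _ w _ _ _ _ h => by
      by_contra hcon
      push Not at hcon
      exact h (by rw [add_mul, hcon.1, hcon.2, add_zero]))
    (u := 1) (one_mem _) (one_mul 1) (by rwa [one_mul])
  have hEsE : Es * E = E := (hprim Es hEs.mem hEs.idem).resolve_left hEsg
  -- the idempotent `r`
  have hEsRR : Es ∈ CZ k R R := CZ_mono (le_refl R) le_top hEs.mem
  obtain ⟨r, hr, hrE, -⟩ := exists_isPrim (k := k) (S := CZ k R R)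
    (CZ_comm (le_refl R)) (fun v => v ≠ 0) (fun v _ hv => hv)
    (fun v _ w _ _ _ _ h => by
      by_contra hcon
      push Not at hcon
      exact h (by rw [hcon.1, hcon.2, add_zero]))
    (u := Es) hEsRR hEs.idem hEs.ne
  -- the block `b`
  have hEsKK : Es ∈ CZ k K K := CZ_mono hRK le_top hEs.mem
  obtain ⟨b, hb, hbE, hbn⟩ := exists_isPrim (k := k) (S := CZ k K K)
    (CZ_comm (le_refl K)) (fun v => ¬ IsNilpotent (r * res (R : Set X) v))
    (fun v _ hv h0 => hv (by rw [h0, res_zero, mul_zero]; exact IsNilpotent.zero))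
    (fun v hv w hw _ _ _ h => by
      by_contra hcon
      push Not at hcon
      apply h
      rw [res_add, mul_add]
      refine Commute.isNilpotent_add ?_ hcon.1 hcon.2
      exact CZ_comm (le_refl R) _ (mul_mem hr.mem (res_mem_CZ hRK hv)) _
        (mul_mem hr.mem (res_mem_CZ hRK hw)))
    (u := Es) hEsKK hEs.idem (by
      rw [res_eq_self hEs.mem.1, hrE]
      exact idem_pow hr.idem hr.ne)
  -- dimension
  have hdim1 : finrank k ((Subalgebra.toSubmodule (CZ k R (⊤ : Subgroup X))).map
        (LinearMap.mulRight k E)) ≤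
      finrank k ((Subalgebra.toSubmodule (CZ k R (⊤ : Subgroup X))).map
        (LinearMap.mulRight k Es)) := by
    have : (Subalgebra.toSubmodule (CZ k R (⊤ : Subgroup X))).map (LinearMap.mulRight k E) =
        ((Subalgebra.toSubmodule (CZ k R (⊤ : Subgroup X))).map
          (LinearMap.mulRight k Es)).map (LinearMap.mulRight k E) := by
      rw [← Submodule.map_comp]
      congr 1
      refine LinearMap.ext (fun z => ?_)
      change z * E = z * Es * E
      rw [mul_assoc, hEsE]
    rw [this]
    exact Submodule.finrank_map_le _ _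
  have hdim2 : finrank k ((Subalgebra.toSubmodule (CZ k R (⊤ : Subgroup X))).map
        (LinearMap.mulRight k Es)) ≤
      finrank k ((Subalgebra.toSubmodule (CZ k K K)).map (LinearMap.mulRight k b)) := by
    let V2 := (Subalgebra.toSubmodule (CZ k R (⊤ : Subgroup X))).map (LinearMap.mulRight k Es)
    let V3 := (Subalgebra.toSubmodule (CZ k K K)).map (LinearMap.mulRight k b)
    have hV2 : ∀ z ∈ V2, z ∈ CZ k R (⊤ : Subgroup X) ∧ z * Es = z := by
      rintro _ ⟨z, hz, rfl⟩
      refine ⟨(mul_mem hz hEs.mem : z * Es ∈ CZ k R (⊤ : Subgroup X)), ?_⟩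
      change z * Es * Es = z * Es
      rw [mul_assoc, hEs.idem]
    let T : V2 →ₗ[k] V3 := LinearMap.codRestrict V3
      ((LinearMap.mulRight k b).comp V2.subtype) (fun z => by
        refine ⟨z, ?_, rfl⟩
        exact CZ_mono hRK le_top (hV2 z z.2).1)
    refine LinearMap.finrank_le_finrank_of_injective (f := T) ?_
    rw [← LinearMap.ker_eq_bot, LinearMap.ker_eq_bot']
    intro z hz
    have h1 : (z : MonoidAlgebra k X) * b = 0 := congrArg Subtype.val hz
    exact Subtype.ext (inj_step hRK hEs hr hrE hb.mem hbn (hV2 z z.2).1 (hV2 z z.2).2 h1)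
  -- traces
  obtain ⟨c, hcR, hcL, hEsc⟩ := trace_Es Pi H L hEE hE0 hEc haH haL hEa hEs hEsE
  obtain ⟨Q, hQ, d, hdK, hdQ, hbd⟩ := trace_down (K := K) L (hcR.mono hRK) hcL hEsc hb hbE
  -- transfer
  obtain ⟨b', hb'⟩ := exists_inc K hb.mem.1
  obtain ⟨d', hd'⟩ := exists_inc K hdK
  refine ⟨b', ⟨?_, ?_, ?_, ?_⟩, ⟨Q, ⟨d', ?_, ?_⟩, hQ⟩, ?_, ?_⟩
  · apply inc_injective K
    rw [map_mul, hb', hb.idem]
  · exact inc_comm K (by rw [hb']; exact hb.mem.2)
  · rintro rfl
    rw [map_zero] at hb'
    exact hb.ne hb'.symm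
  · intro f hf hfc
    have h1 : inc K f ∈ CZ k K K := by
      refine ⟨suppIn_inc K f, fun m hm => ?_⟩
      have := congrArg (inc K) (hfc (dl k ⟨m, hm⟩))
      rwa [map_mul, map_mul, inc_dl] at this
    rcases hb.prim _ h1 (by rw [← map_mul, hf]) with h | h
    · left
      apply inc_injective K
      rw [map_mul, hb', h, map_zero]
    · right
      apply inc_injective K
      rw [map_mul, hb', h]
  · intro q hq
    apply inc_injective K
    rw [map_mul, map_mul, of_eq_dl, inc_dl, hd']
    exact (cj_eq_iff _ _).1 (hdQ q hq)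
  · apply inc_injective K
    rw [hb', hbd]
    have : Fintype (K ⧸ Q) := Fintype.ofFinite _
    rw [finsum_eq_sum_of_fintype, finsum_eq_sum_of_fintype, map_sum]
    refine Finset.sum_congr rfl (fun x _ => ?_)
    rw [map_mul, map_mul, of_eq_dl, of_eq_dl, inc_dl, inc_dl, hd']
    rfl
  · refine hdim1.trans (hdim2.trans ?_)
    have : (Subalgebra.toSubmodule (CZ k K K)).map (LinearMap.mulRight k b) ≤
        (Submodule.map (LinearMap.mulRight k b') (Subalgebra.toSubmodule
          (Subalgebra.center k (MonoidAlgebra k K)))).map (inc K).toLinearMap := by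
      rintro _ ⟨z, hz, rfl⟩
      have hz' : z ∈ CZ k K K := hz
      obtain ⟨z', hzz'⟩ := exists_inc K hz'.1
      refine ⟨z' * b', ⟨z', ?_, rfl⟩, ?_⟩
      · change z' ∈ Subalgebra.center k (MonoidAlgebra k K)
        rw [Subalgebra.mem_center_iff]
        exact inc_comm K (by rw [hzz']; exact hz'.2)
      · simp [hzz', hb']
    exact (Submodule.finrank_mono this).trans (Submodule.finrank_map_le _ _)
  · rintro z hzH hzc ⟨n, hn, hzn⟩ hzE
    have hzR : dl k (z : X) ∈ CZ k R (⊤ : Subgroup X) := by
      refine ⟨?_, fun m _ => ?_⟩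
      · intro g hg
        rw [dl, coeff_single, Finsupp.single_apply, if_neg]
        rintro rfl
        exact hg ⟨hzH, z.2⟩
      · rw [← dl_mul, ← dl_mul]
        congr 1
        exact Subgroup.mem_center_iff.1 hzc m
    obtain ⟨c, hc⟩ := hEs.loc (CZ_comm (le_top : R ≤ ⊤)) hzR
    have hEsT : Es ∈ CZ k H (⊤ : Subgroup X) := CZ_mono inf_le_left (le_refl _) hEs.mem
    have hzT : dl k (z : X) ∈ CZ k H (⊤ : Subgroup X) := CZ_mono inf_le_left (le_refl _) hzR
    have hcommH := CZ_comm (k := k) (le_top : H ≤ ⊤)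
    have hmemν : (dl k (z : X) - algebraMap k _ c) * Es ∈ CZ k H (⊤ : Subgroup X) :=
      mul_mem (sub_mem hzT (Subalgebra.algebraMap_mem _ c)) hEsT
    have h1 : IsNilpotent (((dl k (z : X) - algebraMap k _ c) * Es) * E) := by
      refine Commute.isNilpotent_mul_right ?_ hc
      exact hcommH _ hmemν _ hEc
    have h2 : ((dl k (z : X) - algebraMap k _ c) * Es) * E = (1 - c) • E := by
      rw [mul_assoc, hEsE, sub_mul, hzE, ← Algebra.smul_def, sub_smul, one_smul]
    have hc1 : c = 1 := by
      by_contra hne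
      have hne' : (1 - c) ≠ 0 := fun h => hne (by linear_combination -h)
      rw [h2] at h1
      obtain ⟨j, hj⟩ := h1
      rw [smul_pow] at hj
      have : E ^ j = 0 := (smul_eq_zero.1 hj).resolve_left (pow_ne_zero j hne')
      exact idem_pow hEE hE0 ⟨j, this⟩
    subst hc1
    rw [map_one] at hc
    set ν := (dl k (z : X) - 1) * Es with hνdef
    have hcomm' : Commute (dl k (z : X)) Es := hcommH _ hzT _ hEsT
    have hνEs : ν * Es = ν := by rw [hνdef, mul_assoc, hEs.idem]
    have h3 : ∀ j : ℕ, (1 + ν) ^ j * Es = dl k (z : X) ^ j * Es := by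
      intro j
      induction j with
      | zero => simp
      | succ j ih =>
        have h4 : (1 + ν) * Es = dl k (z : X) * Es := by
          rw [add_mul, one_mul, hνEs, hνdef, sub_mul, one_mul]; abel
        have h5 : Es * dl k (z : X) = dl k (z : X) * Es := hcomm'.eq.symm
        calc (1 + ν) ^ (j + 1) * Es = (1 + ν) ^ j * ((1 + ν) * Es) := by
              rw [pow_succ, mul_assoc]
          _ = (1 + ν) ^ j * (Es * dl k (z : X)) := by rw [h4, h5]
          _ = ((1 + ν) ^ j * Es) * dl k (z : X) := by rw [mul_assoc]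
          _ = dl k (z : X) ^ j * (Es * dl k (z : X)) := by rw [ih, mul_assoc]
          _ = dl k (z : X) ^ (j + 1) * Es := by rw [h5, pow_succ, mul_assoc]
    have h6 : (1 + ν) ^ n * Es = Es := by
      rw [h3, dl_pow]
      have : ((z : X)) ^ n = 1 := congrArg Subtype.val hzn
      rw [this, dl_one, one_mul]
    have h7 := unipotent_trivial (k := k) hc hn h6
    rw [hνEs] at h7
    have h8 : dl k (z : X) * Es = Es := by
      rw [hνdef, sub_mul, one_mul, sub_eq_zero] at h7
      exact h7
    apply inc_injective K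
    rw [map_mul, inc_dl, hb']
    have h9 : b * Es = Es * b := CZ_comm (le_refl K) _ hb.mem _ hEsKK
    calc dl k (z : X) * b = dl k (z : X) * (Es * b) := by rw [← h9, hbE]
      _ = (dl k (z : X) * Es) * b := by rw [mul_assoc]
      _ = b := by rw [h8, ← h9, hbE]

end Pool.Agent.MP_a15589_al
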