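import Pool.Agent.MP_a15589_al.Defs

/-!
# Families of finite simple groups

Sanity checks: the families of simple groups in the hypotheses of the main theorems exist.
-/

set_option autoImplicit false

namespace Pool.Agent.MP_a15589_al

open Matrix MatrixGroups

/-- The alternating groups of degree at least `5`: simple, nonabelian, and every positive number
divides the order of one of them. -/
theorem alternating_family :
    (∀ m : ℕ, IsSimpleGroup (alternatingGroup (Fin (m + 5)))) ∧
    (∀ m : ℕ, ∃ a b : alternatingGroup (Fin (m + 5)), a * b ≠ b * a) ∧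
    (∀ n : ℕ, 0 < n → ∃ m : ℕ, n ∣ Nat.card (alternatingGroup (Fin (m + 5)))) := by
  have hsimple : ∀ m : ℕ, IsSimpleGroup (alternatingGroup (Fin (m + 5))) := fun m =>
    alternatingGroup.isSimpleGroup (by simp)
  refine ⟨hsimple, fun m => ?_, fun n hn => ?_⟩
  · by_contra hcon
    push Not at hcon
    have h1 : Subgroup.center (alternatingGroup (Fin (m + 5))) = ⊥ :=
      alternatingGroup.center_eq_bot (by simp)
    have h2 : Subgroup.center (alternatingGroup (Fin (m + 5))) = ⊤ := by
      rw [eq_top_iff]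
      intro x _
      rw [Subgroup.mem_center_iff]
      intro g
      exact hcon g x
    have h3 : Nontrivial (alternatingGroup (Fin (m + 5))) := (hsimple m).toNontrivial
    rw [h2] at h1
    exact top_ne_bot h1
  · refine ⟨2 * n, ?_⟩
    have h1 : 2 * Nat.card (alternatingGroup (Fin (2 * n + 5))) = (2 * n + 5).factorial := by
      rw [two_mul_nat_card_alternatingGroup, Nat.card_perm]
      simp
    have h2 : 2 * n ∣ (2 * n + 5).factorial := Nat.dvd_factorial (by omega) (by omega)
    rw [← h1] at h2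
    exact Nat.dvd_of_mul_dvd_mul_left (by norm_num) h2

/-- The order of `SL_2` over a prime field. -/
theorem card_SL2 (r : ℕ) [Fact r.Prime] :
    Nat.card SL(2, ZMod r) * (r - 1) = (r ^ 2 - 1) * (r ^ 2 - r) := by
  have h1 := Matrix.card_GL_field (𝔽 := ZMod r) 2
  rw [Fin.prod_univ_two, ZMod.card] at h1
  simp only [Fin.val_zero, pow_zero, Fin.val_one, pow_one] at h1
  rw [← h1]
  have hu : Nat.card (ZMod r)ˣ = r - 1 := by
    rw [Nat.card_eq_fintype_card, ZMod.card_units_eq_totient, Nat.totient_prime Fact.out]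
  have h2 : Nat.card (GL (Fin 2) (ZMod r)) =
      Nat.card (GL (Fin 2) (ZMod r) ⧸ (GeneralLinearGroup.det :
        GL (Fin 2) (ZMod r) →* (ZMod r)ˣ).ker) * Nat.card (GeneralLinearGroup.det :
        GL (Fin 2) (ZMod r) →* (ZMod r)ˣ).ker := Subgroup.card_eq_card_quotient_mul_card_subgroup _
  have h3 : Nat.card (GL (Fin 2) (ZMod r) ⧸ (GeneralLinearGroup.det :
        GL (Fin 2) (ZMod r) →* (ZMod r)ˣ).ker) = Nat.card (ZMod r)ˣ :=
    Nat.card_congr (QuotientGroup.quotientKerEquivOfSurjective _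
      GeneralLinearGroup.det_surjective).toEquiv
  have h4 : Nat.card (GeneralLinearGroup.det : GL (Fin 2) (ZMod r) →* (ZMod r)ˣ).ker =
      Nat.card SL(2, ZMod r) := by
    have h5 : (GeneralLinearGroup.det : GL (Fin 2) (ZMod r) →* (ZMod r)ˣ).ker =
        (SpecialLinearGroup.toGL : SL(2, ZMod r) →* GL (Fin 2) (ZMod r)).range := by
      ext x
      rw [MonoidHom.mem_ker, MonoidHom.mem_range]
      constructor
      · intro hx
        have hx' : (x : Matrix (Fin 2) (Fin 2) (ZMod r)).det = 1 := by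
          have := congrArg Units.val hx
          simpa using this
        exact ⟨⟨x, hx'⟩, Units.ext rfl⟩
      · rintro ⟨y, rfl⟩
        exact Units.ext (by simp)
    rw [h5]
    exact (Nat.card_congr (MonoidHom.ofInjective SpecialLinearGroup.toGL_injective).toEquiv).symm
  rw [h2, h3, h4, hu, mul_comm]

/-- The order of `PSL_2` over a prime field. -/
theorem card_PSL2 (r : ℕ) [Fact r.Prime] :
    ∃ c : ℕ, (c = 1 ∨ c = 2) ∧ Nat.card PSL(2, ZMod r) * c = r * (r ^ 2 - 1) := by
  have hr : r.Prime := Fact.out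
  have h1 : Nat.card SL(2, ZMod r) = Nat.card PSL(2, ZMod r) *
      Nat.card (Subgroup.center SL(2, ZMod r)) :=
    Subgroup.card_eq_card_quotient_mul_card_subgroup _
  refine ⟨Nat.card (Subgroup.center SL(2, ZMod r)), ?_, ?_⟩
  · have h2 : Nat.card (Subgroup.center SL(2, ZMod r)) = Nat.card (rootsOfUnity 2 (ZMod r)) := by
      refine Nat.card_congr ?_
      have := SpecialLinearGroup.center_equiv_rootsOfUnity (n := Fin 2) (R := ZMod r)
      exact this.toEquiv
    have h3 : Nat.card (rootsOfUnity 2 (ZMod r)) ≤ 2 := card_rootsOfUnity (ZMod r) 2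
    have h4 : 0 < Nat.card (Subgroup.center SL(2, ZMod r)) := Nat.card_pos
    omega
  · have h5 := card_SL2 r
    rw [← h1]
    have h6 : 0 < r - 1 := by have := hr.two_le; omega
    apply Nat.eq_of_mul_eq_mul_right h6
    rw [h5]
    have h7 : r ^ 2 - r = r * (r - 1) := by
      rw [pow_two, Nat.mul_sub, mul_one]
    rw [h7]
    ring

/-- For `p ≥ 5` the simple groups `PSL_2(r)`, `r ≥ 5` prime, of order prime to `p`: simple,
nonabelian, and every number prime to `p` divides the order of one of them. -/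
theorem psl_family (p : ℕ) (hp : p.Prime) (hp5 : 5 ≤ p) :
    (∀ r : {r : ℕ // r.Prime ∧ 5 ≤ r ∧ ¬ p ∣ Nat.card PSL(2, ZMod r)},
      IsSimpleGroup PSL(2, ZMod (r : ℕ))) ∧
    (∀ r : {r : ℕ // r.Prime ∧ 5 ≤ r ∧ ¬ p ∣ Nat.card PSL(2, ZMod r)},
      ∃ a b : PSL(2, ZMod (r : ℕ)), a * b ≠ b * a) ∧
    (∀ n : ℕ, ¬ p ∣ n → ∃ r : {r : ℕ // r.Prime ∧ 5 ≤ r ∧ ¬ p ∣ Nat.card PSL(2, ZMod r)},
      n ∣ Nat.card PSL(2, ZMod (r : ℕ))) := by
  refine ⟨fun r => ?_, fun r => ?_, fun n hn => ?_⟩
  · have : Fact (r : ℕ).Prime := ⟨r.2.1⟩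
    refine ProjectiveSpecialLinearGroup.rank_two_simple ?_
    rw [Nat.card_zmod]
    have := r.2.2.1
    omega
  · have : Fact (r : ℕ).Prime := ⟨r.2.1⟩
    have hs : IsSimpleGroup PSL(2, ZMod (r : ℕ)) := by
      refine ProjectiveSpecialLinearGroup.rank_two_simple ?_
      rw [Nat.card_zmod]
      have := r.2.2.1
      omega
    by_contra hcon
    push Not at hcon
    have hcomm : commutator PSL(2, ZMod (r : ℕ)) = ⊤ := by
      refine SL2Simple.PSL_commutator_eq_top ?_
      refine ⟨2, ?_, ?_⟩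
      · intro h
        have h1 : ((2 : ℕ) : ZMod (r : ℕ)) = 0 := by exact_mod_cast h
        rw [ZMod.natCast_eq_zero_iff] at h1
        have := Nat.le_of_dvd (by norm_num) h1
        have := r.2.2.1
        omega
      · intro h
        have h1 : ((3 : ℕ) : ZMod (r : ℕ)) = 0 := by
          have h2 : ((3 : ℕ) : ZMod (r : ℕ)) = 2 ^ 2 - 1 := by norm_num
          rw [h2, h, sub_self]
        rw [ZMod.natCast_eq_zero_iff] at h1
        have := Nat.le_of_dvd (by norm_num) h1
        have := r.2.2.1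
        omega
    have hbot : commutator PSL(2, ZMod (r : ℕ)) = ⊥ := by
      rw [commutator_def, eq_bot_iff, Subgroup.commutator_le]
      intro a _ b _
      rw [Subgroup.mem_bot, commutatorElement_eq_one_iff_mul_comm]
      exact hcon a b
    rw [hbot] at hcomm
    have : Nontrivial PSL(2, ZMod (r : ℕ)) := hs.toNontrivial
    exact bot_ne_top hcomm
  · have hn0 : n ≠ 0 := by rintro rfl; exact hn (dvd_zero p)
    have hcop : (2 * n).Coprime p := by
      rw [Nat.coprime_comm, hp.coprime_iff_not_dvd, hp.dvd_mul]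
      push Not
      refine ⟨fun h => ?_, hn⟩
      have := Nat.le_of_dvd (by norm_num) h
      omega
    obtain ⟨a, ha1, ha2⟩ := Nat.chineseRemainder hcop 1 2
    have hacop : a.Coprime (2 * n * p) := by
      refine Nat.Coprime.mul_right ?_ ?_
      · have := ha1.gcd_eq
        rw [Nat.gcd_one_left] at this
        exact this
      · have h1 := ha2.gcd_eq
        rw [Nat.Coprime, h1, Nat.gcd_comm]
        have : Nat.Coprime p 2 := by
          rw [hp.coprime_iff_not_dvd]
          intro h
          have := Nat.le_of_dvd (by norm_num) h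
          omega
        exact this
    obtain ⟨r, hr5, hr, hra⟩ := Nat.forall_exists_prime_gt_and_modEq 5 (q := 2 * n * p)
      (by have := hp.pos; positivity) hacop
    have : Fact r.Prime := ⟨hr⟩
    have hr1 : r ≡ 1 [MOD 2 * n] := (hra.of_dvd (Dvd.intro _ rfl)).trans ha1
    have hr2 : r ≡ 2 [MOD p] := (hra.of_dvd (Dvd.intro_left _ rfl)).trans ha2
    obtain ⟨c, hc, hcard⟩ := card_PSL2 r
    have hsq : 1 ≤ r ^ 2 := Nat.one_le_pow _ _ hr.pos
    have hpn : ¬ p ∣ Nat.card PSL(2, ZMod r) := by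
      intro h
      have h1 : p ∣ r * (r ^ 2 - 1) := by rw [← hcard]; exact Dvd.dvd.mul_right h c
      rcases (hp.dvd_mul).1 h1 with h2 | h2
      · have h3 := (Nat.modEq_zero_iff_dvd.2 h2).symm.trans hr2
        have h4 : p ∣ 2 := (Nat.modEq_zero_iff_dvd.1 h3.symm)
        have := Nat.le_of_dvd (by norm_num) h4
        omega
      · have h3 : r ^ 2 ≡ 1 [MOD p] := ((Nat.modEq_iff_dvd' hsq).2 h2).symm
        have h4 : 2 ^ 2 ≡ 1 [MOD p] := (hr2.pow 2).symm.trans h3
        have h5 : p ∣ 2 ^ 2 - 1 := (Nat.modEq_iff_dvd' (by norm_num)).1 h4.symm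
        have := Nat.le_of_dvd (by norm_num) h5
        norm_num at this
        omega
    refine ⟨⟨r, hr, by omega, hpn⟩, ?_⟩
    change n ∣ Nat.card PSL(2, ZMod r)
    have h6 : 2 * n ∣ r ^ 2 - 1 := by
      have : r ^ 2 ≡ 1 [MOD 2 * n] := by simpa using hr1.pow 2
      exact (Nat.modEq_iff_dvd' hsq).1 this.symm
    have h7 : 2 * n ∣ Nat.card PSL(2, ZMod r) * c := by
      rw [hcard]; exact Dvd.dvd.mul_left h6 r
    rcases hc with rfl | rfl
    · rw [mul_one] at h7
      exact (Dvd.intro_left _ rfl).trans h7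
    · rw [mul_comm 2 n] at h7
      exact Nat.dvd_of_mul_dvd_mul_right (by norm_num) h7

end Pool.Agent.MP_a15589_al
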