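import Pool.Agent.MP_a15589_al.Core

/-!
# Assembly
-/

set_option autoImplicit false

namespace Pool.Agent.MP_a15589_al

open RegularWreathProduct

/-- The subgroup of the wreath product given by `D` over the trivial subgroup is a subgroup of a
power of `D`. -/
theorem class_LT_bot {G P : Type} [Group G] [Finite G] [Group P] [Finite P]
    (𝒟 : ∀ (H : Type) [Group H], Prop) (h𝒟 : ClosedClass 𝒟) (D : Subgroup G) (hD : 𝒟 D) :
    𝒟 (LT D (⊥ : Subgroup P)) := by
  classical
  have : Fintype G := Fintype.ofFinite G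
  have : Fintype P := Fintype.ofFinite P
  have h1 : 𝒟 (Fin (Nat.card P) → D) := h𝒟.pow D (Nat.card P) hD
  let σ : Fin (Nat.card P) ≃ P := (Finite.equivFin P).symm
  have hright : ∀ w : LT D (⊥ : Subgroup P), (w : RegularWreathProduct G P).right = 1 := by
    intro w
    exact Subgroup.mem_bot.1 (mem_LT.1 w.2).2
  let f : LT D (⊥ : Subgroup P) →* (Fin (Nat.card P) → D) :=
    { toFun := fun w i => ⟨(w : RegularWreathProduct G P).left (σ i), (mem_LT.1 w.2).1 _⟩
      map_one' := by
        funext i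
        apply Subtype.ext
        simp
      map_mul' := by
        intro v w
        funext i
        apply Subtype.ext
        simp [hright v] }
  refine h𝒟.sub _ _ f ?_ h1
  intro v w hvw
  apply Subtype.ext
  ext i
  · have h2 := congrFun hvw (σ.symm i)
    have h3 := congrArg Subtype.val h2
    simpa [f] using h3
  · rw [hright v, hright w]

/-- The amplification for a single block. -/
theorem block_bound {k : Type} [Field k] {G : Type} [Group G] [Finite G]
    {e : MonoidAlgebra k G} {D : Subgroup G} {β : ℝ} (hβ : 0 ≤ β) {C : ℝ}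
    (h : ∀ M : ℕ, ∃ m : ℕ, M ≤ m ∧ ∃ d n : ℕ, 0 < n ∧ n ≤ Nat.card D ^ m * m ∧
      (d : ℝ) ≤ C * (n : ℝ) ^ β ∧
      blockDim e ^ m ≤ (Nat.card (Abelianization G) * blockDim e) ^
          Nat.card (Abelianization G) * (m * d)) :
    (blockDim e : ℝ) ≤ (Nat.card D : ℝ) ^ β := by
  refine amplify (n := Nat.card D) Nat.card_pos (K := (((Nat.card (Abelianization G) *
    blockDim e) ^ Nat.card (Abelianization G) : ℕ) : ℝ)) (C := |C|) (by positivity) ?_
  intro M
  obtain ⟨m, hM, d, n, hn, hnD, hd, hdim⟩ := h M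
  refine ⟨m, hM, ?_⟩
  have h1 : (blockDim e : ℝ) ^ m ≤ (((Nat.card (Abelianization G) * blockDim e) ^
      Nat.card (Abelianization G) : ℕ) : ℝ) * (m * d) := by
    exact_mod_cast hdim
  refine h1.trans (mul_le_mul_of_nonneg_left ?_ (by positivity))
  refine mul_le_mul_of_nonneg_left ?_ (by positivity)
  calc (d : ℝ) ≤ C * (n : ℝ) ^ β := hd
    _ ≤ |C| * (n : ℝ) ^ β := mul_le_mul_of_nonneg_right (le_abs_self C) (by positivity)
    _ ≤ |C| * ((Nat.card D : ℝ) ^ m * m) ^ β := by
      refine mul_le_mul_of_nonneg_left ?_ (abs_nonneg C)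
      refine Real.rpow_le_rpow (by positivity) ?_ hβ
      exact_mod_cast hnD

/-- The subgroup `T` used for the defect groups. -/
theorem exists_T {p : ℕ} {k : Type} [Field k] [CharP k p]
    {ι : Type} {S : ι → Type} [∀ i, Group (S i)] [∀ i, Finite (S i)]
    (𝒟 : ∀ (H : Type) [Group H], Prop) (h𝒟 : ClosedClass 𝒟)
    (hS : (∀ (H : Type) [Group H], 𝒟 H) ∨ ∀ i, ¬ p ∣ Nat.card (S i)) (i : ι) :
    ∃ T : Subgroup (S i), ((Nat.card (S i ⧸ T) : ℕ) : k) ≠ 0 ∧
      ∀ (G : Type) [Group G] [Finite G] (D : Subgroup G), 𝒟 D → 𝒟 (LT D T) := by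
  rcases hS with hS | hS
  · refine ⟨⊤, ?_, fun G _ _ D _ => hS _⟩
    have : Nat.card (S i ⧸ (⊤ : Subgroup (S i))) = 1 := by
      rw [← Subgroup.index_eq_card, Subgroup.index_top]
    rw [this]
    simp
  · refine ⟨⊥, ?_, fun G _ _ D hD => class_LT_bot 𝒟 h𝒟 D hD⟩
    have : Nat.card (S i ⧸ (⊥ : Subgroup (S i))) = Nat.card (S i) := by
      rw [← Subgroup.index_eq_card, Subgroup.index_bot]
    rw [this, Ne, CharP.cast_eq_zero_iff k p]
    exact hS i

/-- A finite simple group is nonabelian or of prime order. -/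
theorem nonabelian_or_prime (P : Type) [Group P] [Finite P] [IsSimpleGroup P] :
    (∃ a b : P, a * b ≠ b * a) ∨ (Nat.card P).Prime := by
  classical
  by_cases h : ∃ a b : P, a * b ≠ b * a
  · exact Or.inl h
  · push Not at h
    right
    letI : CommGroup P := { (inferInstance : Group P) with mul_comm := h }
    exact IsSimpleGroup.prime_card

end Pool.Agent.MP_a15589_al
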