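import Pool.Agent.KBZ.MainZ

/-!
# Brauer's inequality for the blocks with a major subsection `(u, b)`, `l(b) ≤ p + 1`

Let `B` be a `p`-block of defect `d` of a finite group `G` and let `(u, b)` be a major subsection
of `B`: `u` is an element of `p`-power order, `b` is a block of the centralizer of `u` which induces
`B` in the sense of Brauer (`b^G = B`), and `b` has the same defect as `B`. Then
`k(B) ≤ p^d * max (1, l(b) / (p + 1))`. In particular Brauer's inequality `k(B) ≤ p^d` holds for
every block which has at least one major subsection with `l(b) ≤ p + 1`. The choice `u = 1` is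
allowed: then `b` is `B` itself (the centralizer of `1` is the whole group); this special case is
stated first, with `l(B)`.

Blocks are classes of irreducible complex characters whose central characters are congruent modulo
a maximal ideal of the ring of algebraic integers over `p`; the defect `d` is the least number such
that the `p`-part of `|G|` divides `p^d χ(1)` for all characters of the block; `l(b)` is the
dimension of the space of the restrictions of the characters of the block to the `p`-regular
elements.
-/

set_option autoImplicit false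

namespace Pool.Agent.Results.MP_a15589_al.MajorSubsection

open Pool.Agent.KB Pool.Agent.KBZ

/-- The main result: `B = block 𝔪 χ` is the block of the irreducible character `χ`. -/
theorem result (G : Type) [Group G] [Finite G] (p : ℕ) (hp : p.Prime) (𝔪 : Ideal AInt)
    (h𝔪 : 𝔪.IsMaximal) (hp𝔪 : (p : AInt) ∈ 𝔪) (χ : G → ℂ) (hχ : χ ∈ Irr G) :
    (block 𝔪 χ).Finite ∧
    -- the special case `u = 1`
    (p + 1) * (block 𝔪 χ).ncard ≤
      p ^ defect p (block 𝔪 χ) * max (p + 1) (ell p (block 𝔪 χ)) ∧
    -- the general case: all major subsections `(u, b)`, `b = block 𝔪 ζ`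
    ∀ (u : G) (n : ℕ), orderOf u = p ^ n →
      ∀ ζ ∈ Irr (Subgroup.centralizer {u}),
        Induces 𝔪 (Subgroup.centralizer {u}) ζ χ →
        defect p (block 𝔪 ζ) = defect p (block 𝔪 χ) →
        (p + 1) * (block 𝔪 χ).ncard ≤
          p ^ defect p (block 𝔪 χ) * max (p + 1) (ell p (block 𝔪 ζ)) ∧
        (ell p (block 𝔪 ζ) ≤ p + 1 → (block 𝔪 χ).ncard ≤ p ^ defect p (block 𝔪 χ)) := by
  obtain ⟨h1, h2, -⟩ := Pool.Agent.KBL.Fin_main p hp 𝔪 h𝔪 hp𝔪 χ hχ
  refine ⟨h1, h2, ?_⟩
  intro u n hu ζ hζ hind hmaj
  exact (MainZ_main p hp 𝔪 h𝔪 hp𝔪 χ hχ u n hu ζ hζ hind hmaj).2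

end Pool.Agent.Results.MP_a15589_al.MajorSubsection
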