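import Pool.Agent.MP_a15589_al.Core3

/-!
# Brauer's k(B) conjecture: reduction to centreless groups with one maximal normal subgroup

Let `S` be any family of finite simple groups (abelian or not) of unbounded order.  We prove that
Brauer's inequality `k(B) ≤ |D|` (and more generally `k(B) ≤ |D|^α` with `α ≥ 1`) for all blocks
of all finite groups is equivalent to the asymptotic inequality `k(B) ≤ C(ε) |D|^(α + ε)` for the
blocks of the finite groups with trivial centre which have a unique maximal normal subgroup, with
quotient isomorphic to a member of `S`.  If the orders of the members of `S` are prime to `p`, the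
same holds for the blocks with defect groups in any class of groups which is closed under
subgroups, quotients and finite powers, such as the class of abelian groups.

The special cases in which `S` consists of the alternating groups, of groups `PSL_2(r)`, or of
cyclic groups are in `Pool/Agent/MP_a15589_al/Sanity.lean`.
-/

set_option autoImplicit false

namespace Pool.Agent.Results.MP_a15589_al.PrescribedTop

open Pool.Agent.MP_a15589_al

/-- The main result. -/
theorem result (p : ℕ) (hp : p.Prime) (k : Type) [Field k] [IsAlgClosed k] [CharP k p]
    (ι : Type) (S : ι → Type) [∀ i, Group (S i)] [∀ i, Finite (S i)]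
    [∀ i, IsSimpleGroup (S i)] (hunb : ∀ n : ℕ, ∃ i, n ≤ Nat.card (S i))
    (𝒟 : ∀ (H : Type) [Group H], Prop) (h𝒟 : ClosedClass 𝒟)
    (hS : (∀ (H : Type) [Group H], 𝒟 H) ∨ ∀ i, ¬ p ∣ Nat.card (S i))
    (α : ℝ) (hα : 1 ≤ α) :
    WeakBound k (fun X _ => (∃ i, TopIs (S i) X) ∧ Subgroup.center X = ⊥) 𝒟 α ↔
      StrongBound k 𝒟 α :=
  form_full p hp k ι S hunb 𝒟 h𝒟 hS α hα

end Pool.Agent.Results.MP_a15589_al.PrescribedTop
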