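import Pool.Agent.MP_a15589_al.Ros

/-!
# Quotients by central subgroups
-/

set_option autoImplicit false

namespace Pool.Agent.MP_a15589_al

open MonoidAlgebra Module

variable {k X : Type*} [Field k] [Group X] [Fintype X]

/-- The projection of group algebras. -/
noncomputable def prj (k : Type*) {X : Type*} [Field k] [Group X] (Z : Subgroup X) [Z.Normal] :
    MonoidAlgebra k X →ₐ[k] MonoidAlgebra k (X ⧸ Z) :=
  MonoidAlgebra.mapDomainAlgHom k k (QuotientGroup.mk' Z)

section

variable (Z : Subgroup X) [Z.Normal]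

theorem prj_dl (g : X) : prj k Z (dl k g) = dl k (g : X ⧸ Z) := by
  simp [prj, dl]

theorem prj_cj (g : X) (z : MonoidAlgebra k X) :
    prj k Z (cj g z) = cj (g : X ⧸ Z) (prj k Z z) := by
  rw [cj, map_mul, map_mul, prj_dl, prj_dl]
  rfl

open Classical in
theorem coeff_prj (z : MonoidAlgebra k X) (q : X ⧸ Z) :
    (prj k Z z).coeff q = ∑ g ∈ Finset.univ.filter (fun g : X => (g : X ⧸ Z) = q), z.coeff g := by
  conv_lhs => rw [eq_sum_dl z]
  rw [map_sum, coeff_sum, Finset.sum_apply', Finset.sum_filter]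
  refine Finset.sum_congr rfl (fun g _ => ?_)
  rw [map_smul, prj_dl, coeff_smul, Finsupp.smul_apply, dl, coeff_single, Finsupp.single_apply]
  split_ifs <;> simp

theorem prj_surjective : Function.Surjective (prj k Z) := by
  classical
  have : Fintype (X ⧸ Z) := Fintype.ofFinite _
  intro y
  refine ⟨∑ q : X ⧸ Z, y.coeff q • dl k (Quotient.out q), ?_⟩
  rw [map_sum]
  conv_rhs => rw [eq_sum_dl y]
  refine Finset.sum_congr rfl (fun q _ => ?_)
  rw [map_smul, prj_dl, QuotientGroup.out_eq']

/-- Traces and quotients by central subgroups. -/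
theorem trace_prj (hZ : Z ≤ Subgroup.center X) {b : MonoidAlgebra k X} {Q : Subgroup X}
    (hQ : IsTraceFrom b Q) : IsTraceFrom (prj k Z b) (Q.map (QuotientGroup.mk' Z)) ∧
      (prj k Z b ≠ 0 → ∀ z ∈ Z, z ^ ringChar k = 1 → z ≠ 1 → (ringChar k).Prime → z ∈ Q) := by
  classical
  obtain ⟨a, ha, hba⟩ := hQ
  have haQ : ∀ q ∈ Q, cj q a = a := fun q hq => (cj_eq_iff q a).2 (ha q hq)
  have : Fintype (X ⧸ Z) := Fintype.ofFinite _
  have : Fintype (X ⧸ Q) := Fintype.ofFinite _
  set Q' := Q.map (QuotientGroup.mk' Z) with hQ'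
  have : Fintype ((X ⧸ Z) ⧸ Q') := Fintype.ofFinite _
  have hba' : b = ∑ x : X ⧸ Q, cj (Quotient.out x) a := by
    rw [hba, finsum_eq_sum_of_fintype]; rfl
  set a' := prj k Z a with ha'
  have haQ' : ∀ q ∈ Q', cj q a' = a' := by
    rintro _ ⟨q, hq, rfl⟩
    change cj (q : X ⧸ Z) a' = a'
    rw [ha', ← prj_cj, haQ q hq]
  -- the map on cosets
  let m : X ⧸ Q → (X ⧸ Z) ⧸ Q' := fun x => (((Quotient.out x : X) : X ⧸ Z) : (X ⧸ Z) ⧸ Q')
  have hm : ∀ g : X, m (g : X ⧸ Q) = ((g : X ⧸ Z) : (X ⧸ Z) ⧸ Q') := by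
    intro g
    simp only [m]
    rw [QuotientGroup.eq]
    have h1 : (Quotient.out (g : X ⧸ Q))⁻¹ * g ∈ Q := by
      rw [← QuotientGroup.eq, QuotientGroup.out_eq']
    exact ⟨_, h1, rfl⟩
  have hval : ∀ x : X ⧸ Q, cj ((Quotient.out x : X) : X ⧸ Z) a' = cj (Quotient.out (m x)) a' := by
    intro x
    have h1 : ((Quotient.out (m x) : X ⧸ Z) : (X ⧸ Z) ⧸ Q') =
        (((Quotient.out x : X) : X ⧸ Z) : (X ⧸ Z) ⧸ Q') := QuotientGroup.out_eq' _
    rw [QuotientGroup.eq] at h1
    have h2 := haQ' _ h1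
    calc cj ((Quotient.out x : X) : X ⧸ Z) a' = cj (Quotient.out (m x) *
          ((Quotient.out (m x))⁻¹ * ((Quotient.out x : X) : X ⧸ Z))) a' := by
            rw [mul_inv_cancel_left]
      _ = cj (Quotient.out (m x)) a' := by rw [← cj_cj, h2]
  let Fb : (X ⧸ Z) ⧸ Q' → Finset (X ⧸ Q) := fun y => Finset.univ.filter (fun x => m x = y)
  have hFcard : ∀ y, (Fb y).card = (Fb ((1 : X ⧸ Z) : (X ⧸ Z) ⧸ Q')).card := by
    intro y
    obtain ⟨y1, rfl⟩ := QuotientGroup.mk_surjective y
    obtain ⟨g, rfl⟩ := QuotientGroup.mk_surjective y1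
    symm
    refine Finset.card_bij (fun x _ => g • x) ?_ ?_ ?_
    · intro x hx
      rw [Finset.mem_filter] at hx ⊢
      refine ⟨Finset.mem_univ _, ?_⟩
      obtain ⟨u, rfl⟩ := QuotientGroup.mk_surjective x
      have h1 := hx.2
      rw [hm, QuotientGroup.eq, mul_one] at h1
      change m ((g * u : X) : X ⧸ Q) = _
      rw [hm, QuotientGroup.eq]
      have h2 : ((g * u : X) : X ⧸ Z)⁻¹ * (g : X ⧸ Z) = ((u : X ⧸ Z))⁻¹ := by
        rw [QuotientGroup.mk_mul]; group
      rw [h2]; exact h1
    · intro x _ y _ hxy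
      exact MulAction.injective g hxy
    · intro x hx
      rw [Finset.mem_filter] at hx
      refine ⟨g⁻¹ • x, ?_, by simp⟩
      rw [Finset.mem_filter]
      refine ⟨Finset.mem_univ _, ?_⟩
      obtain ⟨u, rfl⟩ := QuotientGroup.mk_surjective x
      have h1 := hx.2
      rw [hm, QuotientGroup.eq] at h1
      change m ((g⁻¹ * u : X) : X ⧸ Q) = _
      rw [hm, QuotientGroup.eq, mul_one]
      have h2 : (((g⁻¹ * u : X)) : X ⧸ Z)⁻¹ = (u : X ⧸ Z)⁻¹ * (g : X ⧸ Z) := by
        rw [QuotientGroup.mk_mul, QuotientGroup.mk_inv]; group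
      rw [h2]; exact h1
  set N := (Fb ((1 : X ⧸ Z) : (X ⧸ Z) ⧸ Q')).card with hN
  have hsum : prj k Z b = ∑ y : (X ⧸ Z) ⧸ Q', cj (Quotient.out y) ((N : k) • a') := by
    rw [hba', map_sum]
    simp only [prj_cj]
    rw [← ha']
    simp only [hval]
    rw [← Finset.sum_fiberwise (s := Finset.univ) (g := m)]
    refine Finset.sum_congr rfl (fun y _ => ?_)
    rw [Finset.sum_congr rfl (fun x hx => by rw [(Finset.mem_filter.1 hx).2]),
      Finset.sum_const, cj_smul]
    have : (Finset.univ.filter (fun x => m x = y)).card = N := hFcard y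
    rw [this, Nat.cast_smul_eq_nsmul]
  refine ⟨⟨(N : k) • a', ?_, ?_⟩, ?_⟩
  · intro q hq
    refine (cj_eq_iff q _).1 ?_
    rw [cj_smul, haQ' q hq]
  · rw [finsum_eq_sum_of_fintype]
    exact hsum
  · intro hne z hz hzp hz1 hprime
    by_contra hzQ
    apply hne
    -- `N` is divisible by `p`
    have hcen : ∀ g : X, z * g = g * z := fun g => (Subgroup.mem_center_iff.1 (hZ hz) g).symm
    have hdvd : ringChar k ∣ N := by
      -- the cyclic group generated by `z` acts freely on the fibre
      let C : Subgroup X := Subgroup.zpowers z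
      have hord : orderOf z = ringChar k := by
        have : Fact (ringChar k).Prime := ⟨hprime⟩
        exact orderOf_eq_prime hzp hz1
      have hCQ : C ⊓ Q = ⊥ := by
        rw [Subgroup.eq_bot_iff_forall]
        rintro x ⟨hx1, hx2⟩
        by_contra hx
        obtain ⟨j, rfl⟩ := Subgroup.mem_zpowers_iff.1 hx1
        have : Fact (ringChar k).Prime := ⟨hprime⟩
        have hcop : IsCoprime (j : ℤ) (ringChar k : ℤ) := by
          rw [isCoprime_comm, Prime.coprime_iff_not_dvd (Nat.prime_iff_prime_int.1 hprime)]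
          intro hd
          apply hx
          obtain ⟨t, rfl⟩ := hd
          rw [zpow_mul, zpow_natCast, hzp, one_zpow]
        obtain ⟨s, t, hst⟩ := hcop
        apply hzQ
        have h1 : z = (z ^ j) ^ s := by
          rw [← zpow_mul]
          calc z = z ^ (s * j + t * (ringChar k : ℤ)) := by rw [hst, zpow_one]
            _ = z ^ (j * s) := by
              rw [zpow_add, mul_comm t, zpow_mul z (ringChar k : ℤ) t, zpow_natCast, hzp,
                one_zpow, mul_one, mul_comm]
        rw [h1]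
        exact Q.zpow_mem hx2 s
      -- action
      have hfib : ∀ c ∈ C, ∀ x ∈ Fb ((1 : X ⧸ Z) : (X ⧸ Z) ⧸ Q'),
          c • x ∈ Fb ((1 : X ⧸ Z) : (X ⧸ Z) ⧸ Q') := by
        intro c hc x hx
        rw [Finset.mem_filter] at hx ⊢
        refine ⟨Finset.mem_univ _, ?_⟩
        obtain ⟨u, rfl⟩ := QuotientGroup.mk_surjective x
        have h1 := hx.2
        change m ((c * u : X) : X ⧸ Q) = _
        rw [hm] at h1 ⊢
        have hcZ : c ∈ Z := (Subgroup.zpowers_le.2 hz) hc
        have : ((c * u : X) : X ⧸ Z) = (u : X ⧸ Z) := by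
          rw [QuotientGroup.mk_mul, (QuotientGroup.eq_one_iff c).2 hcZ, one_mul]
        rw [this, h1]
      -- count by orbits
      let Y := {x : X ⧸ Q // x ∈ Fb ((1 : X ⧸ Z) : (X ⧸ Z) ⧸ Q')}
      let act : MulAction C Y :=
        { smul := fun c x => ⟨(c : X) • x.1, hfib c c.2 x.1 x.2⟩
          one_smul := fun x => Subtype.ext (one_smul X x.1)
          mul_smul := fun c d x => Subtype.ext (mul_smul (c : X) (d : X) x.1) }
      have hfree : ∀ (c : C) (x : Y), c • x = x → c = 1 := by
        intro c x hcx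
        have h1 : (c : X) • x.1 = x.1 := congrArg Subtype.val hcx
        obtain ⟨u, hu⟩ := QuotientGroup.mk_surjective x.1
        rw [← hu] at h1
        have h2 : ((c * u : X) : X ⧸ Q) = (u : X ⧸ Q) := h1
        rw [eq_comm, QuotientGroup.eq] at h2
        have hcc : u⁻¹ * ((c : X) * u) = c := by
          have hcenc : (c : X) * u = u * c := by
            have : (c : X) ∈ Subgroup.center X := hZ ((Subgroup.zpowers_le.2 hz) c.2)
            exact (Subgroup.mem_center_iff.1 this u).symm
          rw [hcenc, inv_mul_cancel_left]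
        rw [hcc] at h2
        have : (c : X) ∈ C ⊓ Q := ⟨c.2, h2⟩
        rw [hCQ, Subgroup.mem_bot] at this
        exact Subtype.ext this
      have hCcard : Nat.card C = ringChar k := by rw [Nat.card_zpowers, hord]
      have hYcard : Nat.card Y = N := by
        rw [Nat.card_eq_fintype_card, Fintype.card_coe]
      have hstab : ∀ x : Y, MulAction.stabilizer C x = ⊥ := by
        intro x
        rw [Subgroup.eq_bot_iff_forall]
        intro c hc
        exact hfree c x hc
      have e1 := MulAction.selfEquivSigmaOrbitsQuotientStabilizer C Y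
      have : Fintype (Quotient (MulAction.orbitRel C Y)) := Fintype.ofFinite _
      have h3 : Nat.card Y = ∑ ω : Quotient (MulAction.orbitRel C Y),
          Nat.card (C ⧸ MulAction.stabilizer C ω.out) := by
        rw [Nat.card_congr e1, Nat.card_sigma]
      rw [← hYcard, h3]
      refine Finset.dvd_sum (fun ω _ => ?_)
      rw [hstab, ← hCcard]
      have : Nat.card (C ⧸ (⊥ : Subgroup C)) = Nat.card C := by
        rw [← Subgroup.index_eq_card, Subgroup.index_bot]
      rw [this]
    have hN0 : (N : k) = 0 := by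
      rw [← ringChar.spec] at hdvd
      exact hdvd
    rw [hsum]
    refine Finset.sum_eq_zero (fun y _ => ?_)
    rw [hN0, zero_smul, cj_zero]

end

end Pool.Agent.MP_a15589_al
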