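import Pool.Agent.MP_a15589_al.Quot

/-!
# Blocks of quotients by central subgroups
-/

set_option autoImplicit false

namespace Pool.Agent.MP_a15589_al

open MonoidAlgebra Module

variable {k X : Type*} [Field k] [Group X] [Fintype X]

section General

variable (Z : Subgroup X) [Z.Normal]

theorem prj_central {b : MonoidAlgebra k X} (hb : ∀ x : MonoidAlgebra k X, x * b = b * x)
    (x : MonoidAlgebra k (X ⧸ Z)) : x * prj k Z b = prj k Z b * x := by
  obtain ⟨y, rfl⟩ := prj_surjective Z x
  rw [← map_mul, ← map_mul, hb]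

theorem isBlock_of {b : MonoidAlgebra k X} (hb : IsBlock b) (hne : prj k Z b ≠ 0)
    (hlift : ∀ f : MonoidAlgebra k (X ⧸ Z), IsIdempotentElem f →
      (∀ x : MonoidAlgebra k (X ⧸ Z), x * f = f * x) → ∃ f' : MonoidAlgebra k X,
        IsIdempotentElem f' ∧ (∀ x : MonoidAlgebra k X, x * f' = f' * x) ∧
          prj k Z f' * prj k Z b = f * prj k Z b) : IsBlock (prj k Z b) := by
  refine ⟨?_, prj_central Z hb.central, hne, ?_⟩
  · change prj k Z b * prj k Z b = prj k Z b
    rw [← map_mul, hb.idem.eq]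
  · intro f hf hfc
    obtain ⟨f', h1, h2, h3⟩ := hlift f hf hfc
    rw [← h3, ← map_mul]
    rcases hb.prim f' h1 h2 with h | h
    · left; rw [h, map_zero]
    · right; rw [h]

end General

section Coprime

variable (Z : Subgroup X) [Z.Normal]

open Classical in
theorem prj_inj_of_invariant (hZk : ((Nat.card Z : ℕ) : k) ≠ 0) {y : MonoidAlgebra k X}
    (hy : ∀ z ∈ Z, dl k z * y = y) (h0 : prj k Z y = 0) : y = 0 := by
  ext g
  have h1 : (prj k Z y).coeff (g : X ⧸ Z) = 0 := by rw [h0]; rfl
  rw [coeff_prj] at h1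
  have h2 : ∀ h ∈ Finset.univ.filter (fun h : X => (h : X ⧸ Z) = (g : X ⧸ Z)),
      y.coeff h = y.coeff g := by
    intro h hh
    rw [Finset.mem_filter] at hh
    have h3 : h * g⁻¹ ∈ Z := by
      have h4 := (QuotientGroup.eq.1 hh.2.symm)
      have h5 := Subgroup.Normal.conj_mem (inferInstance : Z.Normal) _ h4 g
      simpa [mul_assoc] using h5
    have h6 := hy _ h3
    calc y.coeff h = (dl k (h * g⁻¹) * y).coeff h := by rw [h6]
      _ = y.coeff g := by rw [coeff_dl_mul]; congr 1; group
  rw [Finset.sum_congr rfl h2, Finset.sum_const] at h1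
  have hcard : (Finset.univ.filter (fun h : X => (h : X ⧸ Z) = (g : X ⧸ Z))).card =
      Nat.card Z := by
    rw [Nat.card_eq_fintype_card, ← Finset.card_univ (α := Z)]
    symm
    refine Finset.card_bij (fun z _ => (g * z : X)) ?_ ?_ ?_
    · intro z _
      rw [Finset.mem_filter]
      refine ⟨Finset.mem_univ _, ?_⟩
      rw [QuotientGroup.mk_mul, (QuotientGroup.eq_one_iff (z : X)).2 z.2, mul_one]
    · intro z _ w _ hzw
      exact Subtype.ext (mul_left_cancel hzw)
    · intro h hh
      rw [Finset.mem_filter] at hh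
      exact ⟨⟨g⁻¹ * h, QuotientGroup.eq.1 hh.2.symm⟩, Finset.mem_univ _, by simp⟩
  rw [hcard, ← Nat.cast_smul_eq_nsmul k, smul_eq_mul] at h1
  exact (mul_eq_zero.1 h1).resolve_left hZk

open Classical in
theorem exists_invariant_lift (hZk : ((Nat.card Z : ℕ) : k) ≠ 0)
    (y : MonoidAlgebra k (X ⧸ Z)) :
    ∃ x : MonoidAlgebra k X, prj k Z x = y ∧ ∀ z ∈ Z, dl k z * x = x := by
  obtain ⟨x0, hx0⟩ := prj_surjective Z y
  refine ⟨((Nat.card Z : ℕ) : k)⁻¹ • ∑ z : Z, dl k (z : X) * x0, ?_, ?_⟩
  · rw [map_smul, map_sum]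
    have h1 : ∀ z : Z, prj k Z (dl k (z : X) * x0) = y := by
      intro z
      rw [map_mul, prj_dl, (QuotientGroup.eq_one_iff (z : X)).2 z.2, dl_one, one_mul, hx0]
    rw [Finset.sum_congr rfl (fun z _ => h1 z), Finset.sum_const, Finset.card_univ,
      ← Nat.card_eq_fintype_card, ← Nat.cast_smul_eq_nsmul k, smul_smul, inv_mul_cancel₀ hZk,
      one_smul]
  · intro w hw
    rw [mul_smul_comm, Finset.mul_sum]
    congr 1
    rw [← Equiv.sum_comp (Equiv.mulLeft (⟨w, hw⟩ : Z)) (fun z : Z => dl k (z : X) * x0)]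
    refine Finset.sum_congr rfl (fun z _ => ?_)
    rw [← mul_assoc, ← dl_mul]
    rfl

theorem block_quot_coprime (hZ : Z ≤ Subgroup.center X)
    (hZk : ((Nat.card Z : ℕ) : k) ≠ 0) {b : MonoidAlgebra k X} (hb : IsBlock b)
    (hZb : ∀ z ∈ Z, dl k z * b = b) :
    IsBlock (prj k Z b) ∧ blockDim b ≤ blockDim (prj k Z b) := by
  classical
  have hZcen : ∀ z ∈ Z, ∀ x : MonoidAlgebra k X, dl k z * x = x * dl k z := by
    intro z hz x
    refine (commute_of_supp (N := Set.univ) (fun _ h => absurd (Set.mem_univ _) h)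
      (fun n _ => ?_)).symm
    rw [← dl_mul, ← dl_mul]
    congr 1
    exact Subgroup.mem_center_iff.1 (hZ hz) n
  constructor
  · refine isBlock_of Z hb ?_ ?_
    · intro h0
      exact hb.ne_zero (prj_inj_of_invariant Z hZk hZb h0)
    · intro f hf hfc
      obtain ⟨x, hx1, hx2⟩ := exists_invariant_lift Z hZk f
      have hxx : x * x = x := by
        have : x * x - x = 0 := by
          apply prj_inj_of_invariant Z hZk
          · intro z hz
            rw [mul_sub, ← mul_assoc, hx2 z hz]
          · rw [map_sub, map_mul, hx1, hf.eq, sub_self]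
        exact sub_eq_zero.1 this
      refine ⟨x, hxx, ?_, by rw [hx1]⟩
      have hcj : ∀ g : X, cj g x = x := by
        intro g
        have : cj g x - x = 0 := by
          apply prj_inj_of_invariant Z hZk
          · intro z hz
            rw [mul_sub, hx2 z hz, cj, ← mul_assoc, ← mul_assoc, hZcen z hz (dl k g),
              mul_assoc (dl k g), hx2 z hz]
          · rw [map_sub, prj_cj, hx1, (cj_eq_iff _ f).2 (hfc _).symm.symm, sub_self]
        exact sub_eq_zero.1 this
      intro y
      exact commute_of_supp (N := Set.univ) (fun _ h => absurd (Set.mem_univ _) h)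
        (fun n _ => (cj_eq_iff n x).1 (hcj n))
  · let V := Submodule.map (LinearMap.mulRight k b)
      (Subalgebra.toSubmodule (Subalgebra.center k (MonoidAlgebra k X)))
    let V' := Submodule.map (LinearMap.mulRight k (prj k Z b))
      (Subalgebra.toSubmodule (Subalgebra.center k (MonoidAlgebra k (X ⧸ Z))))
    have hV : ∀ y ∈ V, prj k Z y ∈ V' := by
      rintro _ ⟨z, hz, rfl⟩
      refine ⟨prj k Z z, ?_, ?_⟩
      · change prj k Z z ∈ Subalgebra.center k _
        rw [Subalgebra.mem_center_iff]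
        have hz' : z ∈ Subalgebra.center k (MonoidAlgebra k X) := hz
        rw [Subalgebra.mem_center_iff] at hz'
        exact prj_central Z hz'
      · change prj k Z z * prj k Z b = prj k Z (z * b)
        rw [map_mul]
    have : Finite (X ⧸ Z) := inferInstance
    let T : V →ₗ[k] V' := LinearMap.codRestrict V'
      ((prj k Z).toLinearMap.comp V.subtype) (fun y => hV y y.2)
    refine LinearMap.finrank_le_finrank_of_injective (f := T) ?_
    rw [← LinearMap.ker_eq_bot, LinearMap.ker_eq_bot']
    rintro ⟨y, hy⟩ h0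
    have h1 : prj k Z y = 0 := congrArg Subtype.val h0
    obtain ⟨z, hz, rfl⟩ := hy
    apply Subtype.ext
    refine prj_inj_of_invariant Z hZk ?_ h1
    intro w hw
    change dl k w * (z * b) = z * b
    rw [← mul_assoc, hZcen w hw z, mul_assoc, hZb w hw]

end Coprime

end Pool.Agent.MP_a15589_al
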