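import Pool.Agent.MP_a15589_al.Core3
import Pool.Agent.MP_a15589_al.Examples

/-!
# Special cases of the main theorems

These are not hand-ins; they show that the hypotheses of the main theorems are satisfied in the
cases of interest, and how the bounds are related to Brauer's inequality.
-/

set_option autoImplicit false

namespace Pool.Agent.MP_a15589_al

open Matrix MatrixGroups

/-- The class of commutative groups is closed under subgroups, quotients and powers. -/
theorem comm_closed : ClosedClass (fun H _ => ∀ a b : H, a * b = b * a) where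
  sub H H' _ _ _ f hf h a b := hf (by rw [map_mul, map_mul, h])
  quot H H' _ _ _ f hf h a b := by
    obtain ⟨a, rfl⟩ := hf a
    obtain ⟨b, rfl⟩ := hf b
    rw [← map_mul, h, map_mul]
  pow H _ _ n h a b := by
    funext i
    exact h (a i) (b i)

theorem all_closed : ClosedClass (fun _ _ => True) := ⟨fun _ _ _ _ _ _ _ _ => trivial,
  fun _ _ _ _ _ _ _ _ => trivial, fun _ _ _ _ _ => trivial⟩

/-- The cyclic groups of prime order different from `p`. -/
theorem cyclic_family (p : ℕ) :
    (∀ q : {q : ℕ // q.Prime ∧ q ≠ p}, IsSimpleGroup (Multiplicative (ZMod (q : ℕ)))) ∧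
    (∀ n : ℕ, ∃ q : {q : ℕ // q.Prime ∧ q ≠ p}, n ≤ Nat.card (Multiplicative (ZMod (q : ℕ)))) ∧
    (p.Prime → ∀ q : {q : ℕ // q.Prime ∧ q ≠ p},
      ¬ p ∣ Nat.card (Multiplicative (ZMod (q : ℕ)))) := by
  have hcard : ∀ q : ℕ, Nat.card (Multiplicative (ZMod q)) = q := fun q => by
    rw [Nat.card_congr Multiplicative.toAdd, Nat.card_zmod]
  refine ⟨fun q => ?_, fun n => ?_, fun hp q => ?_⟩
  · have : Fact (Nat.card (Multiplicative (ZMod (q : ℕ)))).Prime := ⟨by
      rw [hcard]; exact q.2.1⟩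
    exact isSimpleGroup_of_prime_card (p := Nat.card (Multiplicative (ZMod (q : ℕ)))) rfl
  · obtain ⟨q, hq, hqp⟩ := Nat.exists_infinite_primes (max n (p + 1))
    refine ⟨⟨q, hqp, ?_⟩, ?_⟩
    · have := le_max_right n (p + 1)
      omega
    · rw [hcard]
      exact (le_max_left n (p + 1)).trans hq
  · rw [hcard, Nat.prime_dvd_prime_iff_eq hp q.2.1]
    exact q.2.2.symm

/-- Alternating groups as the top quotients. -/
theorem alternating_case (p : ℕ) (hp : p.Prime) (k : Type) [Field k] [IsAlgClosed k] [CharP k p]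
    (α : ℝ) (hα : 1 ≤ α) :
    WeakBound k (fun X _ => (∃ m : ℕ, TopIs (alternatingGroup (Fin (m + 5))) X) ∧
      Subgroup.center X = ⊥) (fun _ _ => True) α ↔ StrongBound k (fun _ _ => True) α := by
  have := alternating_family.1
  refine form_full p hp k ℕ (fun m => alternatingGroup (Fin (m + 5))) ?_ _
    all_closed (Or.inl fun _ _ => trivial) α hα
  intro n
  obtain ⟨m, hm⟩ := alternating_family.2.2 (n + 1) (by omega)
  exact ⟨m, by have := Nat.le_of_dvd Nat.card_pos hm; omega⟩

/-- Abelian defect groups, `p ≥ 5`: the top quotients are the simple groups `PSL_2(r)` of order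
prime to `p`, so the groups are perfect. -/
theorem abelian_case_five (p : ℕ) (hp : p.Prime) (hp5 : 5 ≤ p) (k : Type) [Field k]
    [IsAlgClosed k] [CharP k p] (α : ℝ) (hα : 1 ≤ α) :
    WeakBound k (fun X _ => (∃ r : {r : ℕ // r.Prime ∧ 5 ≤ r ∧ ¬ p ∣ Nat.card PSL(2, ZMod r)},
      TopIs PSL(2, ZMod (r : ℕ)) X) ∧ Subgroup.center X = ⊥)
      (fun H _ => ∀ a b : H, a * b = b * a) α ↔
    StrongBound k (fun H _ => ∀ a b : H, a * b = b * a) α := by
  obtain ⟨h1, h2, h3⟩ := psl_family p hp hp5
  have : ∀ r : {r : ℕ // r.Prime ∧ 5 ≤ r ∧ ¬ p ∣ Nat.card PSL(2, ZMod r)},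
      Finite PSL(2, ZMod (r : ℕ)) := fun r => by
    have : Fact (r : ℕ).Prime := ⟨r.2.1⟩
    exact inferInstance
  refine form_full p hp k _ (fun r : {r : ℕ // r.Prime ∧ 5 ≤ r ∧ ¬ p ∣ Nat.card PSL(2, ZMod r)} =>
    PSL(2, ZMod (r : ℕ))) ?_ _ comm_closed (Or.inr fun r => r.2.2.2) α hα
  intro n
  have hpn : ¬ p ∣ p * n + 1 := fun h =>
    hp.one_lt.ne' (Nat.dvd_one.1 ((Nat.dvd_add_right (Dvd.intro _ rfl)).1 h))
  obtain ⟨r, hr⟩ := h3 (p * n + 1) hpn
  have h4 := Nat.le_of_dvd Nat.card_pos hr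
  exact ⟨r, by nlinarith [hp.one_lt]⟩

/-- Abelian defect groups, any `p`: the top quotients are cyclic of prime order `≠ p`. -/
theorem abelian_case (p : ℕ) (hp : p.Prime) (k : Type) [Field k]
    [IsAlgClosed k] [CharP k p] (α : ℝ) (hα : 1 ≤ α) :
    WeakBound k (fun X _ => (∃ q : {q : ℕ // q.Prime ∧ q ≠ p},
      TopIs (Multiplicative (ZMod (q : ℕ))) X) ∧ Subgroup.center X = ⊥)
      (fun H _ => ∀ a b : H, a * b = b * a) α ↔
    StrongBound k (fun H _ => ∀ a b : H, a * b = b * a) α := by
  obtain ⟨h1, h2, h3⟩ := cyclic_family p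
  have : ∀ q : {q : ℕ // q.Prime ∧ q ≠ p}, Finite (Multiplicative (ZMod (q : ℕ))) := fun q => by
    have : NeZero (q : ℕ) := ⟨q.2.1.ne_zero⟩
    exact inferInstance
  exact form_full p hp k _ (fun q : {q : ℕ // q.Prime ∧ q ≠ p} => Multiplicative (ZMod (q : ℕ)))
    h2 _ comm_closed (Or.inr (h3 hp)) α hα

/-- For `α = 1` and all defect groups, the strong bound for all `p` and `k` is Brauer's
conjecture, in the words of the frozen statement. -/
theorem brauer_iff :
    (∀ (p : ℕ), p.Prime → ∀ (k : Type) [Field k] [IsAlgClosed k] [CharP k p],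
      StrongBound k (fun _ _ => True) 1) ↔
    ∀ (p : ℕ), p.Prime →
    ∀ (k : Type) [Field k] [IsAlgClosed k] [CharP k p]
      (G : Type) [Group G] [Finite G] (e : MonoidAlgebra k G),
      IsIdempotentElem e →
      (∀ x : MonoidAlgebra k G, x * e = e * x) →
      e ≠ 0 →
      (∀ f : MonoidAlgebra k G, IsIdempotentElem f →
          (∀ x : MonoidAlgebra k G, x * f = f * x) → f * e = 0 ∨ f * e = e) →
      ∀ D : Subgroup G,
        (∃ a : MonoidAlgebra k G,
            (∀ q ∈ D, MonoidAlgebra.of k G q * a = a * MonoidAlgebra.of k G q) ∧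
            e = ∑ᶠ x : G ⧸ D, MonoidAlgebra.of k G (Quotient.out x) * a *
                  MonoidAlgebra.of k G (Quotient.out x)⁻¹) →
        (∀ Q : Subgroup G,
            (∃ a : MonoidAlgebra k G,
                (∀ q ∈ Q, MonoidAlgebra.of k G q * a = a * MonoidAlgebra.of k G q) ∧
                e = ∑ᶠ x : G ⧸ Q, MonoidAlgebra.of k G (Quotient.out x) * a *
                      MonoidAlgebra.of k G (Quotient.out x)⁻¹) →
            Nat.card D ≤ Nat.card Q) →
        Module.finrank k
            (Submodule.map (LinearMap.mulRight k e)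
              (Subalgebra.toSubmodule (Subalgebra.center k (MonoidAlgebra k G))))
          ≤ Nat.card D := by
  constructor
  · intro h p hp k _ _ _ G _ _ e h1 h2 h3 h4 D h5 h6
    have := h p hp k G e ⟨h1, h2, h3, h4⟩ D ⟨h5, h6⟩ trivial
    rw [Real.rpow_one] at this
    exact_mod_cast this
  · intro h p hp k _ _ _ G _ _ e he D hD _
    have := h p hp k G e he.idem he.central he.ne_zero he.prim D hD.1 hD.2
    rw [Real.rpow_one]
    exact_mod_cast this

end Pool.Agent.MP_a15589_al
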