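import Pool.Agent.MP_a15589_al.Alg

/-!
# The main step: from a group to a normal subgroup with abelian quotient
-/

set_option autoImplicit false

namespace Pool.Agent.MP_a15589_al

open MonoidAlgebra

section Inj

variable {k X : Type*} [Field k] [Group X] [Fintype X]

theorem res_mem_CZ {R K : Subgroup X} (hRK : R ≤ K) [R.Normal] {b : MonoidAlgebra k X}
    (hb : b ∈ CZ k K K) : res (R : Set X) b ∈ CZ k R R := by
  rw [mem_CZ'] at hb ⊢
  refine ⟨suppIn_res _ _, fun m hm => ?_⟩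
  rw [← res_cj m (fun h => ?_), hb.2 m (hRK hm)]
  constructor
  · intro hh
    have := Subgroup.Normal.conj_mem (inferInstance : R.Normal) _ hh m
    simpa [mul_assoc] using this
  · intro hh
    have := Subgroup.Normal.conj_mem (inferInstance : R.Normal) _ hh m⁻¹
    simpa [mul_assoc] using this

theorem mul_res {R : Subgroup X} {z : MonoidAlgebra k X} (hz : SuppIn (R : Set X) z)
    (b : MonoidAlgebra k X) : res (R : Set X) (z * b) = z * res (R : Set X) b := by
  refine res_mul_left hz (fun n hn g => ?_) b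
  exact R.mul_mem_cancel_left (R.inv_mem hn)

/-- Multiplication by `b` is injective on `CZ R ⊤ · Es`. -/
theorem inj_step [IsAlgClosed k] {R K : Subgroup X} [R.Normal] (hRK : R ≤ K) {Es r b : MonoidAlgebra k X}
    (hEs : IsPrim (CZ k R (⊤ : Subgroup X)) Es) (hr : IsPrim (CZ k R R) r) (hrE : r * Es = r)
    (hb : b ∈ CZ k K K) (hn : ¬ IsNilpotent (r * res (R : Set X) b)) {z : MonoidAlgebra k X}
    (hz : z ∈ CZ k R (⊤ : Subgroup X)) (hzE : z * Es = z) (hzb : z * b = 0) : z = 0 := by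
  have hres := res_mem_CZ hRK hb
  have hcomm := CZ_comm (k := k) (le_refl R)
  -- z * r = 0
  have hzr : z * r = 0 := by
    have h1 : z * res (R : Set X) b = 0 := by
      rw [← mul_res hz.1, hzb, res_zero]
    obtain ⟨w, hw, hwr⟩ := hr.unit hcomm hres (by rwa [hcomm _ hres _ hr.mem])
    rw [← hwr, ← mul_assoc, ← mul_assoc, h1, zero_mul, zero_mul]
  have hzcj : ∀ x : X, cj x z = z := fun x => ((mem_CZ'.1 hz).2 x (Subgroup.mem_top x))
  have hEscj : ∀ x : X, cj x Es = Es := fun x => ((mem_CZ'.1 hEs.mem).2 x (Subgroup.mem_top x))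
  have hzxr : ∀ x : X, z * cj x r = 0 := by
    intro x
    rw [← hzcj x, ← cj_mul, hzr, cj_zero]
  exact sub_zero_of_conj (Y := X) hcomm cj (fun y s hs => cj_mem_CZ hs y) cj_mul cj_one cj_sub
    cj_cj (fun s => by simp [cj, dl_one]) (CZ_mono (le_refl R) le_top hEs.mem) hr.mem
    (CZ_mono (le_refl R) le_top hz) hEs.idem hr.idem hr.ne hrE hEscj
    (fun q hq hqq hqcj => hEs.prim q (mem_CZ'.2 ⟨hq.1, fun m _ => hqcj m⟩) hqq) hzE hzxr

end Inj

section Main

variable {k X Γ : Type*} [Field k] [IsAlgClosed k] [Group X] [Fintype X] [CommGroup Γ]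
  [Fintype Γ]

/-- The pieces of `E` under the grading by `Γ`, and the trace expression for `Es`. -/
theorem trace_Es (Pi : X →* Γ) (H : Subgroup X) (L : Subgroup X)
    {E a Es : MonoidAlgebra k X} (hEE : E * E = E) (hE0 : E ≠ 0)
    (hEc : E ∈ CZ k H (⊤ : Subgroup X))
    (haH : SuppIn (H : Set X) a) (haL : ∀ l ∈ L, cj l a = a)
    (hEa : E = ∑ᶠ x : X ⧸ L, cj (Quotient.out x) a)
    (hEs : IsPrim (CZ k (H ⊓ Pi.ker) (⊤ : Subgroup X)) Es) (hEsE : Es * E = E) :
    ∃ c : MonoidAlgebra k X, SuppIn ((H ⊓ Pi.ker : Subgroup X) : Set X) c ∧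
      (∀ l ∈ L, cj l c = c) ∧ Es = ∑ᶠ x : X ⧸ L, cj (Quotient.out x) c := by
  classical
  have : Fintype (X ⧸ L) := Fintype.ofFinite _
  rw [finsum_eq_sum_of_fintype] at hEa
  let S : Γ → Set X := fun γ => {x | Pi x = γ}
  have hS : ∀ γ y h, y⁻¹ * h * y ∈ S γ ↔ h ∈ S γ := by
    intro γ y h
    simp only [S, Set.mem_ofPred_eq, map_mul, map_inv]
    rw [mul_comm, ← mul_assoc, mul_inv_cancel, one_mul]
  have hEcj : ∀ x : X, cj x E = E := fun x => (mem_CZ'.1 hEc).2 x (Subgroup.mem_top x)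
  have hsum : E = ∑ γ : Γ, res (S γ) E := by
    ext g
    rw [coeff_sum, Finset.sum_apply', Finset.sum_eq_single (Pi g)]
    · rw [coeff_res_of_mem]; rfl
    · intro γ _ hγ
      rw [coeff_res_of_not_mem]
      exact fun h => hγ h.symm
    · intro h; exact absurd (Finset.mem_univ _) h
  have hmem : ∀ γ, res (S γ) E ∈ CZ k H (⊤ : Subgroup X) := by
    intro γ
    rw [mem_CZ']
    refine ⟨res_suppIn hEc.1, fun m _ => ?_⟩
    rw [← res_cj m (hS γ m), hEcj]
  have hEnil : ¬ IsNilpotent E := by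
    rintro ⟨n, hn⟩
    have hpow : ∀ m : ℕ, E ^ (m + 1) = E := by
      intro m
      induction m with
      | zero => simp
      | succ m ih => rw [pow_succ, ih, hEE]
    cases n with
    | zero =>
      rw [pow_zero] at hn
      apply hE0
      rw [← one_mul E, hn, zero_mul]
    | succ n => exact hE0 (by rw [← hpow n, hn])
  obtain ⟨γ, -, hγ⟩ := not_nilpotent_of_sum (CZ_comm (k := k) (le_top : H ≤ ⊤)) Finset.univ
    (fun γ => res (S γ) E) (fun γ _ => hmem γ) (by rwa [← hsum])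
  set F := res (S γ) E with hF
  have hFpow : ∀ j : ℕ, F ^ j ∈ CZ k H (⊤ : Subgroup X) := fun j => pow_mem (hmem γ) j
  have hFsupp : ∀ j : ℕ, SuppIn ((H : Set X) ∩ S (γ ^ j)) (F ^ j) := by
    intro j
    induction j with
    | zero =>
      rw [pow_zero]
      exact suppIn_one ⟨H.one_mem, by simp [S]⟩
    | succ j ih =>
      rw [pow_succ]
      refine ih.mul (T := (H : Set X) ∩ S γ) (fun g hg => ?_) ?_
      · by_cases h1 : g ∈ H
        · exact coeff_res_of_not_mem _ (fun h2 => hg ⟨h1, h2⟩)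
        · exact (hmem γ).1 g h1
      · rintro s ⟨hs1, hs2⟩ t ⟨ht1, ht2⟩
        refine ⟨H.mul_mem hs1 ht1, ?_⟩
        simp only [S, Set.mem_ofPred_eq] at hs2 ht2 ⊢
        rw [map_mul, hs2, ht2]
  have hEEs : E * Es = E := by
    rw [← central_comm hEc Es, hEsE]
  have hFEs : F * Es = F := by
    rw [hF, ← res_mul_right (N := ((H ⊓ Pi.ker : Subgroup X) : Set X)) hEs.mem.1 (fun g h hgh => ?_),
      hEEs]
    have h1 : Pi (h⁻¹ * g) = 1 := hgh.2
    rw [map_mul, map_inv, inv_mul_eq_one] at h1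
    simp only [S, Set.mem_ofPred_eq, h1]
  set n := Fintype.card Γ with hn
  have hnpos : 0 < n := Fintype.card_pos
  obtain ⟨m, hm⟩ : ∃ m, n = m + 1 := ⟨n - 1, by omega⟩
  have hγn : γ ^ n = 1 := pow_card_eq_one
  have hz : F ^ n ∈ CZ k (H ⊓ Pi.ker) (⊤ : Subgroup X) := by
    refine ⟨(hFsupp n).mono ?_, (hFpow n).2⟩
    rintro x ⟨hx1, hx2⟩
    refine ⟨hx1, ?_⟩
    simp only [S, Set.mem_ofPred_eq] at hx2
    rw [hγn] at hx2
    exact hx2
  have hzEs : F ^ n * Es = F ^ n := by
    rw [hm, pow_succ, mul_assoc, hFEs]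
  have hznil : ¬ IsNilpotent (F ^ n * Es) := by
    rw [hzEs]
    rintro ⟨j, hj⟩
    exact hγ ⟨n * j, by rw [pow_mul, hj]⟩
  obtain ⟨w, hw, hwEs⟩ := hEs.unit (CZ_comm (k := k) le_top) hz hznil
  set u := F ^ m * w * Es with hu
  have hwH : w ∈ CZ k H (⊤ : Subgroup X) := CZ_mono inf_le_left (le_refl _) hw
  have hEsH : Es ∈ CZ k H (⊤ : Subgroup X) := CZ_mono inf_le_left (le_refl _) hEs.mem
  have humem : u ∈ CZ k H (⊤ : Subgroup X) := mul_mem (mul_mem (hFpow m) hwH) hEsH
  have hucj : ∀ x, cj x u = u := fun x => (mem_CZ'.1 humem).2 x (Subgroup.mem_top x)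
  have husupp : SuppIn ((H : Set X) ∩ S (γ ^ m)) u := by
    rw [hu, mul_assoc]
    refine (hFsupp m).mul (T := ((H ⊓ Pi.ker : Subgroup X) : Set X))
      (mul_mem hw hEs.mem : w * Es ∈ CZ k (H ⊓ Pi.ker) ⊤).1 ?_
    rintro s ⟨hs1, hs2⟩ t ⟨ht1, ht2⟩
    refine ⟨H.mul_mem hs1 ht1, ?_⟩
    simp only [S, Set.mem_ofPred_eq] at hs2 ⊢
    have ht2' : Pi t = 1 := ht2
    rw [map_mul, hs2, ht2', mul_one]
  have hEsu : Es = F * u := by
    rw [hu, ← mul_assoc, ← mul_assoc, ← pow_succ', ← hm]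
    exact hwEs.symm
  have hFsum : F = ∑ x : X ⧸ L, cj (Quotient.out x) (res (S γ) a) := by
    rw [hF, hEa, res_sum]
    exact Finset.sum_congr rfl (fun x _ => res_cj _ (hS γ _) _)
  refine ⟨res (S γ) a * u, ?_, ?_, ?_⟩
  · refine SuppIn.mul (S := (H : Set X) ∩ S γ) (T := (H : Set X) ∩ S (γ ^ m))
      (fun g hg => ?_) husupp ?_
    · by_cases h1 : g ∈ H
      · exact coeff_res_of_not_mem _ (fun h2 => hg ⟨h1, h2⟩)
      · exact res_suppIn haH g h1
    · rintro s ⟨hs1, hs2⟩ t ⟨ht1, ht2⟩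
      refine ⟨H.mul_mem hs1 ht1, ?_⟩
      simp only [S, Set.mem_ofPred_eq] at hs2 ht2
      change Pi (s * t) = 1
      rw [map_mul, hs2, ht2, ← pow_succ', ← hm, hγn]
  · intro l hl
    rw [cj_mul, hucj, ← res_cj l (hS γ l), haL l hl]
  · rw [finsum_eq_sum_of_fintype, hEsu, hFsum, Finset.sum_mul]
    refine Finset.sum_congr rfl (fun x _ => ?_)
    rw [cj_mul, hucj]

end Main

section Trace

variable {k X : Type*} [Field k] [IsAlgClosed k] [Group X] [Fintype X]

/-- Mackey decomposition and Rosenberg's lemma for a normal subgroup. -/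
theorem trace_down {K : Subgroup X} [K.Normal] (L : Subgroup X) {Es b c : MonoidAlgebra k X}
    (hc : SuppIn (K : Set X) c) (hcL : ∀ l ∈ L, cj l c = c)
    (hEs : Es = ∑ᶠ x : X ⧸ L, cj (Quotient.out x) c)
    (hb : IsPrim (CZ k K K) b) (hbE : b * Es = b) :
    ∃ Q : Subgroup K, (∃ f : Q →* L, Function.Injective f) ∧ ∃ d : MonoidAlgebra k X,
      SuppIn (K : Set X) d ∧ (∀ q ∈ Q, cj (q : X) d = d) ∧
      b = ∑ᶠ x : K ⧸ Q, cj ((Quotient.out x : K) : X) d := by
  classical
  have : Fintype (X ⧸ L) := Fintype.ofFinite _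
  have : Fintype (MulAction.orbitRel.Quotient K (X ⧸ L)) := Fintype.ofFinite _
  rw [finsum_eq_sum_of_fintype] at hEs
  let f : X ⧸ L → MonoidAlgebra k X := fun x => cj (Quotient.out x) c
  have hf : ∀ (g : X) (x : X ⧸ L), f (g • x) = cj g (f x) := by
    intro g x
    simp only [f]
    rw [cj_cj]
    have h1 : ((Quotient.out (g • x) : X) : X ⧸ L) = ((g * Quotient.out x : X) : X ⧸ L) := by
      rw [QuotientGroup.out_eq']
      conv_lhs => rw [← QuotientGroup.out_eq' x]
      rfl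
    rw [QuotientGroup.eq] at h1
    have h2 := hcL _ h1
    calc cj (Quotient.out (g • x)) c = cj (Quotient.out (g • x))
          (cj ((Quotient.out (g • x))⁻¹ * (g * Quotient.out x)) c) := by rw [h2]
      _ = cj (g * Quotient.out x) c := by
          rw [cj_cj]; congr 1; group
  have hcomm := CZ_comm (k := k) (le_refl K)
  let Z : MulAction.orbitRel.Quotient K (X ⧸ L) → MonoidAlgebra k X := fun ω =>
    ∑ x ∈ Finset.univ.filter (fun x : X ⧸ L => Quotient.mk _ x = ω), f x
  have hfK : ∀ x, SuppIn (K : Set X) (f x) := fun x => hc.cj _ (fun h hh => by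
    have := Subgroup.Normal.conj_mem (inferInstance : K.Normal) _ hh (Quotient.out x)
    simpa [mul_assoc] using this)
  have hZ : ∀ ω, Z ω ∈ CZ k K K := by
    intro ω
    rw [mem_CZ']
    refine ⟨SuppIn.sum _ _ (fun x _ => hfK x), fun m hm => ?_⟩
    simp only [Z]
    rw [cj_sum]
    refine Finset.sum_bij (fun x _ => m • x) ?_ ?_ ?_ ?_
    · intro x hx
      rw [Finset.mem_filter] at hx ⊢
      refine ⟨Finset.mem_univ _, ?_⟩
      rw [← hx.2]
      apply Quotient.sound
      exact ⟨⟨m, hm⟩, rfl⟩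
    · intro x _ y _ hxy
      exact MulAction.injective m hxy
    · intro y hy
      rw [Finset.mem_filter] at hy
      refine ⟨m⁻¹ • y, ?_, by simp⟩
      rw [Finset.mem_filter]
      refine ⟨Finset.mem_univ _, ?_⟩
      rw [← hy.2]
      apply Quotient.sound
      exact ⟨⟨m⁻¹, K.inv_mem hm⟩, rfl⟩
    · intro x _
      exact (hf m x).symm
  have hEsZ : Es = ∑ ω, Z ω := by
    rw [hEs]
    simp only [Z]
    rw [Finset.sum_fiberwise]
  have hbnil : ¬ IsNilpotent b := by
    rintro ⟨n, hn⟩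
    have hpow : ∀ m : ℕ, b ^ (m + 1) = b := by
      intro m
      induction m with
      | zero => simp
      | succ m ih => rw [pow_succ, ih, hb.idem]
    cases n with
    | zero =>
      rw [pow_zero] at hn
      apply hb.ne
      rw [← one_mul b, hn, zero_mul]
    | succ n => exact hb.ne (by rw [← hpow n, hn])
  have hbsum : b = ∑ ω, Z ω * b := by
    rw [← Finset.sum_mul, ← hEsZ]
    have hEsmem : Es ∈ CZ k K K := by
      rw [hEsZ]; exact sum_mem (fun ω _ => hZ ω)
    rw [hcomm _ hEsmem _ hb.mem, hbE]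
  obtain ⟨ω, -, hω⟩ := not_nilpotent_of_sum hcomm Finset.univ (fun ω => Z ω * b)
    (fun ω _ => mul_mem (hZ ω) hb.mem) (by rwa [← hbsum])
  obtain ⟨w, hw, hwb⟩ := hb.unit hcomm (hZ ω) hω
  obtain ⟨y, hy⟩ := Quotient.exists_rep ω
  let Q : Subgroup K := MulAction.stabilizer K y
  have : Fintype (K ⧸ Q) := Fintype.ofFinite _
  have hZorb : Z ω = ∑ x : K ⧸ Q, cj ((Quotient.out x : K) : X) (f y) := by
    simp only [Z]
    symm
    refine Finset.sum_bij (fun x _ => ((Quotient.out x : K) : X) • y) ?_ ?_ ?_ ?_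
    · intro x _
      rw [Finset.mem_filter]
      refine ⟨Finset.mem_univ _, ?_⟩
      rw [← hy]
      apply Quotient.sound
      exact ⟨Quotient.out x, rfl⟩
    · intro x1 _ x2 _ h12
      have h3 : ((Quotient.out x1 : K)) • y = ((Quotient.out x2 : K)) • y := h12
      have h4 : (Quotient.out x1)⁻¹ * (Quotient.out x2) ∈ Q := by
        rw [MulAction.mem_stabilizer_iff, mul_smul, ← h3, inv_smul_smul]
      rw [← QuotientGroup.eq, QuotientGroup.out_eq', QuotientGroup.out_eq'] at h4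
      exact h4
    · intro x hx
      rw [Finset.mem_filter] at hx
      have h5 := hx.2
      rw [← hy] at h5
      obtain ⟨m, hm⟩ := Quotient.exact h5
      refine ⟨(m : K ⧸ Q), Finset.mem_univ _, ?_⟩
      have h6 : (Quotient.out (m : K ⧸ Q))⁻¹ * m ∈ Q := by
        rw [← QuotientGroup.eq, QuotientGroup.out_eq']
      have h7 : ((Quotient.out (m : K ⧸ Q))⁻¹ * m) • y = y := h6
      have h8 : m • y = (Quotient.out (m : K ⧸ Q)) • y := by
        conv_rhs => rw [← h7]
        rw [← mul_smul, mul_inv_cancel_left]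
      have h9 : m • y = x := hm
      change (Quotient.out (m : K ⧸ Q)) • y = x
      rw [← h8, h9]
    · intro x _
      exact (hf _ y).symm
  refine ⟨Q, ?_, f y * (w * b), ?_, ?_, ?_⟩
  · -- cardinality
    have hinj : ∀ q : Q, (Quotient.out y)⁻¹ * ((q : K) : X) * Quotient.out y ∈ L := by
      intro q
      have h1 : ((q : K)) • y = y := q.2
      have h3 : ((Quotient.out y : X) : X ⧸ L) = ((((q : K) : X) * Quotient.out y : X) : X ⧸ L) := by
        rw [QuotientGroup.out_eq']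
        conv_lhs => rw [← h1, ← QuotientGroup.out_eq' y]
        rfl
      rw [QuotientGroup.eq] at h3
      rw [mul_assoc]
      exact h3
    refine ⟨{ toFun := fun q => (⟨(Quotient.out y)⁻¹ * ((q : K) : X) * Quotient.out y, hinj q⟩ : L)
              map_one' := by simp
              map_mul' := fun q1 q2 => by simp [mul_assoc] }, ?_⟩
    intro q1 q2 h12
    have := congrArg Subtype.val h12
    change (Quotient.out y)⁻¹ * ((q1 : K) : X) * Quotient.out y =
      (Quotient.out y)⁻¹ * ((q2 : K) : X) * Quotient.out y at this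
    simp only [mul_left_inj, mul_right_inj] at this
    exact Subtype.ext (Subtype.ext this)
  · exact (hfK y).mul (mul_mem hw hb.mem : w * b ∈ CZ k K K).1 (fun s hs t ht => K.mul_mem hs ht)
  · intro q hq
    rw [cj_mul, ← hf, (mem_CZ'.1 (mul_mem hw hb.mem : w * b ∈ CZ k K K)).2 q q.2]
    have : (q : X) • y = y := hq
    rw [this]
  · rw [finsum_eq_sum_of_fintype]
    have h1 : b = Z ω * (w * b) := by
      rw [← mul_assoc]; exact hwb.symm
    rw [hZorb, Finset.sum_mul] at h1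
    refine h1.trans (Finset.sum_congr rfl (fun x _ => ?_))
    rw [cj_mul, (mem_CZ'.1 (mul_mem hw hb.mem : w * b ∈ CZ k K K)).2 _ (Quotient.out x : K).2]

end Trace

end Pool.Agent.MP_a15589_al
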