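import Pool.Agent.MP_a15589_al.Dim

/-!
# The normal subgroups of the kernel of `G ≀ P → G^ab`
-/

set_option autoImplicit false

namespace Pool.Agent.MP_a15589_al

open RegularWreathProduct
open scoped commutatorElement

section

variable {G P : Type*} [Group G] [Fintype G] [Group P] [Fintype P]

/-- The kernel of `G ≀ P → G^ab`. -/
noncomputable abbrev kerW (G P : Type*) [Group G] [Group P] [Fintype P] :
    Subgroup (RegularWreathProduct G P) :=
  (piHom (P := P) (Abelianization.of : G →* Abelianization G)).ker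

open Classical in
/-- The element with single coordinate `u` at `i`. -/
noncomputable def dlt (i : P) (u : G) : RegularWreathProduct G P := ⟨Pi.mulSingle i u, 1⟩

theorem dlt_left_self (i : P) (u : G) : (dlt i u).left i = u := by
  simp [dlt]

theorem dlt_left_ne {i j : P} (h : j ≠ i) (u : G) : (dlt i u).left j = 1 := by
  simp [dlt, h]

theorem dlt_right (i : P) (u : G) : (dlt i u).right = 1 := rfl

theorem dlt_mul (i : P) (u v : G) : dlt i (u * v) = dlt i u * dlt i v := by
  ext j
  · by_cases hj : j = i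
    · subst hj; simp [dlt_left_self, dlt_right]
    · simp [dlt_left_ne hj, dlt_right]
  · simp [dlt_right]

theorem dlt_one (i : P) : dlt i (1 : G) = 1 := by
  ext j
  · by_cases hj : j = i
    · subst hj; simp [dlt_left_self]
    · simp [dlt_left_ne hj]
  · rfl

theorem dlt_inv (i : P) (u : G) : (dlt i u)⁻¹ = dlt i u⁻¹ := by
  rw [inv_eq_iff_mul_eq_one, ← dlt_mul, mul_inv_cancel, dlt_one]

theorem inl_conj (x i : P) (u : G) :
    (inl x : RegularWreathProduct G P) * dlt i u * (inl x)⁻¹ = dlt (x * i) u := by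
  ext j
  · by_cases hj : j = x * i
    · subst hj; simp [dlt_left_self, dlt_right]
    · have h2 : x⁻¹ * j ≠ i := fun h => hj (by rw [← h]; group)
      simp [dlt_left_ne hj, dlt_left_ne h2, dlt_right]
  · simp [dlt_right]

theorem pi_dlt (i : P) (u : G) :
    piHom (P := P) (Abelianization.of : G →* Abelianization G) (dlt i u) = Abelianization.of u := by
  classical
  rw [piHom_apply, Finset.prod_eq_single i]
  · rw [dlt_left_self]
  · intro j _ hj
    rw [dlt_left_ne hj, map_one]
  · intro h; exact absurd (Finset.mem_univ _) h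

theorem inl_mem (x : P) : (inl x : RegularWreathProduct G P) ∈ kerW G P := by
  rw [MonoidHom.mem_ker, piHom_apply]
  simp

/-- `δ_i(u) δ_j(u)⁻¹`. -/
noncomputable def rho (i j : P) (u : G) : RegularWreathProduct G P := dlt i u * (dlt j u)⁻¹

theorem rho_mem (i j : P) (u : G) : rho i j u ∈ kerW G P := by
  rw [MonoidHom.mem_ker, rho, map_mul, map_inv, pi_dlt, pi_dlt, mul_inv_cancel]

theorem rho_right (i j : P) (u : G) : (rho i j u).right = 1 := by
  simp [rho, dlt_right]

theorem rho_left_fst {i j : P} (h : i ≠ j) (u : G) : (rho i j u).left i = u := by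
  simp [rho, dlt_inv, dlt_left_self, dlt_left_ne h, dlt_right]

theorem rho_left_snd {i j : P} (h : i ≠ j) (u : G) : (rho i j u).left j = u⁻¹ := by
  simp [rho, dlt_inv, dlt_left_self, dlt_left_ne h.symm, dlt_right]

theorem rho_left_ne {i j l : P} (h1 : l ≠ i) (h2 : l ≠ j) (u : G) : (rho i j u).left l = 1 := by
  simp [rho, dlt_inv, dlt_left_ne h1, dlt_left_ne h2, dlt_right]

/-- Commutator of two elements of the base group, coordinatewise. -/
theorem base_comm_left {v w : RegularWreathProduct G P} (hv : v.right = 1) (hw : w.right = 1)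
    (i : P) : (v * w * v⁻¹ * w⁻¹).left i = v.left i * w.left i * (v.left i)⁻¹ * (w.left i)⁻¹ := by
  simp [hv, hw]

theorem rho_conj (a b : P) (u : G) :
    (⟨rho a (a * b) u, rho_mem _ _ _⟩ : kerW G P) =
      ⟨inl a, inl_mem a⟩ * ⟨rho 1 b u, rho_mem _ _ _⟩ * ⟨inl a, inl_mem a⟩⁻¹ := by
  apply Subtype.ext
  change rho a (a * b) u = inl a * rho 1 b u * (inl a)⁻¹
  rw [rho, rho]
  have h2 : (inl a : RegularWreathProduct G P) * (dlt 1 u * (dlt b u)⁻¹) * (inl a)⁻¹ =
      (inl a * dlt 1 u * (inl a)⁻¹) * (inl a * dlt b u * (inl a)⁻¹)⁻¹ := by group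
  rw [h2, inl_conj, inl_conj, mul_one]

/-- For a fixed `u`, the values on `δ_1(u) δ_a(u)⁻¹` form a homomorphism in `a`. -/
noncomputable def homA {Y : Type*} [CommGroup Y] (q : kerW G P →* Y) (u : G) : P →* Y where
  toFun a := q ⟨rho 1 a u, rho_mem _ _ _⟩
  map_one' := by
    have : (⟨rho 1 1 u, rho_mem _ _ _⟩ : kerW G P) = 1 := by
      apply Subtype.ext
      change rho 1 1 u = 1
      rw [rho, mul_inv_cancel]
    rw [this, map_one]
  map_mul' := by
    intro a b
    have : (⟨rho 1 (a * b) u, rho_mem _ _ _⟩ : kerW G P) =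
        ⟨rho 1 a u, rho_mem _ _ _⟩ * ⟨rho a (a * b) u, rho_mem _ _ _⟩ := by
      apply Subtype.ext
      change rho 1 (a * b) u = rho 1 a u * rho a (a * b) u
      simp only [rho]
      group
    rw [this, map_mul, rho_conj, map_mul, map_mul, map_inv, mul_comm (q _) (q ⟨rho 1 b u, _⟩),
      mul_inv_cancel_right]

theorem homA_apply {Y : Type*} [CommGroup Y] (q : kerW G P →* Y) (u : G) (a : P) :
    homA q u a = q ⟨rho 1 a u, rho_mem _ _ _⟩ := rfl

/-- A homomorphism to an abelian group kills `δ_1(c)` for `c` in the commutator subgroup. -/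
theorem hom_dlt (hcard : 2 < Fintype.card P) {Y : Type*} [CommGroup Y] (q : kerW G P →* Y)
    {c : G} (hc : c ∈ commutator G) : ∃ h : dlt (1 : P) c ∈ kerW G P, q ⟨dlt 1 c, h⟩ = 1 := by
  classical
  obtain ⟨j, l, hj1, hl1, hjl⟩ : ∃ j l : P, j ≠ 1 ∧ l ≠ 1 ∧ j ≠ l := by
    have hc : 1 < (Finset.univ.erase (1 : P)).card := by
      rw [Finset.card_erase_of_mem (Finset.mem_univ _), Finset.card_univ]; omega
    obtain ⟨j, hj, l, hl, hjl⟩ := Finset.one_lt_card.1 hc
    exact ⟨j, l, Finset.ne_of_mem_erase hj, Finset.ne_of_mem_erase hl, hjl⟩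
  let B : Subgroup G :=
    { carrier := {c | ∃ h : dlt (1 : P) c ∈ kerW G P, q ⟨dlt 1 c, h⟩ = 1}
      one_mem' := by
        have h : dlt (1 : P) (1 : G) ∈ kerW G P := by rw [dlt_one]; exact one_mem _
        refine ⟨h, ?_⟩
        have : (⟨dlt 1 1, h⟩ : kerW G P) = 1 := Subtype.ext (dlt_one 1)
        rw [this, map_one]
      mul_mem' := by
        rintro c d ⟨hc, hc1⟩ ⟨hd, hd1⟩
        have h : dlt (1 : P) (c * d) ∈ kerW G P := by rw [dlt_mul]; exact mul_mem hc hd
        refine ⟨h, ?_⟩
        have : (⟨dlt 1 (c * d), h⟩ : kerW G P) = ⟨dlt 1 c, hc⟩ * ⟨dlt 1 d, hd⟩ :=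
          Subtype.ext (dlt_mul 1 c d)
        rw [this, map_mul, hc1, hd1, one_mul]
      inv_mem' := by
        rintro c ⟨hc, hc1⟩
        have h : dlt (1 : P) c⁻¹ ∈ kerW G P := by rw [← dlt_inv]; exact inv_mem hc
        refine ⟨h, ?_⟩
        have : (⟨dlt 1 c⁻¹, h⟩ : kerW G P) = ⟨dlt 1 c, hc⟩⁻¹ := Subtype.ext (dlt_inv 1 c).symm
        rw [this, map_inv, hc1, inv_one] }
  have hB : commutator G ≤ B := by
    rw [commutator_def, Subgroup.commutator_le]
    intro u _ v _
    have heq : dlt (1 : P) ⁅u, v⁆ = rho 1 j u * rho 1 l v * (rho 1 j u)⁻¹ * (rho 1 l v)⁻¹ := by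
      ext i
      · rw [base_comm_left (rho_right _ _ _) (rho_right _ _ _)]
        by_cases hi : i = 1
        · subst hi
          rw [dlt_left_self, rho_left_fst hj1.symm, rho_left_fst hl1.symm]
          rfl
        · rw [dlt_left_ne hi]
          by_cases hij : i = j
          · subst hij
            rw [rho_left_ne hi hjl]
            simp
          · rw [rho_left_ne hi hij]
            simp
      · simp [dlt_right, rho_right]
    have hmem : dlt (1 : P) ⁅u, v⁆ ∈ kerW G P := by
      rw [heq]
      exact mul_mem (mul_mem (mul_mem (rho_mem _ _ _) (rho_mem _ _ _)) (inv_mem (rho_mem _ _ _)))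
        (inv_mem (rho_mem _ _ _))
    refine ⟨hmem, ?_⟩
    have : (⟨dlt 1 ⁅u, v⁆, hmem⟩ : kerW G P) =
        ⟨rho 1 j u, rho_mem _ _ _⟩ * ⟨rho 1 l v, rho_mem _ _ _⟩ * ⟨rho 1 j u, rho_mem _ _ _⟩⁻¹ *
          ⟨rho 1 l v, rho_mem _ _ _⟩⁻¹ := Subtype.ext heq
    rw [this]
    simp only [map_mul, map_inv]
    rw [mul_comm (q _) (q _)]
    group
  exact hB hc

/-- A homomorphism to an abelian group which kills all `δ_1(u) δ_a(u)⁻¹` kills the base group. -/
theorem hom_base (hcard : 2 < Fintype.card P) {Y : Type*} [CommGroup Y] (q : kerW G P →* Y)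
    (h1 : ∀ (a : P) (u : G), q ⟨rho 1 a u, rho_mem _ _ _⟩ = 1) (g : P → G)
    (h : (⟨g, 1⟩ : RegularWreathProduct G P) ∈ kerW G P) : q ⟨⟨g, 1⟩, h⟩ = 1 := by
  classical
  -- elements of the base group
  have hbase : ∀ n : ℕ, ∀ g : P → G, (Finset.univ.filter (fun i => i ≠ 1 ∧ g i ≠ 1)).card = n →
      ∀ h : (⟨g, 1⟩ : RegularWreathProduct G P) ∈ kerW G P, q ⟨⟨g, 1⟩, h⟩ = 1 := by
    intro n
    induction n with
    | zero =>
      intro g hg h
      rw [Finset.card_eq_zero, Finset.filter_eq_empty_iff] at hg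
      have hg' : ∀ i, i ≠ 1 → g i = 1 := by
        intro i hi
        by_contra hne
        exact hg (Finset.mem_univ i) ⟨hi, hne⟩
      have heq : (⟨g, 1⟩ : RegularWreathProduct G P) = dlt 1 (g 1) := by
        ext i
        · by_cases hi : i = 1
          · subst hi; rw [dlt_left_self]
          · rw [dlt_left_ne hi]; exact hg' i hi
        · rfl
      have hmem : dlt (1 : P) (g 1) ∈ kerW G P := by rw [← heq]; exact h
      have hc : g 1 ∈ commutator G := by
        have h2 := hmem
        rw [MonoidHom.mem_ker, pi_dlt] at h2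
        have : g 1 ∈ (Abelianization.of : G →* Abelianization G).ker := h2
        rwa [Abelianization.ker_of] at this
      obtain ⟨h4, h5⟩ := hom_dlt hcard q hc
      have : (⟨⟨g, 1⟩, h⟩ : kerW G P) = ⟨dlt 1 (g 1), h4⟩ := Subtype.ext heq
      rw [this, h5]
    | succ n ih =>
      intro g hg h
      have hne : (Finset.univ.filter (fun i => i ≠ 1 ∧ g i ≠ 1)).Nonempty := by
        rw [← Finset.card_pos, hg]; omega
      obtain ⟨a, ha⟩ := hne
      rw [Finset.mem_filter] at ha
      obtain ⟨-, ha1, ha2⟩ := ha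
      let g' : P → G := Function.update (Function.update g a 1) 1 (g 1 * g a)
      have heq : (⟨g, 1⟩ : RegularWreathProduct G P) = ⟨g', 1⟩ * (rho 1 a (g a))⁻¹ := by
        ext i
        · have hr : (rho (1 : P) a (g a))⁻¹ = rho a 1 (g a) := by simp [rho]
          rw [hr]
          simp only [mul_left, Pi.mul_apply, inv_one, one_mul]
          by_cases hi : i = 1
          · subst hi
            rw [rho_left_snd ha1]
            simp [g']
          · by_cases hia : i = a
            · subst hia
              rw [rho_left_fst ha1]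
              simp [g', hi]
            · rw [rho_left_ne hia hi]
              simp [g', hi, hia]
        · simp [rho_right]
      have hmem' : (⟨g', 1⟩ : RegularWreathProduct G P) ∈ kerW G P := by
        have : (⟨g', 1⟩ : RegularWreathProduct G P) = ⟨g, 1⟩ * rho 1 a (g a) := by
          rw [heq, inv_mul_cancel_right]
        rw [this]
        exact mul_mem h (rho_mem _ _ _)
      have hcard' : (Finset.univ.filter (fun i => i ≠ 1 ∧ g' i ≠ 1)).card = n := by
        have : (Finset.univ.filter (fun i => i ≠ 1 ∧ g' i ≠ 1)) =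
            (Finset.univ.filter (fun i => i ≠ 1 ∧ g i ≠ 1)).erase a := by
          ext i
          simp only [Finset.mem_filter, Finset.mem_univ, true_and, Finset.mem_erase]
          constructor
          · rintro ⟨h1, h2⟩
            have hia : i ≠ a := by
              rintro rfl
              simp [g', h1] at h2
            refine ⟨hia, h1, ?_⟩
            simpa [g', h1, hia] using h2
          · rintro ⟨hia, h1, h2⟩
            refine ⟨h1, ?_⟩
            simpa [g', h1, hia] using h2
        rw [this, Finset.card_erase_of_mem (by simp [ha1, ha2]), hg]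
        omega
      have h6 : (⟨⟨g, 1⟩, h⟩ : kerW G P) = ⟨⟨g', 1⟩, hmem'⟩ * ⟨rho 1 a (g a), rho_mem _ _ _⟩⁻¹ :=
        Subtype.ext heq
      rw [h6, map_mul, map_inv, ih g' hcard' hmem', h1, inv_one, mul_one]
  exact hbase _ g rfl h

/-- Every homomorphism from `kerW G P` to an abelian group is trivial, if `P` is perfect. -/
theorem kerW_hom_trivial (hP : commutator P = ⊤) (hcard : 2 < Fintype.card P)
    {Y : Type*} [CommGroup Y] (q : kerW G P →* Y) (w : kerW G P) : q w = 1 := by
  classical
  have h3 : ∀ x : P, q ⟨inl x, inl_mem x⟩ = 1 := by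
    intro x
    let f : P →* Y := q.comp (MonoidHom.codRestrict inl (kerW G P) inl_mem)
    have h1 : f x = 1 := by
      have : x ∈ commutator P := by rw [hP]; trivial
      exact Abelianization.commutator_subset_ker f this
    exact h1
  have h1 : ∀ (a : P) (u : G), q ⟨rho 1 a u, rho_mem _ _ _⟩ = 1 := by
    intro a u
    have h2 : homA q u a = 1 := by
      have : a ∈ commutator P := by rw [hP]; trivial
      exact Abelianization.commutator_subset_ker (homA q u) this
    exact h2
  obtain ⟨w, hw⟩ := w
  have heq : w = ⟨w.left, 1⟩ * inl w.right := by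
    ext i <;> simp
  have hmem : (⟨w.left, 1⟩ : RegularWreathProduct G P) ∈ kerW G P := by
    have : (⟨w.left, 1⟩ : RegularWreathProduct G P) = w * (inl w.right)⁻¹ := by
      rw [eq_mul_inv_iff_mul_eq, ← heq]
    rw [this]
    exact mul_mem hw (inv_mem (inl_mem _))
  have h7 : (⟨w, hw⟩ : kerW G P) = ⟨⟨w.left, 1⟩, hmem⟩ * ⟨inl w.right, inl_mem _⟩ :=
    Subtype.ext heq
  rw [h7, map_mul, hom_base hcard q h1, h3, one_mul]

/-- A homomorphism from `kerW G P` to an abelian group is trivial on the base group, if `|P|` is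
prime to the order of `G^ab`. -/
theorem kerW_hom_coprime (hcop : (Fintype.card P).Coprime (Nat.card (Abelianization G)))
    (hcard : 2 < Fintype.card P) {Y : Type*} [CommGroup Y] (q : kerW G P →* Y) (w : kerW G P)
    (hw : (w : RegularWreathProduct G P).right = 1) : q w = 1 := by
  classical
  have hdltj : ∀ (a : P) {c : G} (_ : c ∈ commutator G), ∃ h : dlt a c ∈ kerW G P,
      q ⟨dlt a c, h⟩ = 1 := by
    intro a c hc
    obtain ⟨h, h1⟩ := hom_dlt hcard q hc
    have h2 : dlt a c = inl a * dlt 1 c * (inl a)⁻¹ := by rw [inl_conj, mul_one]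
    have hmem : dlt a c ∈ kerW G P := by
      rw [h2]; exact mul_mem (mul_mem (inl_mem a) h) (inv_mem (inl_mem a))
    refine ⟨hmem, ?_⟩
    have h3 : (⟨dlt a c, hmem⟩ : kerW G P) =
        ⟨inl a, inl_mem a⟩ * ⟨dlt 1 c, h⟩ * ⟨inl a, inl_mem a⟩⁻¹ := Subtype.ext h2
    rw [h3, map_mul, map_mul, map_inv, h1, mul_one, mul_inv_cancel]
  have h1 : ∀ (a : P) (u : G), q ⟨rho 1 a u, rho_mem _ _ _⟩ = 1 := by
    intro a u
    by_cases ha : a = 1
    · subst ha
      have : (⟨rho 1 1 u, rho_mem _ _ _⟩ : kerW G P) = 1 := by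
        apply Subtype.ext
        change rho 1 1 u = 1
        rw [rho, mul_inv_cancel]
      rw [this, map_one]
    -- a homomorphism in `u`
    let f : G →* Y :=
      { toFun := fun u => q ⟨rho 1 a u, rho_mem _ _ _⟩
        map_one' := by
          have : (⟨rho 1 a 1, rho_mem _ _ _⟩ : kerW G P) = 1 := by
            apply Subtype.ext
            change rho 1 a 1 = 1
            rw [rho, dlt_one, dlt_one, inv_one, mul_one]
          rw [this, map_one]
        map_mul' := by
          intro u v
          have hc : ⁅u, v⁆ ∈ commutator G :=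
            Subgroup.commutator_mem_commutator (Subgroup.mem_top _) (Subgroup.mem_top _)
          obtain ⟨h2, h3⟩ := hdltj a hc
          have h4 : (⟨rho 1 a (u * v), rho_mem _ _ _⟩ : kerW G P) =
              ⟨rho 1 a u, rho_mem _ _ _⟩ * ⟨rho 1 a v, rho_mem _ _ _⟩ *
                ⟨dlt a ⁅u, v⁆, h2⟩⁻¹ := by
            apply Subtype.ext
            change rho 1 a (u * v) = rho 1 a u * rho 1 a v * (dlt a ⁅u, v⁆)⁻¹
            rw [dlt_inv]
            ext i
            · simp only [mul_left, Pi.mul_apply, rho_right, inv_one, one_mul, mul_right, mul_one]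
              by_cases hi : i = 1
              · subst hi
                rw [rho_left_fst (Ne.symm ha), rho_left_fst (Ne.symm ha),
                  rho_left_fst (Ne.symm ha), dlt_left_ne (Ne.symm ha), mul_one]
              · by_cases hia : i = a
                · subst hia
                  rw [rho_left_snd (Ne.symm ha), rho_left_snd (Ne.symm ha),
                    rho_left_snd (Ne.symm ha), dlt_left_self, commutatorElement_def]
                  group
                · rw [rho_left_ne hi hia, rho_left_ne hi hia, rho_left_ne hi hia,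
                    dlt_left_ne hia]
                  simp
            · simp [rho_right, dlt_right]
          change q _ = q _ * q _
          rw [h4, map_mul, map_mul, map_inv, h3, inv_one, mul_one] }
    have h2 : (q ⟨rho 1 a u, rho_mem _ _ _⟩) ^ Fintype.card P = 1 := by
      rw [← homA_apply, ← map_pow, pow_card_eq_one, map_one]
    have h3 : (q ⟨rho 1 a u, rho_mem _ _ _⟩) ^ Nat.card (Abelianization G) = 1 := by
      have h4 : f u = Abelianization.lift f (Abelianization.of u) := by simp
      change f u ^ _ = 1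
      rw [h4, ← map_pow, pow_card_eq_one', map_one]
    have h4 : orderOf (q ⟨rho 1 a u, rho_mem _ _ _⟩) ∣ 1 := by
      rw [← hcop]
      exact Nat.dvd_gcd (orderOf_dvd_of_pow_eq_one h2) (orderOf_dvd_of_pow_eq_one h3)
    exact orderOf_eq_one_iff.1 (Nat.dvd_one.1 h4)
  obtain ⟨w, hwm⟩ := w
  have heq : w = ⟨w.left, 1⟩ := by
    ext i
    · rfl
    · exact hw
  have hmem : (⟨w.left, 1⟩ : RegularWreathProduct G P) ∈ kerW G P := by
    rw [← heq]; exact hwm
  have h7 : (⟨w, hwm⟩ : kerW G P) = ⟨⟨w.left, 1⟩, hmem⟩ := Subtype.ext heq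
  rw [h7]
  exact hom_base hcard q h1 _ _

theorem kerW_perfect (hP : commutator P = ⊤) (hcard : 2 < Fintype.card P) :
    commutator (kerW G P) = ⊤ := by
  rw [eq_top_iff]
  intro w _
  have h := kerW_hom_trivial hP hcard (Abelianization.of : kerW G P →* _) w
  have : w ∈ (Abelianization.of : kerW G P →* _).ker := h
  rwa [Abelianization.ker_of] at this

theorem simple_perfect [IsSimpleGroup P] (hnc : ∃ a b : P, a * b ≠ b * a) : commutator P = ⊤ := by
  rcases IsSimpleGroup.eq_bot_or_eq_top_of_normal (commutator P) inferInstance with h | h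
  · exfalso
    obtain ⟨a, b, hab⟩ := hnc
    have : ⁅a, b⁆ ∈ commutator P :=
      Subgroup.commutator_mem_commutator (Subgroup.mem_top a) (Subgroup.mem_top b)
    rw [h, Subgroup.mem_bot, commutatorElement_eq_one_iff_mul_comm] at this
    exact hab this
  · exact h

theorem kerW_topIs [IsSimpleGroup P] (hcard : 4 < Fintype.card P)
    (hcop : (∃ a b : P, a * b ≠ b * a) ∨
      (Fintype.card P).Coprime (Nat.card (Abelianization G))) : TopIs P (kerW G P) := by
  classical
  have hker : ∀ w : kerW G P, (w : RegularWreathProduct G P).right = 1 →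
      w ∈ commutator (kerW G P) := by
    intro w hw
    rcases hcop with hnc | hcop
    · rw [kerW_perfect (simple_perfect hnc) (by omega)]
      trivial
    · have h := kerW_hom_coprime hcop (by omega) (Abelianization.of : kerW G P →* _) w hw
      have : w ∈ (Abelianization.of : kerW G P →* _).ker := h
      rwa [Abelianization.ker_of] at this
  let ψ : kerW G P →* P := (rightHom : RegularWreathProduct G P →* P).comp (kerW G P).subtype
  have hψ : Function.Surjective ψ := fun x => ⟨⟨inl x, inl_mem x⟩, rfl⟩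
  refine ⟨ψ.ker, inferInstance, ?_, ?_, ⟨QuotientGroup.quotientKerEquivOfSurjective ψ hψ⟩⟩
  · intro htop
    have h1 : ∀ x : P, x = 1 := fun x => by
      obtain ⟨w, rfl⟩ := hψ x
      have : w ∈ ψ.ker := by rw [htop]; trivial
      exact this
    have h2 : Fintype.card P ≤ 1 := Fintype.card_le_one_iff.2 (fun a b => by rw [h1 a, h1 b])
    omega
  · intro M hM hMtop
    by_contra hle
    apply hMtop
    -- an element of `M` with nontrivial right part
    obtain ⟨m, hmM, hm⟩ : ∃ m ∈ M, ψ m ≠ 1 := by
      by_contra hcon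
      push Not at hcon
      exact hle (fun m hm => hcon m hm)
    have hmap : M.map ψ = ⊤ := by
      have hn : (M.map ψ).Normal := hM.map ψ hψ
      rcases IsSimpleGroup.eq_bot_or_eq_top_of_normal (M.map ψ) hn with h | h
      · exfalso
        have : ψ m ∈ M.map ψ := ⟨m, hmM, rfl⟩
        rw [h, Subgroup.mem_bot] at this
        exact hm this
      · exact h
    -- (a)
    have hcm : ∀ {x y : kerW G P}, x ∈ M → x * y * x⁻¹ * y⁻¹ ∈ M := by
      intro x y hx
      have : x * y * x⁻¹ * y⁻¹ = x * (y * x⁻¹ * y⁻¹) := by group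
      rw [this]
      exact mul_mem hx (hM.conj_mem _ (inv_mem hx) y)
    have hδ : ∀ (i : P) (u v : G), ∃ h : dlt i (u * v * u⁻¹ * v⁻¹) ∈ kerW G P,
        (⟨dlt i (u * v * u⁻¹ * v⁻¹), h⟩ : kerW G P) ∈ M := by
      intro i u v
      set x : P := (m : RegularWreathProduct G P).right with hx
      have hx1 : x ≠ 1 := hm
      obtain ⟨j, hj1, hj2⟩ : ∃ j : P, j ≠ i ∧ x * j ≠ i := by
        have hc : ({i, x⁻¹ * i} : Finset P).card < (Finset.univ : Finset P).card :=
          lt_of_le_of_lt Finset.card_le_two (by rw [Finset.card_univ]; omega)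
        obtain ⟨j, -, hj⟩ := Finset.exists_mem_notMem_of_card_lt_card hc
        simp only [Finset.mem_insert, Finset.mem_singleton, not_or] at hj
        exact ⟨j, hj.1, fun h => hj.2 (by rw [← h]; group)⟩
      obtain ⟨l, hl1, hl2, hl3, hl4⟩ : ∃ l : P, l ≠ i ∧ l ≠ j ∧ l ≠ x * i ∧ l ≠ x * j := by
        have hc : ({i, j, x * i, x * j} : Finset P).card < (Finset.univ : Finset P).card :=
          lt_of_le_of_lt Finset.card_le_four (by rw [Finset.card_univ]; omega)
        obtain ⟨l, -, hl⟩ := Finset.exists_mem_notMem_of_card_lt_card hc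
        simp only [Finset.mem_insert, Finset.mem_singleton, not_or] at hl
        exact ⟨l, hl.1, hl.2.1, hl.2.2.1, hl.2.2.2⟩
      have hxi : x * i ≠ i := fun h => hx1 (by simpa using h)
      let r : kerW G P := ⟨rho i j u⁻¹, rho_mem _ _ _⟩
      let s : kerW G P := ⟨rho i l v, rho_mem _ _ _⟩
      let c1 : kerW G P := m * r * m⁻¹ * r⁻¹
      have hc1M : c1 ∈ M := hcm hmM
      have hc2M : c1 * s * c1⁻¹ * s⁻¹ ∈ M := hcm hc1M
      have hc1r : (c1 : RegularWreathProduct G P).right = 1 := by
        simp [c1, r, rho_right]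
      have hc1i : ∀ t : P, (c1 : RegularWreathProduct G P).left t =
          (m : RegularWreathProduct G P).left t * (rho i j u⁻¹).left (x⁻¹ * t) *
            ((m : RegularWreathProduct G P).left t)⁻¹ * ((rho i j u⁻¹).left t)⁻¹ := by
        intro t
        simp [c1, r, rho_right, ← hx]
      have heq : ((c1 * s * c1⁻¹ * s⁻¹ : kerW G P) : RegularWreathProduct G P) =
          dlt i (u * v * u⁻¹ * v⁻¹) := by
        have h0 : ((c1 * s * c1⁻¹ * s⁻¹ : kerW G P) : RegularWreathProduct G P) =
          (c1 : RegularWreathProduct G P) * rho i l v * (c1 : RegularWreathProduct G P)⁻¹ *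
            (rho i l v)⁻¹ := rfl
        rw [h0]
        ext t
        · rw [base_comm_left hc1r (rho_right _ _ _)]
          by_cases hti : t = i
          · subst hti
            rw [dlt_left_self, rho_left_fst hl1.symm, hc1i, rho_left_fst hj1.symm]
            have h1 : x⁻¹ * t ≠ t := fun h => hxi (by
              conv_lhs => rw [← h]
              group)
            have h2 : x⁻¹ * t ≠ j := fun h => hj2 (by rw [← h]; group)
            rw [rho_left_ne h1 h2]
            group
          · rw [dlt_left_ne hti]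
            by_cases htl : t = l
            · subst htl
              rw [hc1i]
              have h1 : x⁻¹ * t ≠ i := fun h => hl3 (by rw [← h]; group)
              have h2 : x⁻¹ * t ≠ j := fun h => hl4 (by rw [← h]; group)
              rw [rho_left_ne h1 h2, rho_left_ne hl1 hl2]
              group
            · rw [rho_left_ne hti htl]
              group
        · simp [hc1r, rho_right, dlt_right]
      exact ⟨by rw [← heq]; exact (c1 * s * c1⁻¹ * s⁻¹ : kerW G P).2, by
        have : (⟨dlt i (u * v * u⁻¹ * v⁻¹), by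
            rw [← heq]; exact (c1 * s * c1⁻¹ * s⁻¹ : kerW G P).2⟩ : kerW G P) =
            c1 * s * c1⁻¹ * s⁻¹ := Subtype.ext heq.symm
        rw [this]; exact hc2M⟩
    -- (b2)
    have hbc : ∀ (g h : P → G), ∀ S : Finset P,
        ∃ hh : (⟨fun i => if i ∈ S then g i * h i * (g i)⁻¹ * (h i)⁻¹ else 1, 1⟩ :
          RegularWreathProduct G P) ∈ kerW G P, (⟨_, hh⟩ : kerW G P) ∈ M := by
      intro g h S
      induction S using Finset.induction_on with
      | empty =>
        have h1 : (⟨fun i => if i ∈ (∅ : Finset P) then g i * h i * (g i)⁻¹ * (h i)⁻¹ else 1, 1⟩ :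
          RegularWreathProduct G P) = 1 := by
          ext i <;> simp
        have hh : (⟨fun i => if i ∈ (∅ : Finset P) then g i * h i * (g i)⁻¹ * (h i)⁻¹ else 1, 1⟩ :
          RegularWreathProduct G P) ∈ kerW G P := by rw [h1]; exact one_mem _
        refine ⟨hh, ?_⟩
        have h2 : (⟨_, hh⟩ : kerW G P) = 1 := Subtype.ext h1
        rw [h2]; exact one_mem _
      | insert a S ha ih =>
        obtain ⟨h1, h2⟩ := ih
        obtain ⟨h3, h4⟩ := hδ a (g a) (h a)
        have h5 : (⟨fun i => if i ∈ insert a S then g i * h i * (g i)⁻¹ * (h i)⁻¹ else 1, 1⟩ :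
          RegularWreathProduct G P) =
            ⟨fun i => if i ∈ S then g i * h i * (g i)⁻¹ * (h i)⁻¹ else 1, 1⟩ *
              dlt a (g a * h a * (g a)⁻¹ * (h a)⁻¹) := by
          ext i
          · simp only [mul_left, Pi.mul_apply, inv_one, one_mul]
            by_cases hi : i = a
            · subst hi
              rw [dlt_left_self]
              simp [ha]
            · rw [dlt_left_ne hi]
              simp [hi]
          · simp [dlt_right]
        have hh : (⟨fun i => if i ∈ insert a S then g i * h i * (g i)⁻¹ * (h i)⁻¹ else 1, 1⟩ :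
          RegularWreathProduct G P) ∈ kerW G P := by rw [h5]; exact mul_mem h1 h3
        refine ⟨hh, ?_⟩
        have h6 : (⟨_, hh⟩ : kerW G P) = ⟨_, h1⟩ * ⟨_, h3⟩ := Subtype.ext h5
        rw [h6]; exact mul_mem h2 h4
    have hNN : ∀ n1 n2 : kerW G P, ψ n1 = 1 → ψ n2 = 1 → ⁅n1, n2⁆ ∈ M := by
      intro n1 n2 h1 h2
      obtain ⟨hh, hM'⟩ := hbc (n1 : RegularWreathProduct G P).left
        (n2 : RegularWreathProduct G P).left Finset.univ
      have h3 : ⁅n1, n2⁆ = ⟨_, hh⟩ := by
        apply Subtype.ext
        change (n1 : RegularWreathProduct G P) * n2 * (n1 : RegularWreathProduct G P)⁻¹ *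
          (n2 : RegularWreathProduct G P)⁻¹ = _
        have h1' : (n1 : RegularWreathProduct G P).right = 1 := h1
        have h2' : (n2 : RegularWreathProduct G P).right = 1 := h2
        ext i
        · rw [base_comm_left h1' h2']
          simp
        · simp [h1', h2']
      rw [h3]; exact hM'
    have hall : ∀ a b : kerW G P, ⁅a, b⁆ ∈ M := by
      intro a b
      have hex : ∀ a : kerW G P, ∃ m ∈ M, ψ (m⁻¹ * a) = 1 := by
        intro a
        have : ψ a ∈ M.map ψ := by rw [hmap]; trivial
        obtain ⟨m, hm, hma⟩ := this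
        exact ⟨m, hm, by rw [map_mul, map_inv, hma, inv_mul_cancel]⟩
      obtain ⟨ma, hma, ha⟩ := hex a
      obtain ⟨mb, hmb, hb⟩ := hex b
      have h1 := hNN _ _ ha hb
      rw [← QuotientGroup.eq_one_iff] at h1 ⊢
      have hma' : ((ma : kerW G P) : kerW G P ⧸ M) = 1 := (QuotientGroup.eq_one_iff _).2 hma
      have hmb' : ((mb : kerW G P) : kerW G P ⧸ M) = 1 := (QuotientGroup.eq_one_iff _).2 hmb
      have h2 : (((ma⁻¹ * a : kerW G P)) : kerW G P ⧸ M) = (a : kerW G P ⧸ M) := by
        rw [QuotientGroup.mk_mul, QuotientGroup.mk_inv, hma', inv_one, one_mul]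
      have h3 : (((mb⁻¹ * b : kerW G P)) : kerW G P ⧸ M) = (b : kerW G P ⧸ M) := by
        rw [QuotientGroup.mk_mul, QuotientGroup.mk_inv, hmb', inv_one, one_mul]
      have h4 : ∀ x y : kerW G P, ((⁅x, y⁆ : kerW G P) : kerW G P ⧸ M) =
          ⁅(x : kerW G P ⧸ M), (y : kerW G P ⧸ M)⁆ := fun x y => rfl
      rw [h4] at h1 ⊢
      rwa [h2, h3] at h1
    have hcomM : commutator (kerW G P) ≤ M := by
      rw [commutator_def, Subgroup.commutator_le]
      intro a _ b _
      exact hall a b
    rw [eq_top_iff]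
    intro x _
    have : ψ x ∈ M.map ψ := by rw [hmap]; trivial
    obtain ⟨m', hm', hmx⟩ := this
    have h1 : ψ (m'⁻¹ * x) = 1 := by rw [map_mul, map_inv, hmx, inv_mul_cancel]
    have h2 : m'⁻¹ * x ∈ M := hcomM (hker _ h1)
    have h3 : x = m' * (m'⁻¹ * x) := by group
    rw [h3]
    exact mul_mem hm' h2

end

end Pool.Agent.MP_a15589_al
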