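import Pool.Agent.MP_a15589_al.Dim

/-!
# The block of the normal subgroup of the wreath product
-/

set_option autoImplicit false

namespace Pool.Agent.MP_a15589_al

open MonoidAlgebra Module RegularWreathProduct

section Transversal

variable {k X : Type*} [Field k] [Group X] [Fintype X]

theorem finsum_transversal {L : Subgroup X} {A : MonoidAlgebra k X} (hA : ∀ l ∈ L, cj l A = A)
    {T' : Type*} [Fintype T'] (s : T' → X)
    (hs : Function.Bijective (fun t => (s t : X ⧸ L))) :
    ∑ᶠ x : X ⧸ L, cj (Quotient.out x) A = ∑ t, cj (s t) A := by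
  classical
  have : Fintype (X ⧸ L) := Fintype.ofFinite _
  rw [finsum_eq_sum_of_fintype,
    ← Equiv.sum_comp (Equiv.ofBijective _ hs) (fun x : X ⧸ L => cj (Quotient.out x) A)]
  refine Finset.sum_congr rfl (fun t _ => ?_)
  change cj (Quotient.out (s t : X ⧸ L)) A = cj (s t) A
  have h1 : ((Quotient.out (s t : X ⧸ L) : X) : X ⧸ L) = (s t : X ⧸ L) :=
    QuotientGroup.out_eq' _
  rw [QuotientGroup.eq] at h1
  have h2 := hA _ h1
  calc cj (Quotient.out (s t : X ⧸ L)) A = cj (Quotient.out (s t : X ⧸ L))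
        (cj ((Quotient.out (s t : X ⧸ L))⁻¹ * s t) A) := by rw [h2]
    _ = cj (s t) A := by rw [cj_cj, mul_inv_cancel_left]

end Transversal

section LT

variable {k G P : Type*} [Field k] [Group G] [Fintype G] [Group P] [Fintype P]

/-- The subgroup `D^P ⋊ T` of `G ≀ P`. -/
def LT (D : Subgroup G) (T : Subgroup P) : Subgroup (RegularWreathProduct G P) where
  carrier := {w | (∀ i, w.left i ∈ D) ∧ w.right ∈ T}
  one_mem' := ⟨fun _ => D.one_mem, T.one_mem⟩
  mul_mem' := by
    rintro v w ⟨hv1, hv2⟩ ⟨hw1, hw2⟩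
    exact ⟨fun i => D.mul_mem (hv1 i) (hw1 _), T.mul_mem hv2 hw2⟩
  inv_mem' := by
    rintro v ⟨hv1, hv2⟩
    exact ⟨fun i => D.inv_mem (hv1 _), T.inv_mem hv2⟩

theorem mem_LT {D : Subgroup G} {T : Subgroup P} {w : RegularWreathProduct G P} :
    w ∈ LT D T ↔ (∀ i, w.left i ∈ D) ∧ w.right ∈ T := Iff.rfl

theorem card_LT_le (D : Subgroup G) (T : Subgroup P) :
    Nat.card (LT D T) ≤ Nat.card D ^ Nat.card P * Nat.card T := by
  have h1 : Nat.card ((P → D) × T) = Nat.card D ^ Nat.card P * Nat.card T := by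
    rw [Nat.card_prod, Nat.card_fun]
  rw [← h1]
  refine Nat.card_le_card_of_injective (fun w : LT D T =>
    ((fun i => ⟨(w : RegularWreathProduct G P).left i, w.2.1 i⟩, ⟨_, w.2.2⟩) : (P → D) × T)) ?_
  intro v w h
  have h2 := congrArg Prod.fst h
  have h3 := congrArg Prod.snd h
  apply Subtype.ext
  apply RegularWreathProduct.ext
  · funext i
    exact congrArg Subtype.val (congrFun h2 i)
  · exact congrArg Subtype.val h3

theorem trace_pw {e : MonoidAlgebra k G} {D : Subgroup G} (hD : IsTraceFrom e D)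
    (T : Subgroup P) (hT : ((Nat.card (P ⧸ T) : ℕ) : k) ≠ 0) :
    ∃ A : MonoidAlgebra k (RegularWreathProduct G P),
      SuppIn (baseGp G P : Set (RegularWreathProduct G P)) A ∧
      (∀ l ∈ LT D T, cj l A = A) ∧
      pw (fun _ : P => e) = ∑ᶠ x : RegularWreathProduct G P ⧸ LT D T, cj (Quotient.out x) A := by
  classical
  obtain ⟨a, ha, hea⟩ := hD
  have haD : ∀ d ∈ D, cj d a = a := fun d hd => (cj_eq_iff d a).2 (ha d hd)
  have : Fintype (G ⧸ D) := Fintype.ofFinite _
  have : Fintype (P ⧸ T) := Fintype.ofFinite _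
  have hea' : e = ∑ x : G ⧸ D, cj (Quotient.out x) a := by
    rw [hea, finsum_eq_sum_of_fintype]; rfl
  set c : k := ((Nat.card (P ⧸ T) : ℕ) : k) with hc
  have hinv : ∀ l ∈ LT D T, cj l (c⁻¹ • pw (fun _ : P => a)) = c⁻¹ • pw (fun _ : P => a) := by
    rintro l ⟨hl, _⟩
    rw [cj_smul, cj_pw]
    congr 2
    funext i
    exact haD _ (hl i)
  refine ⟨c⁻¹ • pw (fun _ => a), (suppIn_pw _).smul _, hinv, ?_⟩
  let s : (P → G ⧸ D) × (P ⧸ T) → RegularWreathProduct G P := fun ts =>
    ⟨fun i => Quotient.out (ts.1 i), Quotient.out ts.2⟩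
  have hs : Function.Bijective
      (fun ts => (s ts : RegularWreathProduct G P ⧸ LT D T)) := by
    constructor
    · rintro ⟨t, x⟩ ⟨t', x'⟩ h
      have h1 := QuotientGroup.eq.1 h
      have h2 : x = x' := by
        have h3 := h1.2
        change (Quotient.out x)⁻¹ * (Quotient.out x') ∈ T at h3
        rw [← QuotientGroup.eq, QuotientGroup.out_eq', QuotientGroup.out_eq'] at h3
        exact h3
      subst h2
      have h4 : t = t' := by
        funext j
        have h5 := h1.1 ((Quotient.out x)⁻¹ * j)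
        simp only [s, mul_left, inv_left, inv_right, Pi.mul_apply, Pi.inv_apply, inv_inv,
          mul_inv_cancel_left] at h5
        rw [← QuotientGroup.eq, QuotientGroup.out_eq', QuotientGroup.out_eq'] at h5
        exact h5
      rw [h4]
    · intro q
      obtain ⟨w, rfl⟩ := QuotientGroup.mk_surjective q
      refine ⟨(fun i => (w.left i : G ⧸ D), (w.right : P ⧸ T)), ?_⟩
      apply QuotientGroup.eq.2
      refine ⟨fun i => ?_, ?_⟩
      · simp only [s, mul_left, inv_left, inv_right, Pi.mul_apply, Pi.inv_apply, inv_inv]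
        rw [← QuotientGroup.eq, QuotientGroup.out_eq']
      · change (Quotient.out (w.right : P ⧸ T))⁻¹ * w.right ∈ T
        rw [← QuotientGroup.eq, QuotientGroup.out_eq']
  rw [finsum_transversal hinv s hs, Fintype.sum_prod_type]
  have h6 : ∀ (t : P → G ⧸ D) (x : P ⧸ T), cj (s (t, x)) (c⁻¹ • pw (fun _ : P => a)) =
      c⁻¹ • pw (fun i => cj (Quotient.out (t i)) a) := by
    intro t x
    rw [cj_smul, cj_pw]
  simp only [h6]
  simp only [Finset.sum_const, Finset.card_univ]
  rw [← Finset.smul_sum, ← Finset.smul_sum]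
  rw [hea', pw_sum]
  rw [← Nat.card_eq_fintype_card, ← Nat.cast_smul_eq_nsmul k, smul_smul, ← hc, mul_inv_cancel₀ hT,
    one_smul]

end LT

section Homog

variable {k G Γ : Type*} [Field k] [Group G] [Fintype G] [CommGroup Γ] [Fintype Γ]

theorem exists_homog {e : MonoidAlgebra k G} (he : IsBlock e) (π : G →* Γ) :
    ∃ (d : ℕ) (zz : Fin d → MonoidAlgebra k G) (γ : Fin d → Γ) (j0 : Fin d),
      γ j0 = 1 ∧ (∀ j g, cj g (zz j) = zz j) ∧ (∀ j, SuppIn {g | π g = γ j} (zz j)) ∧
      LinearIndependent k (fun j => zz j * e) ∧ Fintype.card (Fin d) = blockDim e := by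
  classical
  let W := {p : MonoidAlgebra k G × Γ // (∀ g, cj g p.1 = p.1) ∧ SuppIn {g | π g = p.2} p.1}
  let v : W → MonoidAlgebra k G := fun p => p.1.1 * e
  let w0 : W := ⟨(1, 1), cj_one, suppIn_one (by simp)⟩
  have hv0 : v w0 ≠ 0 := by
    change (1 : MonoidAlgebra k G) * e ≠ 0
    rw [one_mul]; exact he.ne_zero
  have hs0 : LinearIndepOn k v {w0} := LinearIndepOn.singleton hv0
  obtain ⟨b, -, hb0, hbspan, hbli⟩ := exists_linearIndepOn_extension hs0 (Set.subset_univ _)
  have hbli' : LinearIndependent k (fun x : b => v x) := hbli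
  have : Finite b := hbli'.finite
  have : Fintype b := Fintype.ofFinite _
  let φ : b ≃ Fin (Fintype.card b) := Fintype.equivFin b
  refine ⟨Fintype.card b, fun j => (φ.symm j).1.1.1, fun j => (φ.symm j).1.1.2,
    φ ⟨w0, hb0 rfl⟩, by simp [w0], fun j => (φ.symm j).1.2.1,
    fun j => (φ.symm j).1.2.2, hbli'.comp _ φ.symm.injective, ?_⟩
  rw [Fintype.card_fin]
  have h1 : finrank k (Submodule.span k (Set.range (fun x : b => v x))) = Fintype.card b :=
    finrank_span_eq_card hbli'
  have hspaneq : Submodule.span k (Set.range (fun x : b => v x)) =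
      Submodule.map (LinearMap.mulRight k e)
        (Subalgebra.toSubmodule (Subalgebra.center k (MonoidAlgebra k G))) := by
    apply le_antisymm
    · rw [Submodule.span_le]
      rintro _ ⟨x, rfl⟩
      refine ⟨x.1.1.1, ?_, rfl⟩
      change x.1.1.1 ∈ Subalgebra.center k (MonoidAlgebra k G)
      rw [Subalgebra.mem_center_iff]
      intro y
      exact commute_of_supp (N := Set.univ) (fun _ h => absurd (Set.mem_univ _) h)
        (fun n _ => (cj_eq_iff n _).1 (x.1.2.1 n))
    · rintro _ ⟨z, hz, rfl⟩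
      have hz' : ∀ y, y * z = z * y := by
        have : z ∈ Subalgebra.center k (MonoidAlgebra k G) := hz
        rwa [Subalgebra.mem_center_iff] at this
      have hzcj : ∀ g, cj g z = z := fun g => (cj_eq_iff g z).2 (hz' _)
      have hsum : z = ∑ γ : Γ, res {g | π g = γ} z := by
        ext g
        rw [coeff_sum, Finset.sum_apply', Finset.sum_eq_single (π g)]
        · rw [coeff_res_of_mem]; rfl
        · intro γ _ hγ
          rw [coeff_res_of_not_mem]
          exact fun h => hγ h.symm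
        · intro h; exact absurd (Finset.mem_univ _) h
      change z * e ∈ _
      rw [hsum, Finset.sum_mul]
      refine Submodule.sum_mem _ (fun γ _ => ?_)
      have hmem : (∀ g, cj g (res {g | π g = γ} z) = res {g | π g = γ} z) ∧
          SuppIn {g | π g = γ} (res {g | π g = γ} z) := by
        refine ⟨fun g => ?_, suppIn_res _ _⟩
        rw [← res_cj g (fun h => ?_), hzcj]
        simp only [Set.mem_ofPred_eq, map_mul, map_inv]
        rw [mul_comm, ← mul_assoc, mul_inv_cancel, one_mul]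
      have h2 : v ⟨(res {g | π g = γ} z, γ), hmem⟩ ∈ Submodule.span k (v '' b) :=
        hbspan ⟨_, Set.mem_univ _, rfl⟩
      rw [Set.image_eq_range] at h2
      exact h2
  rw [← h1, blockDim, hspaneq]

end Homog

section Final

variable {k G P Γ : Type*} [Field k] [IsAlgClosed k] [Group G] [Fintype G] [Group P] [Fintype P]
  [CommGroup Γ] [Fintype Γ]

omit [IsAlgClosed k] [Fintype Γ] [CommGroup Γ] in
theorem dl_eq_pw (g : P → G) : dl k (⟨g, 1⟩ : RegularWreathProduct G P) =
    pw (fun i => dl k (g i)) := by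
  classical
  ext w
  rw [dl, coeff_single, Finsupp.single_apply]
  by_cases hw : w.right = 1
  · rw [coeff_pw_of_eq _ hw]
    by_cases h1 : (⟨g, 1⟩ : RegularWreathProduct G P) = w
    · rw [if_pos h1]
      subst h1
      simp [dl]
    · rw [if_neg h1]
      have : ∃ i, g i ≠ w.left i := by
        by_contra hcon
        push Not at hcon
        exact h1 (RegularWreathProduct.ext (funext hcon) hw.symm)
      obtain ⟨i, hi⟩ := this
      symm
      refine Finset.prod_eq_zero (Finset.mem_univ i) ?_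
      rw [dl, coeff_single, Finsupp.single_apply, if_neg hi]
  · rw [coeff_pw_of_ne _ hw, if_neg]
    rintro rfl
    exact hw rfl

omit [IsAlgClosed k] [Fintype Γ] [CommGroup Γ] in
theorem pw_smul (c : k) (a : P → MonoidAlgebra k G) :
    pw (fun i => c • a i) = c ^ Fintype.card P • pw a := by
  ext w
  by_cases hw : w.right = 1
  · rw [coeff_smul, Finsupp.smul_apply, coeff_pw_of_eq _ hw, coeff_pw_of_eq _ hw]
    simp only [coeff_smul, Finsupp.smul_apply, smul_eq_mul]
    rw [Finset.prod_mul_distrib, Finset.prod_const, Finset.card_univ]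
  · rw [coeff_smul, Finsupp.smul_apply, coeff_pw_of_ne _ hw, coeff_pw_of_ne _ hw, smul_zero]

omit [Fintype Γ] [CommGroup Γ] [Group P] [Fintype P] in
theorem central_scalar {e : MonoidAlgebra k G} (he : IsBlock e) {z0 : G}
    (hz0 : z0 ∈ Subgroup.center G) {n : ℕ} (hn : (n : k) ≠ 0) (hzn : z0 ^ n = 1) :
    ∃ c : k, c ^ n = 1 ∧ dl k z0 * e = c • e := by
  have hecj : ∀ g : G, cj g e = e := fun g => (cj_eq_iff g e).2 (he.central (dl k g))
  have hprimG : IsPrim (CZ k (⊤ : Subgroup G) ⊤) e := by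
    refine ⟨?_, he.idem, he.ne_zero, ?_⟩
    · rw [mem_CZ']
      exact ⟨fun g hg => absurd (Subgroup.mem_top g) hg, fun m _ => hecj m⟩
    · intro f hf hff
      exact he.prim f hff (fun x => central_comm hf x)
  have hzmem : dl k z0 ∈ CZ k (⊤ : Subgroup G) ⊤ := by
    refine ⟨fun g hg => absurd (Subgroup.mem_top g) hg, fun m _ => ?_⟩
    rw [← dl_mul, ← dl_mul]
    congr 1
    exact Subgroup.mem_center_iff.1 hz0 m
  have hcomm := CZ_comm (k := k) (le_refl (⊤ : Subgroup G))
  obtain ⟨c, hc⟩ := hprimG.loc hcomm hzmem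
  have hze : (dl k z0) ^ n * e = e := by rw [dl_pow, hzn, dl_one, one_mul]
  have hsub : ∀ d : k, (dl k z0 - algebraMap k _ d) * e ∈ CZ k (⊤ : Subgroup G) ⊤ := fun d =>
    mul_mem (sub_mem hzmem (Subalgebra.algebraMap_mem _ d)) hprimG.mem
  have hce : dl k z0 * e = c • e + (dl k z0 - algebraMap k _ c) * e := by
    rw [sub_mul, ← Algebra.smul_def]; abel
  have hc0 : c ≠ 0 := by
    rintro rfl
    rw [map_zero, sub_zero] at hc
    have h1 : IsNilpotent ((dl k z0) ^ n * e) := by
      by_cases hn0 : n = 0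
      · subst hn0; simp at hn
      · obtain ⟨j, hj⟩ := hc
        refine ⟨j, ?_⟩
        have h2 : Commute (dl k z0) e := hcomm _ hzmem _ hprimG.mem
        rw [h2.mul_pow] at hj
        rw [(h2.pow_left n).mul_pow, ← pow_mul, mul_comm n j, pow_mul]
        obtain ⟨n', rfl⟩ : ∃ n', n = n' + 1 := ⟨n - 1, by omega⟩
        rw [pow_succ, mul_assoc, hj, mul_zero]
    rw [hze] at h1
    exact idem_pow he.idem he.ne_zero h1
  set ν := (c⁻¹ • dl k z0 - 1) * e with hνdef
  have hνnil : IsNilpotent ν := by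
    have : ν = c⁻¹ • ((dl k z0 - algebraMap k _ c) * e) := by
      rw [hνdef, sub_mul, sub_mul, one_mul, smul_sub, smul_mul_assoc, ← Algebra.smul_def,
        smul_smul, inv_mul_cancel₀ hc0, one_smul]
    rw [this]
    obtain ⟨j, hj⟩ := hc
    exact ⟨j, by rw [smul_pow, hj, smul_zero]⟩
  have hνe : ν * e = ν := by rw [hνdef, mul_assoc, he.idem.eq]
  have hc2 : Commute (dl k z0) e := hcomm _ hzmem _ hprimG.mem
  have h3 : ∀ j : ℕ, (1 + ν) ^ j * e = (c⁻¹ ^ j) • ((dl k z0) ^ j * e) := by
    intro j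
    induction j with
    | zero => simp
    | succ j ih =>
      have h4 : (1 + ν) * e = c⁻¹ • (dl k z0 * e) := by
        rw [add_mul, one_mul, hνe, hνdef, sub_mul, one_mul, smul_mul_assoc]; abel
      have h5 : e * dl k z0 = dl k z0 * e := hc2.eq.symm
      calc (1 + ν) ^ (j + 1) * e = (1 + ν) ^ j * ((1 + ν) * e) := by rw [pow_succ, mul_assoc]
        _ = c⁻¹ • (((1 + ν) ^ j * e) * dl k z0) := by
            rw [h4, mul_smul_comm, ← h5, mul_assoc]
        _ = c⁻¹ • (c⁻¹ ^ j • (dl k z0 ^ j * (e * dl k z0))) := by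
            rw [ih, smul_mul_assoc, mul_assoc]
        _ = c⁻¹ ^ (j + 1) • (dl k z0 ^ (j + 1) * e) := by
            rw [h5, smul_smul, pow_succ (dl k z0), mul_assoc, ← pow_succ']
  have h6 : (1 + ν) ^ n * e = (c⁻¹ ^ n) • e := by rw [h3, hze]
  -- `c ^ n = 1`
  have h7 : ∃ t, Commute ν t ∧ (1 + ν) ^ n = 1 + ν * t := by
    clear h6 hzn hn hze
    induction n with
    | zero => exact ⟨0, Commute.zero_right _, by simp⟩
    | succ i ih =>
      obtain ⟨t, ht, hti⟩ := ih
      refine ⟨t + 1 + ν * t, ?_, ?_⟩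
      · exact (ht.add_right (Commute.one_right _)).add_right
          ((Commute.refl ν).mul_right ht)
      · rw [pow_succ, hti]
        have : t * ν = ν * t := ht.eq.symm
        calc (1 + ν * t) * (1 + ν) = 1 + ν + ν * t + ν * (t * ν) := by noncomm_ring
          _ = 1 + ν * (t + 1 + ν * t) := by rw [this]; noncomm_ring
  obtain ⟨t, ht, hti⟩ := h7
  have h8 : (c⁻¹ ^ n - 1) • e = ν * t * e := by
    rw [sub_smul, one_smul, ← h6, hti, add_mul, one_mul]; abel
  have hce1 : c⁻¹ ^ n = 1 := by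
    by_contra hne
    have hne' : c⁻¹ ^ n - 1 ≠ 0 := sub_ne_zero.2 hne
    have h9 : IsNilpotent (ν * t * e) := by
      have hecen : ∀ x, Commute x e := fun x => he.central x
      refine Commute.isNilpotent_mul_right (hecen _) ?_
      exact ht.isNilpotent_mul_right hνnil
    rw [← h8] at h9
    obtain ⟨j, hj⟩ := h9
    rw [smul_pow] at hj
    exact idem_pow he.idem he.ne_zero ⟨j, (smul_eq_zero.1 hj).resolve_left (pow_ne_zero j hne')⟩
  rw [hce1, one_smul] at h6
  have h10 := unipotent_trivial (k := k) hνnil hn h6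
  rw [hνe, hνdef, sub_mul, one_mul, sub_eq_zero, smul_mul_assoc] at h10
  refine ⟨c, ?_, ?_⟩
  · rw [inv_pow, inv_eq_one] at hce1
    exact hce1
  · calc dl k z0 * e = c • (c⁻¹ • (dl k z0 * e)) := by
          rw [smul_smul, mul_inv_cancel₀ hc0, one_smul]
      _ = c • e := by rw [h10]

theorem wreath_step {e : MonoidAlgebra k G} (he : IsBlock e) {D : Subgroup G}
    (hD : IsTraceFrom e D) (π : G →* Γ) (T : Subgroup P)
    (hT : ((Nat.card (P ⧸ T) : ℕ) : k) ≠ 0) :
    ∃ b : MonoidAlgebra k (piHom π : RegularWreathProduct G P →* Γ).ker, IsBlock b ∧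
      (∃ Q : Subgroup (piHom π : RegularWreathProduct G P →* Γ).ker, IsTraceFrom b Q ∧
        ∃ f : Q →* LT D T, Function.Injective f) ∧
      (blockDim e ^ Fintype.card P ≤
        (Fintype.card Γ * blockDim e) ^ Fintype.card Γ * (Fintype.card P * blockDim b)) ∧
      (∀ z0 ∈ Subgroup.center G, ∀ z : (piHom π : RegularWreathProduct G P →* Γ).ker,
        (z : RegularWreathProduct G P) = ⟨fun _ => z0, 1⟩ →
        (∃ n : ℕ, (n : k) ≠ 0 ∧ z0 ^ n = 1 ∧ n ∣ Fintype.card P) → dl k z * b = b) := by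
  classical
  obtain ⟨A, hA1, hA2, hA3⟩ := trace_pw (P := P) hD T hT
  have hecj : ∀ g : G, cj g e = e := fun g => (cj_eq_iff g e).2 (he.central (dl k g))
  set E := pw (fun _ : P => e) with hE
  have hEE : E * E = E := by rw [hE, pw_mul]; simp only [he.idem.eq]
  have hEc : E ∈ CZ k (baseGp G P) (⊤ : Subgroup (RegularWreathProduct G P)) := by
    rw [mem_CZ']
    refine ⟨suppIn_pw _, fun m _ => ?_⟩
    rw [hE, cj_pw]
    simp only [hecj]
  have hE0 : E ≠ 0 := by
    intro h0
    have : ∃ g, e.coeff g ≠ 0 := by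
      by_contra hcon
      push Not at hcon
      apply he.ne_zero
      ext g
      exact hcon g
    obtain ⟨g, hg⟩ := this
    have h1 : E.coeff ⟨fun _ => g, 1⟩ = 0 := by rw [h0]; rfl
    rw [hE, coeff_pw_of_eq _ rfl] at h1
    simp only [Finset.prod_const] at h1
    exact hg (pow_eq_zero_iff (by simp)|>.1 h1)
  obtain ⟨b, hb, hQ, hdim, hcent⟩ := step_down (k := k) (piHom π) (baseGp G P) (LT D T) hEE hE0 hEc
    (fun f hf hff => pw_prim he (CZ_mono inf_le_left le_top hf) hff) hA1 hA2 hA3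
  refine ⟨b, hb, hQ, ?_, ?_⟩
  · obtain ⟨d, zz, γ, j0, h1, h2, h3, h4, h5⟩ := exists_homog he π
    have h6 := count_ge (P := P) γ j0 h1
    have h7 := dim_ge (P := P) π e zz γ h2 h3 h4
    rw [h5] at h6
    exact h6.trans (Nat.mul_le_mul_left _ (h7.trans (Nat.mul_le_mul_left _ hdim)))
  · rintro z0 hz0 z hz ⟨n, hn, hzn, hnP⟩
    have hconst : ∀ j : ℕ, (⟨fun _ => z0, 1⟩ : RegularWreathProduct G P) ^ j =
        ⟨fun _ => z0 ^ j, 1⟩ := by
      intro j
      induction j with
      | zero => ext i <;> simp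
      | succ j ih => rw [pow_succ, ih]; ext i <;> simp [pow_succ]
    apply hcent z
    · rw [hz]; exact mem_baseGp.2 rfl
    · rw [hz, Subgroup.mem_center_iff]
      intro w
      ext i
      · simp only [mul_left, Pi.mul_apply, inv_one, one_mul]
        exact Subgroup.mem_center_iff.1 hz0 (w.left i)
      · simp
    · refine ⟨n, hn, ?_⟩
      apply Subtype.ext
      change (z : RegularWreathProduct G P) ^ n = 1
      rw [hz, hconst, hzn]
      rfl
    · obtain ⟨c, hc1, hc2⟩ := central_scalar he hz0 hn hzn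
      rw [hz, dl_eq_pw, hE, pw_mul]
      simp only [hc2]
      rw [pw_smul]
      obtain ⟨j, hj⟩ := hnP
      rw [hj, pow_mul, hc1, one_pow, one_smul]

end Final

end Pool.Agent.MP_a15589_al
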