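import Pool.Agent.MP_a15589_al.Down

/-!
# Tensor powers inside the group algebra of a regular wreath product
-/

set_option autoImplicit false

namespace Pool.Agent.MP_a15589_al

open MonoidAlgebra Module RegularWreathProduct

noncomputable instance wrFintype {G P : Type*} [Group G] [Fintype G] [Group P] [Fintype P] :
    Fintype (RegularWreathProduct G P) := Fintype.ofFinite _

section Pw

variable {k G P : Type*} [Field k] [Group G] [Fintype G] [Group P] [Fintype P]

open Classical in
/-- The tensor product of the elements `a i` of `kG`, in the group algebra of `G ≀ P`. -/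
noncomputable def pw (a : P → MonoidAlgebra k G) : MonoidAlgebra k (RegularWreathProduct G P) :=
  ofCoeff (Finsupp.equivFunOnFinite.symm
    (fun w => if w.right = 1 then ∏ i, (a i).coeff (w.left i) else 0))

theorem coeff_pw_of_eq (a : P → MonoidAlgebra k G) {w : RegularWreathProduct G P}
    (hw : w.right = 1) : (pw a).coeff w = ∏ i, (a i).coeff (w.left i) := by
  simp [pw, hw]

theorem coeff_pw_of_ne (a : P → MonoidAlgebra k G) {w : RegularWreathProduct G P}
    (hw : w.right ≠ 1) : (pw a).coeff w = 0 := by
  simp [pw, hw]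

open Classical in
/-- Sums over the wreath product of functions supported on the base group. -/
theorem sum_base {M : Type*} [AddCommMonoid M] (f : RegularWreathProduct G P → M)
    (hf : ∀ w, w.right ≠ 1 → f w = 0) : ∑ w, f w = ∑ g : P → G, f ⟨g, 1⟩ := by
  classical
  rw [← Equiv.sum_comp (equivProd G P).symm f, Fintype.sum_prod_type]
  refine Finset.sum_congr rfl (fun g _ => ?_)
  rw [Finset.sum_eq_single (1 : P)]
  · rfl
  · intro x _ hx
    exact hf _ hx
  · intro h; exact absurd (Finset.mem_univ _) h

theorem pw_mul (a b : P → MonoidAlgebra k G) : pw a * pw b = pw (fun i => a i * b i) := by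
  classical
  ext w
  rw [mul_coeff, sum_base _ (fun h hh => by rw [coeff_pw_of_ne a hh, zero_mul])]
  by_cases hw : w.right = 1
  · rw [coeff_pw_of_eq _ hw]
    have h1 : ∀ g : P → G, (pw a).coeff ⟨g, 1⟩ * (pw b).coeff ((⟨g, 1⟩ : RegularWreathProduct G P)⁻¹ * w)
        = ∏ i, (a i).coeff (g i) * (b i).coeff ((g i)⁻¹ * w.left i) := by
      intro g
      rw [coeff_pw_of_eq _ rfl, coeff_pw_of_eq _ (by simp [hw]), ← Finset.prod_mul_distrib]
      simp
    rw [Finset.sum_congr rfl (fun g _ => h1 g)]
    simp only [mul_coeff]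
    rw [Finset.prod_univ_sum, Fintype.piFinset_univ]
  · rw [coeff_pw_of_ne _ hw]
    refine Finset.sum_eq_zero (fun g _ => ?_)
    rw [coeff_pw_of_ne b (by simpa using hw), mul_zero]

theorem pw_one : pw (fun _ : P => (1 : MonoidAlgebra k G)) = 1 := by
  classical
  ext w
  have hone : (1 : MonoidAlgebra k (RegularWreathProduct G P)).coeff w = if 1 = w then 1 else 0 := by
    rw [one_def, coeff_single, Finsupp.single_apply]
  rw [hone]
  by_cases hw : w.right = 1
  · rw [coeff_pw_of_eq _ hw]
    by_cases h1 : w = 1
    · rw [if_pos h1.symm]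
      subst h1
      simp
    · rw [if_neg (Ne.symm h1)]
      have : ∃ i, w.left i ≠ 1 := by
        by_contra hcon
        push Not at hcon
        exact h1 (RegularWreathProduct.ext (funext hcon) hw)
      obtain ⟨i, hi⟩ := this
      refine Finset.prod_eq_zero (Finset.mem_univ i) ?_
      rw [one_def, coeff_single, Finsupp.single_apply, if_neg (Ne.symm hi)]
  · rw [coeff_pw_of_ne _ hw, if_neg]
    rintro rfl
    exact hw rfl

theorem pw_pow (a : P → MonoidAlgebra k G) (n : ℕ) : pw a ^ n = pw (fun i => a i ^ n) := by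
  induction n with
  | zero => simp [pw_one]
  | succ n ih => simp only [pow_succ, ih, pw_mul]

theorem pw_eq_zero {a : P → MonoidAlgebra k G} {i : P} (hi : a i = 0) : pw a = 0 := by
  ext w
  by_cases hw : w.right = 1
  · rw [coeff_pw_of_eq _ hw, coeff_zero]
    exact Finset.prod_eq_zero (Finset.mem_univ i) (by simp [hi])
  · rw [coeff_pw_of_ne _ hw]; rfl

theorem cj_pw (w : RegularWreathProduct G P) (a : P → MonoidAlgebra k G) :
    cj w (pw a) = pw (fun i => cj (w.left i) (a (w.right⁻¹ * i))) := by
  ext h
  rw [coeff_cj]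
  by_cases hh : h.right = 1
  · rw [coeff_pw_of_eq _ (by simp [hh]), coeff_pw_of_eq _ hh]
    rw [← Equiv.prod_comp (Equiv.mulLeft w.right)
      (fun i => (cj (w.left i) (a (w.right⁻¹ * i))).coeff (h.left i))]
    refine Finset.prod_congr rfl (fun i _ => ?_)
    simp [hh, mul_assoc]
  · rw [coeff_pw_of_ne _ hh, coeff_pw_of_ne]
    simp only [mul_right, inv_right]
    intro hcon
    apply hh
    have := congrArg (fun t => w.right * t * w.right⁻¹) hcon
    simpa [mul_assoc] using this

/-- The base group. -/
def baseGp (G P : Type*) [Group G] [Group P] : Subgroup (RegularWreathProduct G P) :=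
  (rightHom : RegularWreathProduct G P →* P).ker

instance : (baseGp G P).Normal := by unfold baseGp; infer_instance

theorem mem_baseGp {w : RegularWreathProduct G P} : w ∈ baseGp G P ↔ w.right = 1 := Iff.rfl

theorem suppIn_pw (a : P → MonoidAlgebra k G) :
    SuppIn (baseGp G P : Set (RegularWreathProduct G P)) (pw a) :=
  fun _ hw => coeff_pw_of_ne a hw

open Classical in
theorem pw_update_sub (a : P → MonoidAlgebra k G) (i : P) (x y : MonoidAlgebra k G) (c : k) :
    pw (Function.update a i (x - c • y)) =
      pw (Function.update a i x) - c • pw (Function.update a i y) := by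
  ext w
  by_cases hw : w.right = 1
  · rw [coeff_sub, coeff_smul, Finsupp.sub_apply, Finsupp.smul_apply, coeff_pw_of_eq _ hw,
      coeff_pw_of_eq _ hw, coeff_pw_of_eq _ hw]
    rw [← Finset.mul_prod_erase _ _ (Finset.mem_univ i), ← Finset.mul_prod_erase _ _
      (Finset.mem_univ i), ← Finset.mul_prod_erase _ _ (Finset.mem_univ i)]
    have h1 : ∀ z : MonoidAlgebra k G, ∏ j ∈ Finset.univ.erase i,
        ((Function.update a i z) j).coeff (w.left j) =
        ∏ j ∈ Finset.univ.erase i, (a j).coeff (w.left j) := by
      intro z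
      refine Finset.prod_congr rfl (fun j hj => ?_)
      rw [Function.update_of_ne (Finset.ne_of_mem_erase hj)]
    rw [h1, h1, h1]
    simp only [Function.update_self, coeff_sub, coeff_smul, Finsupp.sub_apply, Finsupp.smul_apply,
      smul_eq_mul]
    ring
  · rw [coeff_sub, coeff_smul, Finsupp.sub_apply, Finsupp.smul_apply, coeff_pw_of_ne _ hw,
      coeff_pw_of_ne _ hw, coeff_pw_of_ne _ hw]
    simp

open Classical in
/-- Expansion of a tensor power of a sum. -/
theorem pw_sum {T : Type*} [Fintype T] (f : T → MonoidAlgebra k G) :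
    pw (fun _ : P => ∑ t, f t) = ∑ s : P → T, pw (fun i => f (s i)) := by
  classical
  ext w
  rw [coeff_sum, Finset.sum_apply']
  by_cases hw : w.right = 1
  · rw [coeff_pw_of_eq _ hw]
    simp only [coeff_sum, Finset.sum_apply']
    rw [Finset.prod_univ_sum, Fintype.piFinset_univ]
    exact Finset.sum_congr rfl (fun s _ => (coeff_pw_of_eq _ hw).symm)
  · rw [coeff_pw_of_ne _ hw]
    exact (Finset.sum_eq_zero (fun s _ => coeff_pw_of_ne _ hw)).symm

end Pw

section Primitive

variable {k G P : Type*} [Field k] [Group G] [Fintype G] [Group P] [Fintype P]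

open Classical in
/-- The sum of the elements of a conjugacy class. -/
noncomputable def clsum (C : ConjClasses G) : MonoidAlgebra k G :=
  ofCoeff (Finsupp.equivFunOnFinite.symm (fun g => if ConjClasses.mk g = C then 1 else 0))

open Classical in
theorem coeff_clsum (C : ConjClasses G) (g : G) :
    (clsum (k := k) C).coeff g = if ConjClasses.mk g = C then 1 else 0 := by
  simp [clsum]

theorem cj_clsum (C : ConjClasses G) (g : G) : cj g (clsum (k := k) C) = clsum C := by
  classical
  ext h
  rw [coeff_cj, coeff_clsum, coeff_clsum]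
  have : ConjClasses.mk (g⁻¹ * h * g) = ConjClasses.mk h := by
    rw [ConjClasses.mk_eq_mk_iff_isConj, isConj_iff]
    exact ⟨g, by group⟩
  rw [this]

/-- Elements of the base group algebra which commute with the base group are combinations of
tensor products of class sums. -/
theorem base_central_eq {z : MonoidAlgebra k (RegularWreathProduct G P)}
    (hz : z ∈ CZ k (baseGp G P) (baseGp G P)) :
    ∃ c : (P → ConjClasses G) → k, z = ∑ᶠ t, c t • pw (fun i => clsum (t i)) := by
  classical
  have : Fintype (ConjClasses G) := Fintype.ofFinite _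
  have : Fintype (P → ConjClasses G) := inferInstance
  refine ⟨fun t => z.coeff ⟨fun i => Quotient.out (t i), 1⟩, ?_⟩
  rw [finsum_eq_sum_of_fintype]
  ext w
  rw [coeff_sum, Finset.sum_apply']
  by_cases hw : w.right = 1
  · rw [Finset.sum_eq_single (fun i => ConjClasses.mk (w.left i))]
    · rw [coeff_smul, Finsupp.smul_apply, coeff_pw_of_eq _ hw]
      simp only [coeff_clsum, if_true, Finset.prod_const_one, smul_eq_mul, mul_one]
      have h1 : ∀ i, ∃ u : G, u * (Quotient.out (ConjClasses.mk (w.left i))) * u⁻¹ = w.left i := by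
        intro i
        have : ConjClasses.mk (Quotient.out (ConjClasses.mk (w.left i))) =
            ConjClasses.mk (w.left i) := Quotient.out_eq _
        rw [ConjClasses.mk_eq_mk_iff_isConj, isConj_iff] at this
        exact this
      choose u hu using h1
      have h2 : cj (⟨u, 1⟩ : RegularWreathProduct G P) z = z := (mem_CZ'.1 hz).2 _ rfl
      have h3 : z.coeff w = (cj (⟨u, 1⟩ : RegularWreathProduct G P) z).coeff w := by rw [h2]
      rw [h3, coeff_cj]
      congr 1
      ext i
      · simp only [mul_left, inv_left, inv_right, mul_right, Pi.mul_apply, Pi.inv_apply, one_mul,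
          inv_one, hw]
        conv_lhs => rw [← hu i]
        group
      · simp [hw]
    · intro t _ ht
      rw [coeff_smul, Finsupp.smul_apply, coeff_pw_of_eq _ hw]
      have : ∃ i, ConjClasses.mk (w.left i) ≠ t i := by
        by_contra hcon
        push Not at hcon
        exact ht (funext fun i => (hcon i).symm)
      obtain ⟨i, hi⟩ := this
      rw [Finset.prod_eq_zero (Finset.mem_univ i) (by rw [coeff_clsum, if_neg hi]), smul_zero]
    · intro h; exact absurd (Finset.mem_univ _) h
  · rw [hz.1 w hw]
    refine (Finset.sum_eq_zero (fun t _ => ?_)).symm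
    rw [coeff_smul, Finsupp.smul_apply, coeff_pw_of_ne _ hw, smul_zero]

/-- The tensor power of a primitive central idempotent behaves like a primitive idempotent. -/
theorem pw_loc [IsAlgClosed k] {e : MonoidAlgebra k G} (he : IsBlock e)
    {z : MonoidAlgebra k (RegularWreathProduct G P)}
    (hz : z ∈ CZ k (baseGp G P) (baseGp G P)) :
    ∃ c : k, IsNilpotent ((z - algebraMap k _ c) * pw (fun _ : P => e)) := by
  classical
  set E := pw (fun _ : P => e) with hE
  set S := CZ k (baseGp G P) (baseGp G P) with hS
  have hcomm := CZ_comm (k := k) (le_refl (baseGp G P))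
  have hecj : ∀ g : G, cj g e = e := fun g => (cj_eq_iff g e).2 (he.central (dl k g))
  have hEE : E * E = E := by rw [hE, pw_mul]; simp only [he.idem.eq]
  have hES : E ∈ S := by
    rw [hS, mem_CZ']
    refine ⟨suppIn_pw _, fun m _ => ?_⟩
    rw [hE, cj_pw]
    simp only [hecj]
  let 𝓛 : MonoidAlgebra k (RegularWreathProduct G P) → Prop := fun z =>
    z ∈ S ∧ ∃ c : k, IsNilpotent ((z - algebraMap k _ c) * E)
  have halg : ∀ c : k, algebraMap k (MonoidAlgebra k (RegularWreathProduct G P)) c ∈ S :=
    fun c => S.algebraMap_mem c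
  have hadd : ∀ x y, 𝓛 x → 𝓛 y → 𝓛 (x + y) := by
    rintro x y ⟨hx, c, hc⟩ ⟨hy, d, hd⟩
    refine ⟨add_mem hx hy, c + d, ?_⟩
    have : (x + y - algebraMap k _ (c + d)) * E =
        (x - algebraMap k _ c) * E + (y - algebraMap k _ d) * E := by
      rw [map_add]; noncomm_ring
    rw [this]
    refine Commute.isNilpotent_add ?_ hc hd
    exact hcomm _ (mul_mem (sub_mem hx (halg c)) hES) _ (mul_mem (sub_mem hy (halg d)) hES)
  have hsmul : ∀ (a : k) x, 𝓛 x → 𝓛 (a • x) := by
    rintro a x ⟨hx, c, n, hc⟩
    refine ⟨S.smul_mem hx a, a * c, n, ?_⟩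
    have : (a • x - algebraMap k _ (a * c)) * E = a • ((x - algebraMap k _ c) * E) := by
      rw [map_mul, sub_mul, sub_mul, smul_sub, smul_mul_assoc, mul_assoc, ← Algebra.smul_def]
    rw [this, smul_pow, hc, smul_zero]
  have hmul : ∀ x y, 𝓛 x → 𝓛 y → 𝓛 (x * y) := by
    rintro x y ⟨hx, c, hc⟩ ⟨hy, d, hd⟩
    refine ⟨mul_mem hx hy, c * d, ?_⟩
    have : (x * y - algebraMap k _ (c * d)) * E =
        ((x - algebraMap k _ c) * E) * y + c • ((y - algebraMap k _ d) * E) := by
      have h1 : E * y = y * E := hcomm _ hES _ hy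
      rw [map_mul, Algebra.smul_def]
      calc (x * y - algebraMap k _ c * algebraMap k _ d) * E
          = x * (y * E) - algebraMap k _ c * (y * E) + algebraMap k _ c * (y * E) -
            algebraMap k _ c * (algebraMap k _ d * E) := by noncomm_ring
        _ = x * (E * y) - algebraMap k _ c * (E * y) + algebraMap k _ c * (y * E) -
            algebraMap k _ c * (algebraMap k _ d * E) := by rw [h1]
        _ = _ := by noncomm_ring
    rw [this]
    refine Commute.isNilpotent_add ?_ ?_ ?_
    · exact hcomm _ (mul_mem (mul_mem (sub_mem hx (halg c)) hES) hy) _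
        (S.smul_mem (mul_mem (sub_mem hy (halg d)) hES) c)
    · refine Commute.isNilpotent_mul_right ?_ hc
      exact hcomm _ (mul_mem (sub_mem hx (halg c)) hES) _ hy
    · obtain ⟨n, hn⟩ := hd
      exact ⟨n, by rw [smul_pow, hn, smul_zero]⟩
  have hone : 𝓛 1 := ⟨one_mem _, 1, 1, by rw [map_one, sub_self, zero_mul, pow_one]⟩
  have hzero : 𝓛 0 := ⟨zero_mem _, 0, 1, by rw [map_zero, sub_self, zero_mul, pow_one]⟩
  -- locality in `kG`
  have hprimG : IsPrim (CZ k (⊤ : Subgroup G) ⊤) e := by
    refine ⟨?_, he.idem, he.ne_zero, ?_⟩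
    · rw [mem_CZ']
      exact ⟨fun g hg => absurd (Subgroup.mem_top g) hg, fun m _ => hecj m⟩
    · intro f hf hff
      exact he.prim f hff (fun x => central_comm hf x)
  have hupd : ∀ (i : P) (κ : MonoidAlgebra k G), (∀ g, cj g κ = κ) →
      𝓛 (pw (Function.update (fun _ : P => (1 : MonoidAlgebra k G)) i κ)) := by
    intro i κ hκ
    have hκmem : κ ∈ CZ k (⊤ : Subgroup G) ⊤ := by
      rw [mem_CZ']
      exact ⟨fun g hg => absurd (Subgroup.mem_top g) hg, fun m _ => hκ m⟩
    obtain ⟨c, n, hn⟩ := hprimG.loc (CZ_comm (le_refl _)) hκmem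
    refine ⟨?_, c, n + 1, ?_⟩
    · rw [hS, mem_CZ']
      refine ⟨suppIn_pw _, fun m hm => ?_⟩
      rw [cj_pw]
      congr 1
      funext j
      have hm1 : m.right = 1 := hm
      rw [hm1, inv_one, one_mul]
      by_cases hj : j = i
      · subst hj
        rw [Function.update_self, hκ]
      · rw [Function.update_of_ne hj, cj_one]
    · have h1 : (pw (Function.update (fun _ : P => (1 : MonoidAlgebra k G)) i κ) -
          algebraMap k _ c) = pw (Function.update (fun _ : P => (1 : MonoidAlgebra k G)) i
            (κ - c • 1)) := by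
        rw [pw_update_sub, Function.update_eq_self i (fun _ : P => (1 : MonoidAlgebra k G)), pw_one,
          Algebra.algebraMap_eq_smul_one]
      rw [h1, hE, pw_mul, pw_pow]
      apply pw_eq_zero (i := i)
      rw [Function.update_self]
      have h2 : κ - c • (1 : MonoidAlgebra k G) = κ - algebraMap k _ c := by
        rw [Algebra.algebraMap_eq_smul_one]
      rw [h2, pow_succ, hn, zero_mul]
  have hpw : ∀ κ : P → MonoidAlgebra k G, (∀ i g, cj g (κ i) = κ i) → 𝓛 (pw κ) := by
    intro κ hκ
    have : ∀ s : Finset P, 𝓛 (pw (fun i => if i ∈ s then κ i else 1)) := by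
      intro s
      induction s using Finset.induction_on with
      | empty => simpa [pw_one] using hone
      | insert a s ha ih =>
        have h1 : pw (fun i => if i ∈ insert a s then κ i else 1) =
            pw (fun i => if i ∈ s then κ i else 1) *
            pw (Function.update (fun _ : P => (1 : MonoidAlgebra k G)) a (κ a)) := by
          rw [pw_mul]
          congr 1
          funext i
          by_cases hi : i = a
          · subst hi
            simp [ha]
          · simp [hi]
        rw [h1]
        exact hmul _ _ ih (hupd a (κ a) (hκ a))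
    simpa using this Finset.univ
  obtain ⟨c, hc⟩ := base_central_eq hz
  have : Fintype (ConjClasses G) := Fintype.ofFinite _
  rw [finsum_eq_sum_of_fintype] at hc
  have hfin : 𝓛 z := by
    rw [hc]
    have : ∀ s : Finset (P → ConjClasses G),
        𝓛 (∑ t ∈ s, c t • pw (fun i => clsum (k := k) (t i))) := by
      intro s
      induction s using Finset.induction_on with
      | empty => simpa using hzero
      | insert a s ha ih =>
        rw [Finset.sum_insert ha]
        exact hadd _ _ (hsmul _ _ (hpw _ (fun i g => cj_clsum _ _))) ih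
    exact this _
  exact hfin.2

theorem pw_prim [IsAlgClosed k] {e : MonoidAlgebra k G} (he : IsBlock e)
    {f : MonoidAlgebra k (RegularWreathProduct G P)}
    (hf : f ∈ CZ k (baseGp G P) (baseGp G P)) (hff : f * f = f) :
    f * pw (fun _ : P => e) = 0 ∨ f * pw (fun _ : P => e) = pw (fun _ : P => e) := by
  obtain ⟨c, hc⟩ := pw_loc he hf
  set E := pw (fun _ : P => e) with hE
  have hecj : ∀ g : G, cj g e = e := fun g => (cj_eq_iff g e).2 (he.central (dl k g))
  have hEE : E * E = E := by rw [hE, pw_mul]; simp only [he.idem.eq]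
  have hES : E ∈ CZ k (baseGp G P) (baseGp G P) := by
    rw [mem_CZ']
    refine ⟨suppIn_pw _, fun m _ => ?_⟩
    rw [hE, cj_pw]
    simp only [hecj]
  have hcomm := CZ_comm (k := k) (le_refl (baseGp G P))
  have hEf : E * f = f * E := hcomm _ hES _ hf
  have hν : (f - algebraMap k _ c) * E = f * E - c • E := by
    rw [sub_mul, Algebra.smul_def]
  rw [hν] at hc
  by_contra hcon
  push Not at hcon
  have hfE : f * E * (f * E) = f * E := by
    rw [mul_assoc, ← mul_assoc E f E, hEf, mul_assoc f E E, hEE, ← mul_assoc, hff]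
  -- multiply by `f * E`
  have h1 : IsNilpotent ((1 - c) • (f * E)) := by
    have h2 : (1 - c) • (f * E) = (f * E) * (f * E - c • E) := by
      rw [mul_sub, hfE, mul_smul_comm, mul_assoc, hEE, sub_smul, one_smul]
    rw [h2]
    refine Commute.isNilpotent_mul_left ?_ hc
    exact hcomm _ (mul_mem hf hES) _ (sub_mem (mul_mem hf hES) (Subalgebra.smul_mem _ hES c))
  have h3 : c = 1 := by
    by_contra hne
    have hne' : (1 - c) ≠ 0 := fun h => hne (by linear_combination -h)
    obtain ⟨n, hn⟩ := h1
    rw [smul_pow] at hn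
    have : (f * E) ^ n = 0 := (smul_eq_zero.1 hn).resolve_left (pow_ne_zero n hne')
    exact idem_pow hfE hcon.1 ⟨n, this⟩
  subst h3
  rw [one_smul] at hc
  have h4 : (E - f * E) * (E - f * E) = E - f * E := by
    rw [mul_sub, sub_mul, sub_mul, hEE, hfE]
    have h5 : E * (f * E) = f * E := by rw [← mul_assoc, hEf, mul_assoc, hEE]
    have h6 : f * E * E = f * E := by rw [mul_assoc, hEE]
    rw [h5, h6]; simp
  have h7 : E - f * E ≠ 0 := fun h => hcon.2 (sub_eq_zero.1 h).symm
  apply idem_pow h4 h7
  have : E - f * E = -(f * E - E) := by simp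
  rw [this]
  exact hc.neg

end Primitive

end Pool.Agent.MP_a15589_al
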