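import Pool.Agent.UBlocks.KB3Main

/-!
# Brauer's k(B) conjecture: reduction to wreath products of simple groups

Let `p` be a prime number and `k` an algebraically closed field of characteristic `p`.

Let `S` be a finite nonabelian simple group with two different `p`-blocks of defect zero.  Such a
group exists for every `p`: for instance `PSL_2(q)`, where `q > 11` is a prime number with
`q ≡ -1` modulo `4 p`.  Let `P_i` be a family of finite simple groups such that every finite group
can be embedded in some `P_i`; for instance the alternating groups `A_n` with `n` in any infinite
set.  The regular wreath product `S ≀ P_i` is then a finite group with exactly one normal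
subgroup other than the trivial ones, and this subgroup is a direct power of `S`.

We prove that Brauer's inequality `k(B) ≤ |D|` (and more generally `k(B) ≤ |D|^α` with `α ≥ 1`)
for all `p`-blocks of all finite groups is equivalent to the asymptotic inequality
`k(B) ≤ C(ε) |D|^(α + ε)` for the `p`-blocks of the wreath products `S ≀ P_i`.  The same holds for
the blocks with defect groups in any class of groups which is closed under subgroups, quotients
and finite powers, such as the class of abelian groups.

The reason: let `G` be a subgroup of `P = P_i`, and let `ε₀`, `ε₁` be idempotents of `k S` of rank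
one in the two blocks of defect zero.  The tensor product over `P` of the idempotents `ε_c(x)`,
where `c(x) = 1` if `x` is in `G` and `c(x) = 0` otherwise, is an idempotent `ε` of the group
algebra of the base group which is fixed by `G` and orthogonal to its other conjugates.  So
`ε k(S ≀ P) ε` is isomorphic to `k G`, and a full matrix algebra over `k G` is a direct factor of
`k (S ≀ P)`, compatibly with defect groups.
-/

set_option autoImplicit false

namespace Pool.Agent.Results.MP_a15589_al.WreathSimple

open Pool.Agent.MP_a15589_al Pool.Agent.UBlocks Matrix

open scoped MatrixGroups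

/-- The main result. -/
theorem result (p : ℕ) (hp : p.Prime) (k : Type) [Field k] [IsAlgClosed k] [CharP k p] :
    (∀ N : ℕ, ∃ q : ℕ, N < q ∧ q.Prime ∧ TwoZero k PSL(2, ZMod q)) ∧
    ∀ (S : Type) [Group S], TwoZero k S →
      ∀ (I : Type) (P : I → Type) [∀ i, Group (P i)] [∀ i, Finite (P i)]
        [∀ i, IsSimpleGroup (P i)],
        (∀ (G : Type) [Group G] [Finite G], ∃ i, ∃ f : G →* P i, Function.Injective f) →
        ∀ 𝒟 : (∀ (H : Type) [Group H], Prop), ClosedClass 𝒟 → ∀ α : ℝ, 1 ≤ α →
          (WeakBound k
            (fun X _ => OneNormal X ∧ ∃ i, Nonempty (X ≃* RegularWreathProduct S (P i))) 𝒟 α ↔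
              StrongBound k 𝒟 α) :=
  ⟨exists_twoZero p hp k, fun S _ hS I P _ _ _ hP 𝒟 h𝒟 α hα =>
    weak_iff_strong_simple p hp k S hS I P hP 𝒟 h𝒟 α hα⟩

end Pool.Agent.Results.MP_a15589_al.WreathSimple
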